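import Pool.Agent.Helper98.MH.Two
import Pool.Agent.Helper21.MH.Bound

/-!
The theorem on a dominating middle eigenvalue.
-/

open Matrix

namespace MH

variable {n : Type*} [Fintype n] [DecidableEq n]
variable {h : Matrix n n ℂ} {E : ℝ → Matrix n n ℂ} {Λ : Finset ℝ}
variable {τ : Matrix n n ℂ →ₗ[ℂ] Matrix n n ℂ} {L : Submodule ℂ (Matrix n n ℂ)}

namespace Dat

variable (D : Dat τ L h E Λ)
include D

lemma EE (μ : ℝ) : E μ * E μ = E μ := by rw [D.spec.mul, if_pos rfl]

lemma PP_idem : Pp E Λ * Pp E Λ = Pp E Λ := D.spec.sum_mul_sum _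

lemma rank_Pp : (Pp E Λ).rank = ∑ μ ∈ Λ.filter (fun μ => 0 < μ), (E μ).rank := by
  have h1 : (((Pp E Λ).rank : ℕ) : ℂ) = ((∑ μ ∈ Λ.filter (fun μ => 0 < μ), (E μ).rank : ℕ) : ℂ) := by
    rw [rank_eq_trace D.PP_idem, Pp, Matrix.trace_sum]
    push_cast
    apply Finset.sum_congr rfl
    intro μ _
    rw [rank_eq_trace (D.EE μ)]
  exact_mod_cast h1

lemma rank_pos_le {ρ : ℝ} (hρ : 0 < ρ) : (E ρ).rank ≤ (Pp E Λ).rank := by
  rw [D.rank_Pp]
  by_cases hm : ρ ∈ Λ
  · exact Finset.single_le_sum (f := fun μ => (E μ).rank) (fun _ _ => Nat.zero_le _)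
      (Finset.mem_filter.mpr ⟨hm, hρ⟩)
  · rw [D.spec.supp ρ hm]; simp

lemma rank_le {ρ : ℝ} (hρ : ρ ≠ 0) : (E ρ).rank ≤ (Pp E Λ).rank := by
  rcases lt_or_gt_of_ne hρ with h1 | h1
  · rw [← D.rank_neg ρ]; exact D.rank_pos_le (by linarith)
  · exact D.rank_pos_le h1

/-- If one positive eigenvalue has the full multiplicity, the others vanish. -/
lemma rank_other {ρ σ : ℝ} (hρ : 0 < ρ) (hσ : 0 < σ) (hne : σ ≠ ρ)
    (hle : (Pp E Λ).rank ≤ (E ρ).rank) : (E σ).rank = 0 := by
  by_cases hs : σ ∈ Λ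
  · by_cases hm : ρ ∈ Λ
    · have h1 := D.rank_Pp
      have h2 : (E ρ).rank + (E σ).rank ≤ ∑ μ ∈ Λ.filter (fun μ => 0 < μ), (E μ).rank := by
        have h3 : ({ρ, σ} : Finset ℝ) ⊆ Λ.filter (fun μ => 0 < μ) := by
          intro x hx
          rcases Finset.mem_insert.mp hx with rfl | hx
          · exact Finset.mem_filter.mpr ⟨hm, hρ⟩
          · rw [Finset.mem_singleton] at hx
            subst hx; exact Finset.mem_filter.mpr ⟨hs, hσ⟩
        have h4 := Finset.sum_le_sum_of_subset (f := fun μ => (E μ).rank) h3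
        rwa [Finset.sum_pair (Ne.symm hne)] at h4
      omega
    · have : (E ρ).rank = 0 := by rw [D.spec.supp ρ hm]; simp
      have h1 := D.rank_pos_le hσ
      omega
  · rw [D.spec.supp σ hs]; simp

lemma exists_MM {e : Matrix n n ℂ} (P : MinP L E e) (hc : AV L E e ⊔ XV τ L E e = ⊤)
    (hP : Pp E Λ ≠ 0) : ∃ ρ : ℝ, ρ ≠ 0 ∧ ∃ z ∈ MM τ L E e ρ, z ≠ 0 := by
  by_contra hno
  push Not at hno
  have hX : XV τ L E e = ⊥ := by
    rw [eq_bot_iff, XV, Submodule.span_le]
    rintro w ⟨z, hz, v, rfl⟩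
    have h1 : z * e = 0 := by
      have h2 : z * e = ∑ ρ ∈ Λ, E ρ * (z * e) := by
        rw [← Finset.sum_mul, D.spec.sum, one_mul]
      rw [h2]
      apply Finset.sum_eq_zero
      intro ρ _
      by_cases hρ : ρ = 0
      · rw [hρ, ← mul_assoc, hz.2.1, zero_mul]
      · apply hno ρ hρ
        refine ⟨D.XX_cmp (D.XX_mul hz P.mem) ρ, ?_, ?_⟩
        · rw [mul_assoc, mul_assoc, P.idem]
        · rw [← mul_assoc, D.EE]
    rw [h1]; simp
  rw [hX, sup_bot_eq] at hc
  have hE : E 0 = 1 := by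
    apply mat_ext
    intro v
    rw [D.E0_AV (e := e) (by rw [hc]; exact Submodule.mem_top)]
    simp
  apply hP
  have h1 : Pp E Λ * E 0 = 0 := by
    rw [Pp, Finset.sum_mul]
    apply Finset.sum_eq_zero
    intro μ hμ
    rw [D.spec.mul, if_neg (ne_of_gt (Finset.mem_filter.mp hμ).2)]
  rwa [hE, mul_one] at h1

/-- **Main theorem.** If the kernel of `h` is large compared with the positive part, and the
multiplicities of the eigenvalues of `h` have no common divisor, then `L` is full. -/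
theorem main (hs : 2 ≤ (Pp E Λ).rank) (hb : 3 * (Pp E Λ).rank ^ 2 < 2 * (E 0).rank)
    (hg : ∀ c : ℕ, (∀ μ, c ∣ (E μ).rank) → c = 1) {x : Matrix n n ℂ} (hx : τ x = -x) :
    x ∈ L := by
  have hPne : Pp E Λ ≠ 0 := by
    intro h0; rw [h0] at hs; simp at hs
  by_cases hK1 : Module.finrank ℂ (KK L E) ≤ 1
  · exact absurd (D.bound hK1 hs) (by omega)
  have hK : KK L E ≠ ⊥ := by
    intro h0; apply hK1; rw [h0]; simp
  obtain ⟨e, heA, hee, hes, he0, hmin⟩ := D.exists_min hK
  have P : MinP L E e := ⟨heA, hee, hes, he0, hmin⟩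
  by_cases hI : ∃ a ∈ AA L E, e * a * τ e ≠ 0
  · have hc := D.cover_I P hI
    obtain ⟨_, _, _, _, hE0⟩ := D.E0_sum P hc
    by_cases hR : ∃ u ∈ NN L E e, u ≠ 0 ∧ e * u = 0 ∧ τ e * u = 0
    · -- the main case
      have hsc : ∀ z1 ∈ XX τ L E, z1 * e = z1 → ∀ z2 ∈ XX τ L E, z2 * e = z2 →
          ∃ c : ℂ, z2ᴴ * z1 = c • e := fun z1 h1 h1e z2 h2 h2e => D.scalars P hR h1 h1e h2 h2e
      have hr : e.rank = 1 := by
        apply hg
        intro μ
        by_cases hμ : μ = 0
        · rw [hμ, hE0]; exact Dvd.intro_left _ rfl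
        · obtain ⟨_, _, _, _, hEμ⟩ := D.E_sum P hc hsc hμ
          rw [hEμ]; exact Dvd.intro_left _ rfl
      refine D.full P hc hsc hr ?_ ?_ hx
      · intro h0
        have h1 : (1 - E 0 : Matrix n n ℂ) = Pp E Λ + Qn E Λ := by
          rw [← D.spec.one_eq]; abel
        rw [h1, Matrix.trace_add, D.rank_Q, ← rank_eq_trace D.PP_idem] at h0
        have h2 : ((2 * (Pp E Λ).rank : ℕ) : ℂ) = 0 := by
          push_cast; rw [two_mul]; exact h0
        have h3 : 2 * (Pp E Λ).rank = 0 := by exact_mod_cast h2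
        omega
      · intro h0
        rw [← rank_eq_trace D.E00] at h0
        have h3 : (E 0).rank = 0 := by exact_mod_cast h0
        rw [h3] at hb; omega
    · -- the small case
      exfalso
      have hd3 : ¬ 3 ≤ Module.finrank ℂ (NN L E e) := fun h3 => hR (D.exists_u3 P h3)
      have hd1 := D.one_le_finrank P
      have hd1' : Module.finrank ℂ (NN L E e) ≠ 1 := fun h1 => hK (D.caseI_one P hc h1)
      have hd2 : Module.finrank ℂ (NN L E e) = 2 := by omega
      obtain ⟨u, hu, hu0, heu⟩ := D.exists_u2 P hd2.ge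
      obtain ⟨ρ, hρ, z, hz, hz0⟩ := D.exists_MM P hc hPne
      have hle := D.rank_e_le P (by
        intro v hv h1 h2
        by_contra h0
        exact hR ⟨v, hv, h0, h1, h2⟩) hu hu0 heu hz hz0
      rw [hd2] at hE0
      have hρs := D.rank_le hρ
      set s := (Pp E Λ).rank with hsdef
      set r := e.rank with hrdef
      have h8 : 3 * s ^ 2 < 8 * s := by
        calc 3 * s ^ 2 < 2 * (E 0).rank := hb
          _ = 4 * r := by rw [hE0]; ring
          _ ≤ 4 * (2 * (E ρ).rank) := by omega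
          _ ≤ 8 * s := by omega
      have hs2 : s = 2 := by
        have : 3 * s < 8 := by
          by_contra h9
          have : 8 * s ≤ 3 * s * s := Nat.mul_le_mul_right s (by omega)
          nlinarith
        omega
      have hr4 : r = 4 := by
        have h9 : 12 < 2 * (2 * r) := by rw [← hE0]; calc 12 = 3 * s ^ 2 := by rw [hs2]; norm_num
                _ < _ := hb
        omega
      have hρ2 : (E ρ).rank = 2 := by omega
      have habs : ∀ ρ' : ℝ, 0 < ρ' → (E ρ').rank = 2 → ∀ σ : ℝ, 2 ∣ (E σ).rank := by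
        intro ρ' hρ' hr' σ
        rcases lt_trichotomy σ 0 with h1 | h1 | h1
        · rw [← D.rank_neg σ]
          by_cases h2 : -σ = ρ'
          · rw [h2, hr']
          · rw [D.rank_other hρ' (by linarith) h2 (by rw [← hsdef, hs2, hr'])]
            exact dvd_zero 2
        · rw [h1, hE0, hr4]; norm_num
        · by_cases h2 : σ = ρ'
          · rw [h2, hr']
          · rw [D.rank_other hρ' h1 h2 (by rw [← hsdef, hs2, hr'])]
            exact dvd_zero 2
      have hall : ∀ σ : ℝ, 2 ∣ (E σ).rank := by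
        rcases lt_or_gt_of_ne hρ with h1 | h1
        · exact habs (-ρ) (by linarith) (by rw [D.rank_neg, hρ2])
        · exact habs ρ h1 hρ2
      have := hg 2 hall
      omega
  · exfalso
    push Not at hI
    by_cases hd : 2 ≤ Module.finrank ℂ (NN L E e)
    · exact D.caseII_two P hI hd
    · have hd1 := D.one_le_finrank P
      exact hK1 (D.caseII_one P hI (by omega))

end Dat

end MH
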