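import Pool.Agent.Helper98.MH.Main

/-!
Without a hypothesis on common divisors: the space is a tensor product and the Lie algebra
normalises the algebra of the first factor.
-/

open Matrix

namespace MH

variable {n : Type*} [Fintype n] [DecidableEq n]
variable {h : Matrix n n ℂ} {E : ℝ → Matrix n n ℂ} {Λ : Finset ℝ}
variable {τ : Matrix n n ℂ →ₗ[ℂ] Matrix n n ℂ} {L : Submodule ℂ (Matrix n n ℂ)}

namespace Dat

variable (D : Dat τ L h E Λ)
include D

lemma h_ne98 (hP : Pp E Λ ≠ 0) : h ≠ 0 := by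
  rintro rfl
  have h1 : ∀ μ : ℝ, μ ≠ 0 → E μ = 0 := by
    intro μ hμ
    have h2 := D.spec.h_mul μ
    rw [zero_mul] at h2
    rcases smul_eq_zero.1 h2.symm with h3 | h3
    · exact absurd (by exact_mod_cast h3) hμ
    · exact h3
  apply hP
  unfold Pp
  exact Finset.sum_eq_zero fun μ hμ => h1 μ (Finset.mem_filter.1 hμ).2.ne'

/-- In the two-dimensional case `KK` has dimension at most three. -/
lemma finrank_KK_le3 {e : Matrix n n ℂ} (P : MinP L E e) (hc : AV L E e ⊔ XV τ L E e = ⊤)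
    (hd : Module.finrank ℂ (NN L E e) = 2) : Module.finrank ℂ (KK L E) ≤ 3 := by
  obtain ⟨u, hu, huu, hQ, _⟩ := D.E0_sum P hc
  let S : Submodule ℂ (Matrix n n ℂ) :=
    { carrier := {y | y * E 0 = y ∧ ∀ a ∈ NN L E e, y * a ∈ NN L E e}
      add_mem' := fun {x y} hx hy => ⟨by rw [add_mul, hx.1, hy.1], fun a ha => by
        rw [add_mul]; exact (NN L E e).add_mem (hx.2 a ha) (hy.2 a ha)⟩
      zero_mem' := ⟨zero_mul _, fun a _ => by rw [zero_mul]; exact (NN L E e).zero_mem⟩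
      smul_mem' := fun c x hx => ⟨by rw [smul_mul_assoc, hx.1], fun a ha => by
        rw [smul_mul_assoc]; exact (NN L E e).smul_mem c (hx.2 a ha)⟩ }
  let Φ : S →ₗ[ℂ] (NN L E e →ₗ[ℂ] NN L E e) :=
    { toFun := fun k =>
        { toFun := fun a => ⟨(k : Matrix n n ℂ) * (a : Matrix n n ℂ), k.2.2 _ a.2⟩
          map_add' := fun a b => Subtype.ext (mul_add _ _ _)
          map_smul' := fun c a => Subtype.ext (mul_smul_comm _ _ _) }
      map_add' := fun x y => LinearMap.ext fun a => Subtype.ext (add_mul _ _ _)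
      map_smul' := fun c x => LinearMap.ext fun a => Subtype.ext (smul_mul_assoc _ _ _) }
  have hΦ : ∀ (k : S) (a : NN L E e), ((Φ k a : NN L E e) : Matrix n n ℂ) =
      (k : Matrix n n ℂ) * (a : Matrix n n ℂ) := fun _ _ => rfl
  have hinj : Function.Injective Φ := by
    rw [injective_iff_map_eq_zero]
    intro k hk
    apply Subtype.ext
    have h1 : (k : Matrix n n ℂ) = 0 := by
      rw [← k.2.1, ← hQ, Finset.mul_sum]
      apply Finset.sum_eq_zero
      intro i _
      have h2 : (k : Matrix n n ℂ) * u i = 0 := by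
        have := hΦ k ⟨u i, hu i⟩
        rw [hk] at this
        exact this.symm
      rw [← mul_assoc, h2, zero_mul]
    rw [h1]; rfl
  have h1 := LinearMap.finrank_le_finrank_of_injective hinj
  rw [Module.finrank_linearMap, hd] at h1
  have hKS : KK L E < S := by
    rw [lt_iff_le_and_ne]
    constructor
    · intro k hk
      exact ⟨D.KK_right hk, fun a ha => ⟨mul_mem (D.KK_le _ hk) ha.1, by rw [mul_assoc, ha.2]⟩⟩
    · intro heq
      have h5 : E 0 ∈ KK L E := by
        rw [heq]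
        exact ⟨D.E00, fun a ha => by rw [D.AA_left ha.1]; exact ha⟩
      have h6 := D.KK_tau h5
      rw [D.tauE0] at h6
      have h7 : (2 : ℂ) • E 0 = 0 := by
        rw [two_smul]; nth_rewrite 1 [h6]; abel
      have h8 : E 0 = 0 := (smul_eq_zero.mp h7).resolve_left two_ne_zero
      apply P.ne
      rw [← D.AA_left P.mem, h8, zero_mul]
  have h2 := Submodule.finrank_lt_finrank_of_lt hKS
  omega

/-- The main case of the theorem, without a hypothesis on common divisors. -/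
theorem exists_e (hs : 2 ≤ (Pp E Λ).rank) (hb : 3 * (Pp E Λ).rank ^ 2 < 2 * (E 0).rank) :
    ∃ e : Matrix n n ℂ, MinP L E e ∧ AV L E e ⊔ XV τ L E e = ⊤ ∧
      ∀ z1 ∈ XX τ L E, z1 * e = z1 → ∀ z2 ∈ XX τ L E, z2 * e = z2 → ∃ c : ℂ, z2ᴴ * z1 = c • e := by
  have hPne : Pp E Λ ≠ 0 := by
    intro h0; rw [h0] at hs; simp at hs
  by_cases hK1 : Module.finrank ℂ (KK L E) ≤ 1
  · exact absurd (D.bound hK1 hs) (by omega)
  have hK : KK L E ≠ ⊥ := by
    intro h0; apply hK1; rw [h0]; simp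
  obtain ⟨e, heA, hee, hes, he0, hmin⟩ := D.exists_min hK
  have P : MinP L E e := ⟨heA, hee, hes, he0, hmin⟩
  by_cases hI : ∃ a ∈ AA L E, e * a * τ e ≠ 0
  · have hc := D.cover_I P hI
    obtain ⟨_, _, _, _, hE0⟩ := D.E0_sum P hc
    by_cases hR : ∃ u ∈ NN L E e, u ≠ 0 ∧ e * u = 0 ∧ τ e * u = 0
    · exact ⟨e, P, hc, fun z1 h1 h1e z2 h2 h2e => D.scalars P hR h1 h1e h2 h2e⟩
    · exfalso
      have hd3 : ¬ 3 ≤ Module.finrank ℂ (NN L E e) := fun h3 => hR (D.exists_u3 P h3)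
      have hd1 := D.one_le_finrank P
      have hd1' : Module.finrank ℂ (NN L E e) ≠ 1 := fun h1 => hK (D.caseI_one P hc h1)
      have hd2 : Module.finrank ℂ (NN L E e) = 2 := by omega
      obtain ⟨u, hu, hu0, heu⟩ := D.exists_u2 P hd2.ge
      obtain ⟨ρ, hρ, z, hz, hz0⟩ := D.exists_MM P hc hPne
      have hle := D.rank_e_le P (by
        intro v hv h1 h2
        by_contra h0
        exact hR ⟨v, hv, h0, h1, h2⟩) hu hu0 heu hz hz0
      rw [hd2] at hE0
      have hρs := D.rank_le hρ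
      have hK3 := D.finrank_KK_le3 P hc hd2
      have hze := D.finrank_ze
      have hz0 := D.rank_zero_le hPne
      obtain ⟨d, B, c1, c2, c3, c4⟩ := D.casimir_ineq (D.h_ne98 hPne)
      set s := (Pp E Λ).rank with hsdef
      set r := e.rank with hrdef
      have h8 : 3 * s ^ 2 < 8 * s := by
        calc 3 * s ^ 2 < 2 * (E 0).rank := hb
          _ = 4 * r := by rw [hE0]; ring
          _ ≤ 4 * (2 * (E ρ).rank) := by omega
          _ ≤ 8 * s := by omega
      have hs2 : s = 2 := by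
        have : 3 * s < 8 := by
          by_contra h9
          have : 8 * s ≤ 3 * s * s := Nat.mul_le_mul_right s (by omega)
          nlinarith
        omega
      have hr4 : r = 4 := by
        have h9 : 12 < 2 * (2 * r) := by rw [← hE0]; calc 12 = 3 * s ^ 2 := by rw [hs2]; norm_num
                _ < _ := hb
        omega
      have hb8 : (E 0).rank = 8 := by rw [hE0, hr4]
      set N := Module.finrank ℂ (Lup L E) with hN
      rw [hs2] at hze c4 hz0
      rw [hb8] at c4 hz0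
      have hN4 : 4 ≤ N := by omega
      have hd6 : d ≤ 6 := by omega
      have hd6' : (d : ℝ) ≤ 6 := by exact_mod_cast hd6
      have hN4' : (4 : ℝ) ≤ N := by exact_mod_cast hN4
      push_cast at c4
      have hB : B = 0 := by nlinarith
      have hd3' : (d : ℝ) ≤ 3 := by exact_mod_cast (c3 hB).trans hK3
      rw [hB] at c4
      nlinarith
  · exfalso
    push Not at hI
    by_cases hd : 2 ≤ Module.finrank ℂ (NN L E e)
    · exact D.caseII_two P hI hd
    · have hd1 := D.one_le_finrank P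
      exact hK1 (D.caseII_one P hI (by omega))

/-- homogeneous elements supported on `e` -/
structure Good (τ : Matrix n n ℂ →ₗ[ℂ] Matrix n n ℂ) (L : Submodule ℂ (Matrix n n ℂ))
    (E : ℝ → Matrix n n ℂ) (e : Matrix n n ℂ) (ρ : ℝ) (z : Matrix n n ℂ) : Prop where
  right : z * e = z
  left : E ρ * z = z
  zero : ρ = 0 → z ∈ AA L E
  ne : ρ ≠ 0 → z ∈ XX τ L E

lemma star_E0 {w : Matrix n n ℂ} (h0 : E 0 * w = 0) : wᴴ * E 0 = 0 := by
  have := congrArg conjTranspose h0
  rwa [conjTranspose_mul, D.spec.star, conjTranspose_zero] at this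

lemma star_E0' {w : Matrix n n ℂ} (h0 : E 0 * w = w) : wᴴ * E 0 = wᴴ := by
  have := congrArg conjTranspose h0
  rwa [conjTranspose_mul, D.spec.star] at this

/-- Elements of nonzero degree have scalar matrix coefficients. -/
lemma hom_ne {e : Matrix n n ℂ} (P : MinP L E e)
    (hsc : ∀ z1 ∈ XX τ L E, z1 * e = z1 → ∀ z2 ∈ XX τ L E, z2 * e = z2 →
      ∃ c : ℂ, z2ᴴ * z1 = c • e) {ν : ℝ} (hν : ν ≠ 0) {l : Matrix n n ℂ} (hl : l ∈ Ld L h ν)
    {ρ σ : ℝ} {z w : Matrix n n ℂ} (hz : Good τ L E e ρ z) (hw : Good τ L E e σ w) :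
    ∃ c : ℂ, wᴴ * l * z = c • e := by
  by_cases hρ : ρ = 0
  · have hzA := hz.zero hρ
    have h1 : l * z ∈ XX τ L E := D.mul_AA hl.1 (D.Ld_E0 hν hl) hzA
    by_cases hσ : σ = 0
    · have hwA := hw.zero hσ
      refine ⟨0, ?_⟩
      rw [← D.star_E0' (D.AA_left hwA), mul_assoc, mul_assoc, h1.2.1, mul_zero, zero_smul]
    · obtain ⟨c, hc⟩ := hsc _ h1 (by rw [mul_assoc, hz.right]) _ (hw.ne hσ) hw.right
      exact ⟨c, by rw [mul_assoc, hc]⟩
  · have hzX := hz.ne hρ
    by_cases hσ : σ = 0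
    · have hwA := hw.zero hσ
      have h2 : E 0 * lᴴ * E 0 = 0 := by
        have := congrArg conjTranspose (D.Ld_E0 hν hl)
        rwa [conjTranspose_mul, conjTranspose_mul, D.spec.star, conjTranspose_zero,
          ← mul_assoc] at this
      have h1 : lᴴ * w ∈ XX τ L E := D.mul_AA (D.st _ hl.1) h2 hwA
      obtain ⟨c, hc⟩ := hsc _ h1 (by rw [mul_assoc, hw.right]) _ hzX hz.right
      refine ⟨star c, ?_⟩
      have := congrArg conjTranspose hc
      rwa [conjTranspose_mul, conjTranspose_mul, conjTranspose_conjTranspose,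
        conjTranspose_conjTranspose, conjTranspose_smul, P.star] at this
    · have hwX := hw.ne hσ
      have hy := Ld_bracket D.br hl (D.hat_mem_Ld hzX hz.left)
      set y := l * (z - τ z) - (z - τ z) * l with hydef
      have he0 : E 0 * e = e := D.AA_left P.mem
      have g1 : τ z * e = 0 := by rw [← he0, ← mul_assoc, D.tau_XX_E hzX, zero_mul]
      have g2 : z * l * e = 0 := by
        rw [← hzX.2.2, ← he0]
        have : z * E 0 * l * (E 0 * e) = z * (E 0 * l * E 0) * e := by simp only [mul_assoc]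
        rw [this, D.Ld_E0 hν hl]; simp
      have g3 : wᴴ * τ z = 0 := by
        rw [← D.E_tau_XX hzX, ← mul_assoc, D.star_E0 hwX.2.1, zero_mul]
      have key : wᴴ * l * z = wᴴ * (y * e) := by
        have e1 : y * e = l * (z * e) - l * (τ z * e) - z * l * e + τ z * (l * e) := by
          rw [hydef]; noncomm_ring
        rw [e1, hz.right, g1, g2, mul_zero, sub_zero, sub_zero, mul_add, ← mul_assoc wᴴ (τ z),
          g3, zero_mul, add_zero, mul_assoc]
      rw [key]
      by_cases hs : ν + ρ = 0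
      · rw [hs] at hy
        refine ⟨0, ?_⟩
        rw [← he0, ← mul_assoc y, ← D.Ld_zero_comm hy, mul_assoc, ← mul_assoc wᴴ,
          D.star_E0 hwX.2.1, zero_mul, zero_smul]
      · have h3 : y * e ∈ XX τ L E := D.mul_AA hy.1 (D.Ld_E0 hs hy) P.mem
        obtain ⟨c, hc⟩ := hsc _ h3 (by rw [mul_assoc, P.idem]) _ hwX hw.right
        exact ⟨c, hc⟩

/-- Elements of degree zero have matrix coefficients `c • e + δ e l e`. -/
lemma hom_zero {e : Matrix n n ℂ} (P : MinP L E e)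
    (hsc : ∀ z1 ∈ XX τ L E, z1 * e = z1 → ∀ z2 ∈ XX τ L E, z2 * e = z2 →
      ∃ c : ℂ, z2ᴴ * z1 = c • e) {l : Matrix n n ℂ} (hl : l ∈ Ld L h 0)
    {ρ σ : ℝ} {z w : Matrix n n ℂ} (hz : Good τ L E e ρ z) (hw : Good τ L E e σ w) :
    ∃ c : ℂ, wᴴ * l * z = c • e + wᴴ * z * (e * l * e) := by
  have hcomm := D.Ld_zero_comm hl
  have hze : z * (e * l * e) = z * l * e := by
    rw [mul_assoc e, ← mul_assoc z, hz.right, mul_assoc]
  have hew : e * wᴴ = wᴴ := by
    have := congrArg conjTranspose hw.right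
    rwa [conjTranspose_mul, P.star] at this
  by_cases hρ : ρ = 0
  · have hzA := hz.zero hρ
    by_cases hσ : σ = 0
    · have hwA := hw.zero hσ
      have hb := D.AA_bracket hl hzA
      obtain ⟨c, hc⟩ := P.min _ (mul_mem (D.AA_star hwA) hb)
      refine ⟨c, ?_⟩
      have e1 : wᴴ * l * z = wᴴ * l * (z * e) := by rw [hz.right]
      rw [← hc, ← mul_assoc e, hew, mul_assoc wᴴ z, hze, e1]
      noncomm_ring
    · have hwX := hw.ne hσ
      have h0 := D.star_E0 hwX.2.1
      refine ⟨0, ?_⟩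
      have e1 : wᴴ * l * z = 0 := by
        rw [← D.AA_left hzA, mul_assoc, ← mul_assoc l, ← hcomm, ← mul_assoc, ← mul_assoc, h0]
        simp
      have e2 : wᴴ * z = 0 := by rw [← D.AA_left hzA, ← mul_assoc, h0, zero_mul]
      rw [e1, e2, zero_smul, zero_mul, add_zero]
  · have hzX := hz.ne hρ
    by_cases hσ : σ = 0
    · have hwA := hw.zero hσ
      have h0 := D.star_E0' (D.AA_left hwA)
      refine ⟨0, ?_⟩
      have e1 : wᴴ * l * z = 0 := by
        rw [← h0, mul_assoc wᴴ (E 0) l, hcomm, mul_assoc, mul_assoc, hzX.2.1, mul_zero, mul_zero]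
      have e2 : wᴴ * z = 0 := by rw [← h0, mul_assoc, hzX.2.1, mul_zero]
      rw [e1, e2, zero_smul, zero_mul, add_zero]
    · have hwX := hw.ne hσ
      have hb := D.XX_mul (D.XX_bracket hl hzX) P.mem
      obtain ⟨c, hc⟩ := hsc _ hb (by rw [mul_assoc, P.idem]) _ hwX hw.right
      refine ⟨c, ?_⟩
      have e1 : wᴴ * l * z = wᴴ * l * (z * e) := by rw [hz.right]
      rw [← hc, mul_assoc wᴴ z, hze, e1]
      noncomm_ring

/-- Orthonormal families of homogeneous elements. -/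
lemma fam {e : Matrix n n ℂ} (P : MinP L E e) (hc : AV L E e ⊔ XV τ L E e = ⊤)
    (hsc : ∀ z1 ∈ XX τ L E, z1 * e = z1 → ∀ z2 ∈ XX τ L E, z2 * e = z2 →
      ∃ c : ℂ, z2ᴴ * z1 = c • e) (ρ : ℝ) :
    ∃ (k : ℕ) (u : Fin k → Matrix n n ℂ), (∀ i, Good τ L E e ρ (u i)) ∧
      (∀ i j, (u i)ᴴ * u j = if i = j then e else 0) ∧ (∑ i, u i * (u i)ᴴ = E ρ) ∧
      (E ρ).rank = k * e.rank := by
  by_cases hρ : ρ = 0
  · obtain ⟨u, hu, huu, hQ, hr⟩ := D.E0_sum P hc
    refine ⟨_, u, fun i => ⟨(hu i).2, ?_, fun _ => (hu i).1, fun h => absurd hρ h⟩, huu, ?_, ?_⟩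
    · rw [hρ]; exact D.AA_left (hu i).1
    · rw [hρ]; exact hQ
    · rw [hρ]; exact hr
  · obtain ⟨u, hu, huu, hQ, hr⟩ := D.E_sum P hc hsc hρ
    exact ⟨_, u, fun i => ⟨(hu i).2.1, (hu i).2.2, fun h => absurd h hρ, fun _ => (hu i).1⟩,
      huu, hQ, hr⟩

lemma Good_orth {e : Matrix n n ℂ} {ρ σ : ℝ} (hne : σ ≠ ρ) {z w : Matrix n n ℂ}
    (hz : Good τ L E e ρ z) (hw : Good τ L E e σ w) : wᴴ * z = 0 := by
  have h1 : wᴴ * E σ = wᴴ := by
    have := congrArg conjTranspose hw.left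
    rwa [conjTranspose_mul, D.spec.star] at this
  rw [← h1, ← hz.left, mul_assoc, ← mul_assoc (E σ), D.spec.mul, if_neg hne, zero_mul, mul_zero]

omit [Fintype n] [DecidableEq n] D in
lemma sum_sigma_filter98 {M : Type*} [AddCommMonoid M] {k : ℝ → ℕ}
    (f : (Σ ρ : {x : ℝ // x ∈ Λ}, Fin (k ρ)) → M) (ρ : ℝ) (hρ : ρ ∈ Λ) :
    ∑ a ∈ Finset.univ.filter (fun a : (Σ ρ : {x : ℝ // x ∈ Λ}, Fin (k ρ)) => (a.1 : ℝ) = ρ), f a
      = ∑ i : Fin (k ρ), f ⟨⟨ρ, hρ⟩, i⟩ := by
  rw [Finset.sum_filter, Fintype.sum_sigma, Finset.sum_eq_single ⟨ρ, hρ⟩]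
  · apply Finset.sum_congr rfl
    intro i _
    rw [if_pos rfl]
  · intro σ _ hσ
    apply Finset.sum_eq_zero
    intro i _
    rw [if_neg]
    intro h2
    exact hσ (Subtype.ext h2)
  · intro h; exact absurd (Finset.mem_univ _) h

/-- **The tensor product structure**, for a given minimal projection. -/
theorem units_e (hs : 1 ≤ (Pp E Λ).rank) (hb : 1 ≤ (E 0).rank) {e : Matrix n n ℂ}
    (P : MinP L E e) (hc : AV L E e ⊔ XV τ L E e = ⊤)
    (hsc : ∀ z1 ∈ XX τ L E, z1 * e = z1 → ∀ z2 ∈ XX τ L E, z2 * e = z2 →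
      ∃ c : ℂ, z2ᴴ * z1 = c • e) :
    ∃ e : Matrix n n ℂ, e * e = e ∧ eᴴ = e ∧ e ≠ 0 ∧
      (e.rank = 1 → ∀ x, τ x = -x → x ∈ L) ∧
      ∃ (ι : Type) (_ : Fintype ι) (_ : DecidableEq ι) (w : ι → Matrix n n ℂ) (kap : ι → ℝ),
        (∀ a, w a * e = w a) ∧ (∀ a b, (w a)ᴴ * w b = if a = b then e else 0) ∧
        (∀ ρ, ∑ a ∈ Finset.univ.filter (fun a => kap a = ρ), w a * (w a)ᴴ = E ρ) ∧
        (∑ a, w a * (w a)ᴴ = 1) ∧ Fintype.card ι * e.rank = Fintype.card n ∧
        (∀ ρ, (Finset.univ.filter (fun a => kap a = ρ)).card * e.rank = (E ρ).rank) ∧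
        ∀ l ∈ L, ∃ (c : Matrix n n ℂ) (t : ι → ι → ℂ), e * c * e = c ∧
          ∀ a b, (w a)ᴴ * l * w b = (if a = b then c else 0) + t a b • e := by
  classical
  have S := D.spec
  refine ⟨e, P.idem, P.star, P.ne, ?_, ?_⟩
  · intro hr x hx
    refine D.full P hc hsc hr ?_ ?_ hx
    · intro h0
      have h1 : (1 - E 0 : Matrix n n ℂ) = Pp E Λ + Qn E Λ := by
        rw [← D.spec.one_eq]; abel
      rw [h1, Matrix.trace_add, D.rank_Q, ← rank_eq_trace D.PP_idem] at h0
      have h2 : ((2 * (Pp E Λ).rank : ℕ) : ℂ) = 0 := by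
        push_cast; rw [two_mul]; exact h0
      have h3 : 2 * (Pp E Λ).rank = 0 := by exact_mod_cast h2
      omega
    · intro h0
      rw [← rank_eq_trace D.E00] at h0
      have h3 : (E 0).rank = 0 := by exact_mod_cast h0
      omega
  choose k u hu huu hQ hr using fun ρ => D.fam P hc hsc ρ
  let ι : Type := Σ ρ : {x : ℝ // x ∈ Λ}, Fin (k ρ)
  let w : ι → Matrix n n ℂ := fun a => u a.1 a.2
  let kap : ι → ℝ := fun a => a.1
  have hgood : ∀ a : ι, Good τ L E e (kap a) (w a) := fun a => hu a.1 a.2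
  have hww : ∀ a b : ι, (w a)ᴴ * w b = if a = b then e else 0 := by
    rintro ⟨ρ, i⟩ ⟨σ, j⟩
    by_cases hρσ : ρ = σ
    · subst hρσ
      have h1 := huu ρ i j
      by_cases hij : i = j
      · subst hij
        rw [if_pos rfl] at h1 ⊢
        exact h1
      · rw [if_neg hij] at h1
        rw [if_neg (by intro h2; exact hij (eq_of_heq (Sigma.mk.inj h2).2))]
        exact h1
    · rw [if_neg (by intro h2; apply hρσ; exact congrArg Sigma.fst h2)]
      refine D.Good_orth ?_ (hgood ⟨σ, j⟩) (hgood ⟨ρ, i⟩)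
      intro h2
      exact hρσ (Subtype.ext h2)
  have hempty : ∀ ρ : ℝ, ρ ∉ Λ → Finset.univ.filter (fun a => kap a = ρ) = ∅ := by
    intro ρ hρ
    rw [Finset.filter_eq_empty_iff]
    rintro ⟨σ, i⟩ _ h2
    apply hρ
    rw [← h2]
    exact σ.2
  have hcard : ∀ ρ, (Finset.univ.filter (fun a => kap a = ρ)).card * e.rank = (E ρ).rank := by
    intro ρ
    by_cases hρ : ρ ∈ Λ
    · have h1 := sum_sigma_filter98 (M := ℕ) (k := k) (fun _ => 1) ρ hρ
      rw [Finset.card_eq_sum_ones, h1, hr ρ]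
      simp
    · rw [hempty ρ hρ, S.supp ρ hρ]; simp
  have hw1 : ∑ a, w a * (w a)ᴴ = 1 := by
    rw [Fintype.sum_sigma, ← S.sum, ← Finset.sum_coe_sort Λ (fun ρ => E ρ)]
    apply Finset.sum_congr rfl
    intro ρ _
    exact hQ ρ
  refine ⟨ι, inferInstance, inferInstance, w, kap, fun a => (hgood a).right, hww, ?_, hw1, ?_,
    hcard, ?_⟩
  · intro ρ
    by_cases hρ : ρ ∈ Λ
    · refine (sum_sigma_filter98 (k := k) (fun a => w a * (w a)ᴴ) ρ hρ).trans ?_
      exact hQ ρ
    · rw [hempty ρ hρ, S.supp ρ hρ]; simp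
  · have h1 : ((Fintype.card ι * e.rank : ℕ) : ℂ) = (Fintype.card n : ℕ) := by
      push_cast
      rw [rank_eq_trace P.idem, ← Matrix.trace_one (n := n) (R := ℂ), ← hw1, Matrix.trace_sum]
      rw [Finset.sum_congr rfl (fun a _ => show (w a * (w a)ᴴ).trace = e.trace by
        rw [Matrix.trace_mul_comm, hww, if_pos rfl])]
      simp
    exact_mod_cast h1
  · intro l hl
    have hhom : ∀ ν : ℝ, ∃ (c : Matrix n n ℂ) (t : ι → ι → ℂ), e * c * e = c ∧
        ∀ a b, (w a)ᴴ * cmp E Λ ν l * w b = (if a = b then c else 0) + t a b • e := by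
      intro ν
      have hlν := D.cmp_mem_Ld hl ν
      by_cases hν : ν = 0
      · rw [hν] at hlν ⊢
        choose t ht using fun a b => D.hom_zero P hsc hlν (hgood b) (hgood a)
        refine ⟨e * cmp E Λ 0 l * e, t, ?_, ?_⟩
        · have : e * (e * cmp E Λ 0 l * e) * e = (e * e) * cmp E Λ 0 l * (e * e) := by
            simp only [mul_assoc]
          rw [this, P.idem]
        · intro a b
          rw [ht, hww, add_comm]
          congr 1
          by_cases hab : a = b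
          · rw [if_pos hab, if_pos hab, ← mul_assoc, ← mul_assoc, P.idem]
          · rw [if_neg hab, if_neg hab, zero_mul]
      · choose t ht using fun a b => D.hom_ne P hsc hν hlν (hgood b) (hgood a)
        refine ⟨0, t, by simp, fun a b => ?_⟩
        rw [ht]; simp
    choose c t hct ht using hhom
    refine ⟨∑ ν ∈ (Λ ×ˢ Λ).image (fun p => p.1 - p.2), c ν,
      fun a b => ∑ ν ∈ (Λ ×ˢ Λ).image (fun p => p.1 - p.2), t ν a b, ?_, ?_⟩
    · rw [Finset.mul_sum, Finset.sum_mul]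
      exact Finset.sum_congr rfl fun ν _ => hct ν
    · intro a b
      conv_lhs => rw [S.sum_cmp l]
      rw [Finset.mul_sum, Finset.sum_mul, Finset.sum_congr rfl (fun ν _ => ht ν a b),
        Finset.sum_add_distrib, Finset.sum_smul]
      congr 1
      by_cases hab : a = b
      · simp only [if_pos hab]
      · simp only [if_neg hab, Finset.sum_const_zero]

/-- **The tensor product structure.** -/
theorem units (hs : 2 ≤ (Pp E Λ).rank) (hb : 3 * (Pp E Λ).rank ^ 2 < 2 * (E 0).rank) :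
    ∃ e : Matrix n n ℂ, e * e = e ∧ eᴴ = e ∧ e ≠ 0 ∧
      (e.rank = 1 → ∀ x, τ x = -x → x ∈ L) ∧
      ∃ (ι : Type) (_ : Fintype ι) (_ : DecidableEq ι) (w : ι → Matrix n n ℂ) (kap : ι → ℝ),
        (∀ a, w a * e = w a) ∧ (∀ a b, (w a)ᴴ * w b = if a = b then e else 0) ∧
        (∀ ρ, ∑ a ∈ Finset.univ.filter (fun a => kap a = ρ), w a * (w a)ᴴ = E ρ) ∧
        (∑ a, w a * (w a)ᴴ = 1) ∧ Fintype.card ι * e.rank = Fintype.card n ∧
        (∀ ρ, (Finset.univ.filter (fun a => kap a = ρ)).card * e.rank = (E ρ).rank) ∧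
        ∀ l ∈ L, ∃ (c : Matrix n n ℂ) (t : ι → ι → ℂ), e * c * e = c ∧
          ∀ a b, (w a)ᴴ * l * w b = (if a = b then c else 0) + t a b • e := by
  obtain ⟨e, P, hc, hsc⟩ := D.exists_e hs hb
  have h1 : 2 ^ 2 ≤ (Pp E Λ).rank ^ 2 := Nat.pow_le_pow_left hs 2
  exact D.units_e (by omega) (by omega) P hc hsc

end Dat

end MH
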