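import Pool.Agent.Helper98.MH.Basic

/-!
Orthonormal bases of spaces of matrices, and the rank of idempotents.
-/

open Matrix

namespace MH

variable {n : Type*} [Fintype n] [DecidableEq n]

omit [DecidableEq n] in
lemma trace_conj_mul_self_re (x : Matrix n n ℂ) :
    (xᴴ * x).trace = ((∑ i, ∑ j, ‖x j i‖ ^ 2 : ℝ) : ℂ) := by
  rw [Matrix.trace]
  push_cast
  apply Finset.sum_congr rfl
  intro i _
  rw [Matrix.diag_apply, Matrix.mul_apply]
  apply Finset.sum_congr rfl
  intro j _
  rw [Matrix.conjTranspose_apply]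
  have := Complex.conj_mul' (x j i)
  rw [← this]; rfl

omit [DecidableEq n] in
lemma trace_nonneg (x : Matrix n n ℂ) : 0 ≤ (xᴴ * x).trace.re := by
  rw [trace_conj_mul_self_re, Complex.ofReal_re]
  positivity

omit [DecidableEq n] in
lemma trace_im (x : Matrix n n ℂ) : (xᴴ * x).trace.im = 0 := by
  rw [trace_conj_mul_self_re, Complex.ofReal_im]

omit [DecidableEq n] in
lemma eq_zero_of_trace {x : Matrix n n ℂ} (h : (xᴴ * x).trace.re = 0) : x = 0 := by
  rw [trace_conj_mul_self_re, Complex.ofReal_re] at h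
  ext j i
  rw [Finset.sum_eq_zero_iff_of_nonneg (fun i _ => by positivity)] at h
  have h1 := h i (Finset.mem_univ _)
  rw [Finset.sum_eq_zero_iff_of_nonneg (fun i _ => by positivity)] at h1
  have h2 := h1 j (Finset.mem_univ _)
  rw [Matrix.zero_apply]
  exact norm_eq_zero.mp (by simpa using h2)

omit [DecidableEq n] in
lemma eq_zero_of_mul {x : Matrix n n ℂ} (h : xᴴ * x = 0) : x = 0 := by
  apply eq_zero_of_trace
  rw [h]; simp

omit [DecidableEq n] in
lemma trace_pos {x : Matrix n n ℂ} (h : x ≠ 0) : 0 < (xᴴ * x).trace.re := by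
  rcases lt_or_eq_of_le (trace_nonneg x) with h1 | h1
  · exact h1
  · exact absurd (eq_zero_of_trace h1.symm) h

/-- Every space of matrices has a basis that is orthonormal for the trace form. -/
theorem exists_onb98 (M : Submodule ℂ (Matrix n n ℂ)) :
    ∃ u : Fin (Module.finrank ℂ M) → Matrix n n ℂ, (∀ i, u i ∈ M) ∧
      (∀ i j, ((u i)ᴴ * u j).trace = if i = j then 1 else 0) ∧
      ∀ m ∈ M, m = ∑ i, ((u i)ᴴ * m).trace • u i := by
  classical
  let e : Matrix n n ℂ ≃ₗ[ℂ] EuclideanSpace ℂ (n × n) :=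
    { toFun := fun x => WithLp.toLp 2 (fun p => x p.1 p.2)
      invFun := fun v => Matrix.of (fun i j => WithLp.ofLp v (i, j))
      map_add' := by intro x y; ext p; simp
      map_smul' := by intro c x; ext p; simp
      left_inv := by intro x; ext i j; simp
      right_inv := by intro v; ext p; simp }
  have hin : ∀ x y : Matrix n n ℂ, inner ℂ (e x) (e y) = (xᴴ * y).trace := by
    intro x y
    have : inner ℂ (e x) (e y) = ∑ p : n × n, y p.1 p.2 * star (x p.1 p.2) := by
      rw [PiLp.inner_apply]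
      rfl
    rw [this, Matrix.trace, Fintype.sum_prod_type, Finset.sum_comm]
    apply Finset.sum_congr rfl
    intro i _
    rw [Matrix.diag_apply, Matrix.mul_apply]
    apply Finset.sum_congr rfl
    intro j _
    rw [Matrix.conjTranspose_apply, mul_comm]
  let M' : Submodule ℂ (EuclideanSpace ℂ (n × n)) := M.map e.toLinearMap
  have hfr : Module.finrank ℂ M' = Module.finrank ℂ M :=
    LinearEquiv.finrank_map_eq e M
  let b := (stdOrthonormalBasis ℂ M').reindex (finCongr hfr)
  have hbm : ∀ i, ((b i : M') : EuclideanSpace ℂ (n × n)) ∈ M' := fun i => (b i).2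
  have hmem : ∀ i, ∃ x ∈ M, e x = ((b i : M') : EuclideanSpace ℂ (n × n)) := by
    intro i
    obtain ⟨x, hx, hxe⟩ := Submodule.mem_map.mp (hbm i)
    exact ⟨x, hx, hxe⟩
  choose u hu hue using hmem
  have hon := b.orthonormal
  rw [orthonormal_iff_ite] at hon
  refine ⟨u, hu, ?_, ?_⟩
  · intro i j
    rw [← hin, hue, hue]
    have := hon i j
    rw [Submodule.coe_inner] at this
    exact this
  · intro m hm
    have hm' : e m ∈ M' := Submodule.mem_map.mpr ⟨m, hm, rfl⟩
    have h1 := b.sum_repr' (⟨e m, hm'⟩ : M')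
    have h2 := congrArg (fun v : M' => (v : EuclideanSpace ℂ (n × n))) h1
    simp only [Submodule.coe_inner, AddSubmonoidClass.coe_finset_sum, Submodule.coe_smul] at h2
    apply e.injective
    rw [map_sum]
    simp only [map_smul]
    rw [← h2]
    apply Finset.sum_congr rfl
    intro i _
    rw [← hin, hue]

/-- The rank of an idempotent matrix is its trace. -/
lemma rank_eq_trace {e : Matrix n n ℂ} (he : e * e = e) : (e.rank : ℂ) = e.trace := by
  classical
  have h1 : LinearMap.IsProj (LinearMap.range (Matrix.toLin' e)) (Matrix.toLin' e) := by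
    constructor
    · intro v; exact LinearMap.mem_range_self _ v
    · rintro v ⟨w, rfl⟩
      rw [← LinearMap.comp_apply, ← Matrix.toLin'_mul, he]
  have h2 := h1.trace
  rw [Matrix.trace_toLin'_eq] at h2
  rw [h2, Matrix.rank_eq_finrank_range_toLin e (Pi.basisFun ℂ n) (Pi.basisFun ℂ n),
    Matrix.toLin_eq_toLin']

/-- The elements `m` of `M` with `mᴴ * m'` a multiple of the projection `e`: a basis. -/
theorem exists_onb_rel98 {e : Matrix n n ℂ} (hee : e * e = e) (hes : eᴴ = e) (he0 : e ≠ 0)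
    (M : Submodule ℂ (Matrix n n ℂ)) (hM : ∀ m ∈ M, m * e = m)
    (hMM : ∀ m ∈ M, ∀ m' ∈ M, ∃ c : ℂ, mᴴ * m' = c • e) :
    ∃ u : Fin (Module.finrank ℂ M) → Matrix n n ℂ, (∀ i, u i ∈ M) ∧
      (∀ i j, (u i)ᴴ * u j = if i = j then e else 0) ∧
      (∀ m ∈ M, (∑ i, u i * (u i)ᴴ) * m = m) ∧
      ((∑ i, u i * (u i)ᴴ).trace = Module.finrank ℂ M * e.trace) := by
  classical
  have htr : 0 < e.trace.re := by
    have := trace_pos he0
    rwa [hes, hee] at this
  have htrim : e.trace.im = 0 := by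
    have := trace_im e
    rwa [hes, hee] at this
  set t : ℝ := e.trace.re with ht
  have htr' : e.trace = (t : ℂ) := by
    apply Complex.ext
    · rw [Complex.ofReal_re]
    · rw [Complex.ofReal_im, htrim]
  have ht0 : (t : ℂ) ≠ 0 := by exact_mod_cast htr.ne'
  obtain ⟨u, hu, huu, hsum⟩ := exists_onb98 M
  have hsq : ((Real.sqrt t : ℝ) : ℂ) * (Real.sqrt t : ℝ) = t := by
    rw [← Complex.ofReal_mul, Real.mul_self_sqrt htr.le]
  have hsq0 : ((Real.sqrt t : ℝ) : ℂ) ≠ 0 := by
    intro h; rw [h, mul_zero] at hsq; exact ht0 hsq.symm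
  have huue : ∀ i j, (u i)ᴴ * u j = if i = j then ((t : ℂ)⁻¹) • e else 0 := by
    intro i j
    obtain ⟨c, hc⟩ := hMM _ (hu i) _ (hu j)
    have h1 := huu i j
    rw [hc, Matrix.trace_smul, smul_eq_mul, htr'] at h1
    rw [hc]
    split_ifs with hij
    · rw [if_pos hij] at h1
      congr 1
      field_simp
      exact h1
    · rw [if_neg hij] at h1
      rcases mul_eq_zero.mp h1 with h2 | h2
      · rw [h2, zero_smul]
      · exact absurd h2 ht0
  have hstar : ∀ i, (((Real.sqrt t : ℝ) : ℂ) • u i)ᴴ = ((Real.sqrt t : ℝ) : ℂ) • (u i)ᴴ := by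
    intro i
    rw [conjTranspose_smul]
    congr 1
    exact Complex.conj_ofReal _
  refine ⟨fun i => ((Real.sqrt t : ℝ) : ℂ) • u i, fun i => M.smul_mem _ (hu i), ?_, ?_, ?_⟩
  · intro i j
    rw [hstar, smul_mul_smul_comm, hsq, huue]
    split_ifs with hij
    · rw [smul_smul, mul_inv_cancel₀ ht0, one_smul]
    · rw [smul_zero]
  · intro m hm
    have h1 : ∀ j, (∑ i, (((Real.sqrt t : ℝ) : ℂ) • u i) * (((Real.sqrt t : ℝ) : ℂ) • u i)ᴴ) * u j
        = u j := by
      intro j
      rw [Finset.sum_mul, Finset.sum_eq_single j]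
      · rw [hstar, smul_mul_smul_comm, hsq, smul_mul_assoc, mul_assoc, huue, if_pos rfl,
          mul_smul_comm, smul_smul, mul_inv_cancel₀ ht0, one_smul, hM _ (hu j)]
      · intro i _ hij
        rw [hstar, smul_mul_smul_comm, smul_mul_assoc, mul_assoc, huue, if_neg hij, mul_zero,
          smul_zero]
      · intro h'; exact absurd (Finset.mem_univ j) h'
    conv_lhs => rw [hsum m hm]
    rw [Finset.mul_sum]
    conv_rhs => rw [hsum m hm]
    apply Finset.sum_congr rfl
    intro j _
    rw [mul_smul_comm, h1]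
  · rw [Matrix.trace_sum]
    have h1 : ∀ i, ((((Real.sqrt t : ℝ) : ℂ) • u i) * (((Real.sqrt t : ℝ) : ℂ) • u i)ᴴ).trace
        = e.trace := by
      intro i
      rw [hstar, smul_mul_smul_comm, hsq, Matrix.trace_smul, Matrix.trace_mul_comm, huue,
        if_pos rfl, Matrix.trace_smul, smul_smul, mul_inv_cancel₀ ht0, one_smul]
    rw [Finset.sum_congr rfl (fun i _ => h1 i)]
    simp

end MH
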