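import Pool.Agent.Helper98.MH.Idl

/-!
The spectral decomposition of a Hermitian matrix, with projections that are polynomials in the matrix.
-/

open Matrix

namespace MH

variable {n : Type*} [Fintype n] [DecidableEq n]

/-- Every Hermitian matrix has a spectral decomposition whose projections are polynomials in the matrix. -/
theorem exists_spec98 {X : Matrix n n ℂ} (hX : Xᴴ = X) : ∃ (F : ℝ → Matrix n n ℂ) (Λ : Finset ℝ),
    Spec X F Λ ∧ ∀ μ, F μ ∈ Algebra.adjoin ℂ ({X} : Set (Matrix n n ℂ)) := by
  classical
  have hH : X.IsHermitian := hX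
  set d : n → ℝ := hH.eigenvalues with hd
  set U : Matrix n n ℂ := (hH.eigenvectorUnitary : Matrix n n ℂ) with hU
  have hUU : Uᴴ * U = 1 := by
    have := Matrix.mem_unitaryGroup_iff'.1 hH.eigenvectorUnitary.2
    exact this
  have hUU' : U * Uᴴ = 1 := by
    have := Matrix.mem_unitaryGroup_iff.1 hH.eigenvectorUnitary.2
    exact this
  have hsp : X = U * Matrix.diagonal (fun i => (d i : ℂ)) * Uᴴ := by
    have := hH.spectral_theorem
    rw [Unitary.conjStarAlgAut_apply] at this
    exact this
  set Λ : Finset ℝ := Finset.univ.image d with hΛ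
  set F : ℝ → Matrix n n ℂ := fun μ => U * Matrix.diagonal (fun i => if d i = μ then (1 : ℂ) else 0) * Uᴴ with hF
  have hmul : ∀ a b : n → ℂ, U * Matrix.diagonal a * Uᴴ * (U * Matrix.diagonal b * Uᴴ) =
      U * Matrix.diagonal (fun i => a i * b i) * Uᴴ := by
    intro a b
    have : U * Matrix.diagonal a * Uᴴ * (U * Matrix.diagonal b * Uᴴ) =
        U * Matrix.diagonal a * (Uᴴ * U) * Matrix.diagonal b * Uᴴ := by simp only [mul_assoc]
    rw [this, hUU, mul_one, mul_assoc U, Matrix.diagonal_mul_diagonal]
  refine ⟨F, Λ, ⟨?_, ?_, ?_, ?_, ?_⟩, ?_⟩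
  · intro μ
    simp only [hF]
    rw [conjTranspose_mul, conjTranspose_mul, conjTranspose_conjTranspose, Matrix.diagonal_conjTranspose,
      mul_assoc]
    have h1 : (star fun i => if d i = μ then (1 : ℂ) else 0) = fun i => if d i = μ then (1 : ℂ) else 0 := by
      funext i
      rw [Pi.star_apply]
      split_ifs <;> simp
    rw [h1]
  · intro μ ν
    simp only [hF]
    rw [hmul]
    split_ifs with h
    · subst h
      have h1 : (fun i => (if d i = μ then (1 : ℂ) else 0) * if d i = μ then (1 : ℂ) else 0) =
          fun i => if d i = μ then (1 : ℂ) else 0 := by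
        funext i
        split_ifs <;> simp
      rw [h1]
    · have : (fun i => (if d i = μ then (1 : ℂ) else 0) * if d i = ν then (1 : ℂ) else 0) = fun _ => 0 := by
        funext i
        by_cases h1 : d i = μ
        · rw [if_neg (fun h2 => h (h1.symm.trans h2)), mul_zero]
        · rw [if_neg h1, zero_mul]
      rw [this]
      simp
  · intro μ hμ
    simp only [hF]
    have : (fun i => if d i = μ then (1 : ℂ) else 0) = fun _ => 0 := by
      ext i
      rw [if_neg]
      rintro rfl
      exact hμ (Finset.mem_image_of_mem _ (Finset.mem_univ _))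
    rw [this]
    simp
  · simp only [hF]
    rw [← Finset.sum_mul, ← Finset.mul_sum]
    have : ∑ μ ∈ Λ, Matrix.diagonal (fun i => if d i = μ then (1 : ℂ) else 0) = (1 : Matrix n n ℂ) := by
      rw [← Matrix.diagonal_one]
      ext i j
      rw [Matrix.sum_apply]
      by_cases hij : i = j
      · subst hij
        simp only [Matrix.diagonal_apply_eq]
        rw [Finset.sum_ite_eq, if_pos (Finset.mem_image_of_mem _ (Finset.mem_univ _))]
      · simp only [Matrix.diagonal_apply_ne _ hij, Finset.sum_const_zero]
    rw [this, mul_one, hUU']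
  · simp only [hF]
    have h1 : ∀ μ : ℝ, (μ : ℂ) • (U * Matrix.diagonal (fun i => if d i = μ then (1 : ℂ) else 0) * Uᴴ) =
        U * ((μ : ℂ) • Matrix.diagonal (fun i => if d i = μ then (1 : ℂ) else 0)) * Uᴴ := by
      intro μ
      rw [mul_smul_comm, smul_mul_assoc]
    simp_rw [h1]
    rw [← Finset.sum_mul, ← Finset.mul_sum]
    have : ∑ μ ∈ Λ, (μ : ℂ) • Matrix.diagonal (fun i => if d i = μ then (1 : ℂ) else 0) =
        Matrix.diagonal (fun i => (d i : ℂ)) := by
      ext i j
      rw [Matrix.sum_apply]
      by_cases hij : i = j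
      · subst hij
        simp only [Matrix.smul_apply, Matrix.diagonal_apply_eq, smul_eq_mul, mul_ite, mul_one, mul_zero]
        rw [Finset.sum_ite_eq, if_pos (Finset.mem_image_of_mem _ (Finset.mem_univ _))]
      · simp only [Matrix.smul_apply, Matrix.diagonal_apply_ne _ hij, smul_zero, Finset.sum_const_zero]
    rw [this]
    exact hsp
  · intro μ
    -- the polynomial
    let f : (n → ℂ) →ₐ[ℂ] Matrix n n ℂ :=
      AlgHom.ofLinearMap
        { toFun := fun a => U * Matrix.diagonal a * Uᴴ
          map_add' := fun a b => by
            have : Matrix.diagonal (a + b) = Matrix.diagonal a + Matrix.diagonal b := by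
              rw [Matrix.diagonal_add]; rfl
            rw [this, mul_add, add_mul]
          map_smul' := fun c a => by
            rw [RingHom.id_apply, Matrix.diagonal_smul, mul_smul_comm, smul_mul_assoc] }
        (by
          change U * Matrix.diagonal (fun _ => (1 : ℂ)) * Uᴴ = 1
          rw [Matrix.diagonal_one, mul_one, hUU'])
        (fun a b => (hmul a b).symm)
    have hf : ∀ a, f a = U * Matrix.diagonal a * Uᴴ := fun a => rfl
    by_cases hμ : μ ∈ Λ
    · let p : Polynomial ℂ := Lagrange.basis Λ (fun x : ℝ => (x : ℂ)) μ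
      have hinj : Set.InjOn (fun x : ℝ => (x : ℂ)) (Λ : Set ℝ) := fun a _ b _ hab => Complex.ofReal_injective hab
      have hp : ∀ i, p.eval (d i : ℂ) = if d i = μ then 1 else 0 := by
        intro i
        split_ifs with h
        · rw [h]
          exact Lagrange.eval_basis_self hinj hμ
        · exact Lagrange.eval_basis_of_ne (fun h' => h h'.symm)
            (Finset.mem_image_of_mem _ (Finset.mem_univ _))
      have hap : Polynomial.aeval X p = F μ := by
        have h1 : X = f (fun i => (d i : ℂ)) := hsp
        rw [h1, Polynomial.aeval_algHom_apply, hf]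
        congr 2
        congr 1
        ext i
        have h2 : (Polynomial.aeval (fun i => (d i : ℂ)) p : n → ℂ) i = p.eval (d i : ℂ) := by
          have h3 := Polynomial.aeval_algHom_apply (Pi.evalAlgHom ℂ (fun _ : n => ℂ) i) (fun i => (d i : ℂ)) p
          change Polynomial.aeval (d i : ℂ) p = (Polynomial.aeval (fun i => (d i : ℂ)) p : n → ℂ) i at h3
          rw [← h3, Polynomial.coe_aeval_eq_eval]
        rw [h2, hp]
      rw [← hap]
      exact Polynomial.aeval_mem_adjoin_singleton ℂ X
    · have : F μ = 0 := by
        simp only [hF]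
        have : (fun i => if d i = μ then (1 : ℂ) else 0) = fun _ => 0 := by
          ext i
          rw [if_neg]
          rintro rfl
          exact hμ (Finset.mem_image_of_mem _ (Finset.mem_univ _))
        rw [this]
        simp
      rw [this]
      exact zero_mem _

end MH
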