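import Pool.Agent.Helper98.MH.Cases

/-!
Case I without a vector orthogonal to `e` and `τ e`: a bound for the rank of `e`.
-/

open Matrix

namespace MH

variable {n : Type*} [Fintype n] [DecidableEq n]
variable {h : Matrix n n ℂ} {E : ℝ → Matrix n n ℂ} {Λ : Finset ℝ}
variable {τ : Matrix n n ℂ →ₗ[ℂ] Matrix n n ℂ} {L : Submodule ℂ (Matrix n n ℂ)}

lemma rank_add_le98 (A B : Matrix n n ℂ) : (A + B).rank ≤ A.rank + B.rank := by
  have h0 : ∀ C : Matrix n n ℂ, C.rank = Module.finrank ℂ (LinearMap.range (Matrix.toLin' C)) := by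
    intro C
    rw [Matrix.rank_eq_finrank_range_toLin C (Pi.basisFun ℂ n) (Pi.basisFun ℂ n),
      Matrix.toLin_eq_toLin']
  rw [h0, h0, h0]
  have h1 : LinearMap.range (Matrix.toLin' (A + B)) ≤
      LinearMap.range (Matrix.toLin' A) ⊔ LinearMap.range (Matrix.toLin' B) := by
    rintro v ⟨w, rfl⟩
    rw [map_add, LinearMap.add_apply]
    exact Submodule.add_mem_sup (LinearMap.mem_range_self _ _) (LinearMap.mem_range_self _ _)
  exact (Submodule.finrank_mono h1).trans (Submodule.finrank_add_le_finrank_add_finrank _ _)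

namespace Dat

variable (D : Dat τ L h E Λ) {e : Matrix n n ℂ} (P : MinP L E e)
include D

lemma rank_neg (ρ : ℝ) : (E (-ρ)).rank = (E ρ).rank := by
  have h1 : ∀ μ, E μ * E μ = E μ := fun μ => by rw [D.spec.mul, if_pos rfl]
  have h2 : ((E (-ρ)).rank : ℂ) = ((E ρ).rank : ℂ) := by
    rw [rank_eq_trace (h1 _), rank_eq_trace (h1 _), ← D.tauE, D.inv.tr]
  exact_mod_cast h2

include P

/-- Two-dimensional case without orthogonal vector. -/
theorem rank_e_le (hno : ∀ u ∈ NN L E e, e * u = 0 → τ e * u = 0 → u = 0)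
    {u : Matrix n n ℂ} (hu : u ∈ NN L E e) (hu0 : u ≠ 0) (heu : e * u = 0)
    {z : Matrix n n ℂ} {ρ : ℝ} (hz : z ∈ MM τ L E e ρ) (hz0 : z ≠ 0) :
    e.rank ≤ 2 * (E ρ).rank := by
  classical
  obtain ⟨hzX, hze, hzρ⟩ := hz
  obtain ⟨t, ht⟩ := D.NN_rel P hu hu
  have ht0 : t ≠ 0 := by
    intro h0
    rw [h0, zero_smul] at ht
    exact hu0 (eq_zero_of_mul ht)
  have huA : uᴴ ∈ AA L E := D.AA_star hu.1
  have heuH : e * uᴴ = uᴴ := D.e_left_star P hu.2
  have hκ := D.kap P hu heu hzX hze hzX hze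
  set w := zᴴ * z with hw
  have hew : w * e = w := by rw [hw, mul_assoc, hze]
  have hwe : e * w = w := by rw [hw, ← mul_assoc, D.e_left_star P hze]
  have hw0 : w ≠ 0 := fun h0 => hz0 (eq_zero_of_mul h0)
  obtain ⟨c, hc⟩ := P.min (uᴴ * (τ w * τ u - u * w)) (mul_mem huA (D.KK_le _ hκ))
  -- the relation
  have hrel : uᴴ * (τ w * τ u) * e - t • w = c • e := by
    rw [← hc]
    have e1 : e * (uᴴ * (τ w * τ u - u * w)) * e
        = (e * uᴴ) * (τ w * τ u) * e - (e * uᴴ) * (u * w) * e := by noncomm_ring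
    rw [e1, heuH]
    congr 1
    rw [← mul_assoc, ht, smul_mul_assoc, hwe, smul_mul_assoc, hew]
  by_cases hc0 : c = 0
  · -- contradiction
    exfalso
    rw [hc0, zero_smul, sub_eq_zero] at hrel
    have hτuH : τ e * τ u = τ u := by rw [← D.inv.mul, hu.2]
    have hτw1 : τ e * τ w = τ w := by rw [← D.inv.mul, hew]
    have hτw2 : τ w * τ e = τ w := by rw [← D.inv.mul, hwe]
    set p := τ e * u with hp
    have hpN : p ∈ NN L E e := ⟨mul_mem (D.AA_tau P.mem) hu.1, by rw [hp, mul_assoc, hu.2]⟩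
    have hpτ : τ e * p = p := by rw [hp, ← mul_assoc, D.tau_idem P]
    have hpH : pᴴ = uᴴ * τ e := by rw [hp, conjTranspose_mul, D.tau_star_e P]
    have hτp : τ p = τ u * e := by rw [hp, D.inv.mul, D.inv.inv]
    obtain ⟨γ, hγ⟩ := (D.tau_minP P).min (τ u * uᴴ) (mul_mem (D.AA_tau hu.1) huA)
    have hγ' : τ p * pᴴ = γ • τ e := by
      rw [← hγ, hτp, hpH]
      calc τ u * e * (uᴴ * τ e) = τ u * (e * uᴴ) * τ e := by simp only [mul_assoc]
        _ = τ u * uᴴ * τ e := by rw [heuH]
        _ = τ e * (τ u * uᴴ) * τ e := by rw [← mul_assoc (τ e), hτuH]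
    -- trace: γ = t
    have hγt : γ = t := by
      have h1 : (uᴴ * (τ w * τ u) * e).trace = γ * w.trace := by
        have : (uᴴ * (τ w * τ u) * e).trace = (τ w * (τ e * (τ u * uᴴ) * τ e)).trace := by
          rw [Matrix.trace_mul_comm (uᴴ * (τ w * τ u)) e]
          have e1 : e * (uᴴ * (τ w * τ u)) = uᴴ * (τ w * τ u) := by
            rw [← mul_assoc, heuH]
          rw [e1, Matrix.trace_mul_comm]
          have e2 : τ w * (τ e * (τ u * uᴴ) * τ e) = (τ w * (τ e * τ u)) * uᴴ * τ e := by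
            simp only [mul_assoc]
          rw [e2, hτuH, Matrix.trace_mul_comm _ (τ e)]
          have e3 : τ e * (τ w * τ u * uᴴ) = (τ e * τ w) * τ u * uᴴ := by simp only [mul_assoc]
          rw [e3, hτw1]
        rw [this, hγ, mul_smul_comm, hτw2, Matrix.trace_smul, smul_eq_mul, D.inv.tr]
      rw [hrel, Matrix.trace_smul, smul_eq_mul] at h1
      have hwt : w.trace ≠ 0 := by
        intro h0
        have := trace_pos hz0
        rw [← hw, h0] at this
        simp at this
      exact (mul_right_cancel₀ hwt h1).symm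
    rw [hγt] at hγ'
    have hp0 : p ≠ 0 := by
      intro h0
      rw [h0] at hγ'
      simp only [map_zero, zero_mul] at hγ'
      rcases smul_eq_zero.mp hγ'.symm with h1 | h1
      · exact ht0 h1
      · exact D.tau_ne P h1
    -- τ p is a multiple of p
    have hτpN : τ p ∈ NN L E e := ⟨D.AA_tau hpN.1, by rw [hτp, mul_assoc, P.idem]⟩
    have hτpτ : τ e * τ p = τ p := by rw [hτp, ← mul_assoc, hτuH]
    obtain ⟨β, hβ0, hβ, hτpeq, θ', hθ'⟩ := D.line P hpN hpτ hp0 hτpN hτpτ
    have hθ : τ p = (β⁻¹ * θ') • p := by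
      rw [hτpeq, hθ', mul_smul_comm, hpN.2, smul_smul]
    set θ := β⁻¹ * θ' with hθdef
    have hθ2 : θ * θ = 1 := by
      have h1 : τ (τ p) = p := D.inv.inv p
      rw [hθ, map_smul, hθ, smul_smul] at h1
      have h2 : (θ * θ - 1) • p = 0 := by rw [sub_smul, h1, one_smul, sub_self]
      rcases smul_eq_zero.mp h2 with h3 | h3
      · exact sub_eq_zero.mp h3
      · exact absurd h3 hp0
    have htθβ : t = θ * β := by
      have h1 : t • τ e = (θ * β) • τ e := by
        rw [← hγ', hθ, smul_mul_assoc, hβ, smul_smul]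
      have h2 : (t - θ * β) • τ e = 0 := by rw [sub_smul, h1, sub_self]
      rcases smul_eq_zero.mp h2 with h3 | h3
      · exact sub_eq_zero.mp h3
      · exact absurd h3 (D.tau_ne P)
    -- positivity
    have htr_e := trace_pos P.ne
    have htr_ei := trace_im e
    rw [P.star, P.idem] at htr_e htr_ei
    have htu := trace_pos hu0
    have htui := trace_im u
    rw [ht, Matrix.trace_smul, smul_eq_mul] at htu htui
    rw [Complex.mul_re, htr_ei, mul_zero, sub_zero] at htu
    rw [Complex.mul_im, htr_ei, mul_zero, zero_add] at htui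
    have htim : t.im = 0 := by
      rcases mul_eq_zero.mp htui with h1 | h1
      · exact h1
      · exact absurd h1 htr_e.ne'
    have htre : 0 < t.re := (pos_iff_pos_of_mul_pos htu).mpr htr_e
    have hβtr : (pᴴ * p).trace = β * e.trace := by
      rw [Matrix.trace_mul_comm, hβ, Matrix.trace_smul, smul_eq_mul, D.inv.tr]
    have hpp := trace_pos hp0
    have hppi := trace_im p
    rw [hβtr] at hpp hppi
    rw [Complex.mul_re, htr_ei, mul_zero, sub_zero] at hpp
    rw [Complex.mul_im, htr_ei, mul_zero, zero_add] at hppi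
    have hβim : β.im = 0 := by
      rcases mul_eq_zero.mp hppi with h1 | h1
      · exact h1
      · exact absurd h1 htr_e.ne'
    have hβre : 0 < β.re := (pos_iff_pos_of_mul_pos hpp).mpr htr_e
    have hθ1 : θ = 1 := by
      have h1 : (θ - 1) * (θ + 1) = 0 := by ring_nf; rw [sq, hθ2]; ring
      rcases mul_eq_zero.mp h1 with h2 | h2
      · exact sub_eq_zero.mp h2
      · exfalso
        have h3 : θ = -1 := eq_neg_of_add_eq_zero_left h2
        rw [h3] at htθβ
        have h4 := congrArg Complex.re htθβ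
        rw [neg_one_mul, Complex.neg_re] at h4
        linarith
    have htβ : t = β := by rw [htθβ, hθ1, one_mul]
    -- u = p
    have hup : u = p := by
      have h1 : ((u - p)ᴴ * (u - p)).trace = 0 := by
        have e1 : uᴴ * p = pᴴ * p := by
          rw [hpH, mul_assoc, hpτ]
        have e2 : pᴴ * u = pᴴ * p := by
          have : pᴴ * p = (uᴴ * τ e) * (τ e * u) := by rw [hpH]
          rw [this, hpH, ← mul_assoc, mul_assoc uᴴ (τ e) (τ e), D.tau_idem P]
        have e3 : (u - p)ᴴ * (u - p) = uᴴ * u - pᴴ * p := by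
          rw [conjTranspose_sub, sub_mul, mul_sub, mul_sub, e1, e2]
          abel
        rw [e3, Matrix.trace_sub, ht, Matrix.trace_smul, smul_eq_mul, hβtr, htβ, sub_self]
      have h2 := eq_zero_of_trace (x := u - p) (by rw [h1]; simp)
      exact sub_eq_zero.mp h2
    have hτu : τ u = u := by
      rw [hup, hθ, hθ1, one_smul]
    have hτeu : τ e * u = u := by rw [← hp, ← hup]
    have heτ : e * τ e = 0 := by
      have h1 : e * (p * pᴴ) = β • (e * τ e) := by rw [hβ, mul_smul_comm]
      rw [← hup, ← mul_assoc, heu, zero_mul] at h1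
      rcases smul_eq_zero.mp h1.symm with h2 | h2
      · exact absurd h2 hβ0
      · exact h2
    have hτe : τ e * e = 0 := by
      have := congrArg conjTranspose heτ
      rwa [conjTranspose_mul, P.star, D.tau_star_e P, conjTranspose_zero] at this
    -- K e is in the line of e
    have hKe : ∀ k ∈ KK L E, ∃ α : ℂ, k * e = α • e := by
      intro k hk
      have hkA := D.KK_le k hk
      obtain ⟨α, hα⟩ := P.min k hkA
      refine ⟨α, ?_⟩
      have hyN : τ e * k * e ∈ NN L E e :=
        ⟨mul_mem (mul_mem (D.AA_tau P.mem) hkA) P.mem, by rw [mul_assoc, P.idem]⟩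
      have hyτ : τ e * (τ e * k * e) = τ e * k * e := by
        rw [← mul_assoc, ← mul_assoc, D.tau_idem P]
      obtain ⟨s, hs0, _, hyeq, c', hc'⟩ := D.line P hu hτeu hu0 hyN hyτ
      have h1 : τ e * k * e = (s⁻¹ * c') • u := by
        rw [hyeq, hc', mul_smul_comm, hu.2, smul_smul]
      have h2 : τ (τ e * k * e) = -(τ e * k * e) := by
        rw [D.inv.mul, D.inv.mul, D.inv.inv, D.KK_tau hk]
        noncomm_ring
      have h3 : τ e * k * e = 0 := by
        have h4 : τ (τ e * k * e) = τ e * k * e := by rw [h1, map_smul, hτu]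
        rw [h2] at h4
        have h5 : (2 : ℂ) • (τ e * k * e) = 0 := by
          rw [two_smul]; nth_rewrite 1 [← h4]; abel
        rcases smul_eq_zero.mp h5 with h6 | h6
        · exact absurd h6 two_ne_zero
        · exact h6
      have h4 : k * e - α • e = 0 := by
        apply hno
        · exact (NN L E e).sub_mem ⟨mul_mem hkA P.mem, by rw [mul_assoc, P.idem]⟩
            ((NN L E e).smul_mem _ (D.e_mem_NN P))
        · rw [mul_sub, ← mul_assoc, hα, mul_smul_comm, P.idem, sub_self]
        · rw [mul_sub, ← mul_assoc, h3, mul_smul_comm, hτe, smul_zero, sub_zero]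
      exact sub_eq_zero.mp h4
    have hAe : ∀ a ∈ AA L E, ∃ α : ℂ, a * e = α • e := by
      intro a ha
      induction ha using NonUnitalAlgebra.adjoin_induction with
      | mem k hk => exact hKe k hk
      | add x y _ _ hx hy =>
        obtain ⟨α, hα⟩ := hx
        obtain ⟨α', hα'⟩ := hy
        exact ⟨α + α', by rw [add_mul, hα, hα', add_smul]⟩
      | zero => exact ⟨0, by simp⟩
      | mul x y _ _ hx hy =>
        obtain ⟨α, hα⟩ := hx
        obtain ⟨α', hα'⟩ := hy
        exact ⟨α' * α, by rw [mul_assoc, hα', mul_smul_comm, hα, smul_smul]⟩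
      | smul r x _ hx =>
        obtain ⟨α, hα⟩ := hx
        exact ⟨r * α, by rw [smul_mul_assoc, hα, smul_smul]⟩
    obtain ⟨α, hα⟩ := hAe u hu.1
    rw [hu.2] at hα
    rw [hα, mul_smul_comm, P.idem] at heu
    exact hu0 (by rw [hα]; exact heu)
  · -- rank estimate
    have h1 : e = c⁻¹ • (uᴴ * (τ w * τ u) * e) + (-(c⁻¹ * t)) • w := by
      have h2 : c⁻¹ • (c • e) = e := by rw [smul_smul, inv_mul_cancel₀ hc0, one_smul]
      rw [← hrel] at h2
      conv_lhs => rw [← h2]
      rw [smul_sub, smul_smul, neg_smul, sub_eq_add_neg]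
    have hτzE : τ z = τ z * E (-ρ) := by
      have := congrArg τ hzρ
      rw [D.inv.mul, D.tauE] at this
      exact this.symm
    have hr1 : (c⁻¹ • (uᴴ * (τ w * τ u) * e)).rank ≤ (E ρ).rank := by
      rw [← D.rank_neg ρ]
      have e1 : c⁻¹ • (uᴴ * (τ w * τ u) * e) =
          (c⁻¹ • (uᴴ * τ z)) * E (-ρ) * (τ zᴴ * τ u * e) := by
        rw [hw, D.inv.mul, smul_mul_assoc, smul_mul_assoc]
        congr 1
        conv_lhs => rw [hτzE]
        simp only [mul_assoc]
      rw [e1]
      exact (Matrix.rank_mul_le_left _ _).trans (Matrix.rank_mul_le_right _ _)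
    have hr2 : ((-(c⁻¹ * t)) • w).rank ≤ (E ρ).rank := by
      have e1 : (-(c⁻¹ * t)) • w = ((-(c⁻¹ * t)) • zᴴ) * E ρ * z := by
        rw [hw, smul_mul_assoc, smul_mul_assoc, mul_assoc, hzρ]
      rw [e1]
      exact (Matrix.rank_mul_le_left _ _).trans (Matrix.rank_mul_le_right _ _)
    calc e.rank = (c⁻¹ • (uᴴ * (τ w * τ u) * e) + (-(c⁻¹ * t)) • w).rank := by rw [← h1]
      _ ≤ (c⁻¹ • (uᴴ * (τ w * τ u) * e)).rank + ((-(c⁻¹ * t)) • w).rank := rank_add_le98 _ _
      _ ≤ 2 * (E ρ).rank := by omega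

end Dat

end MH
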