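import Pool.Agent.Helper98.MH.Spc
import Pool.Agent.Helper21.MH.Bound
import Pool.Agent.Helper98.MH.Two

/-!
The case of an element `h` with components in two commuting ideals, without a condition on the number of
eigenvalues: the dimension of the kernel is at most the square of the dimension of the positive part.
-/

set_option linter.unusedSectionVars false

open Matrix

namespace MH

lemma num_two {b s X X' Y' K : ℕ} (h1 : X * K = X' * Y') (hK : 1 ≤ K) (hs : 2 ≤ s) (h2 : K + X' + Y' ≤ s)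
    (h3 : b ≤ X + 2 * K) : b ≤ s ^ 2 := by
  have h4 : X ≤ X' * Y' := by
    rw [← h1]
    exact Nat.le_mul_of_pos_right _ hK
  have h5 : (K + X' + Y') ^ 2 ≤ s ^ 2 := Nat.pow_le_pow_left h2 2
  rcases Nat.eq_zero_or_pos (X' + Y') with h6 | h6
  · have h7 : X' = 0 := by omega
    subst h7
    rw [zero_mul] at h4
    rcases Nat.lt_or_ge K 2 with h8 | h8
    · have h9 : 2 ^ 2 ≤ s ^ 2 := Nat.pow_le_pow_left hs 2
      omega
    · have h9 : K ^ 2 ≤ s ^ 2 := Nat.pow_le_pow_left (by omega) 2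
      have h10 : 2 * K ≤ K ^ 2 := by nlinarith
      omega
  · have h7 : X' * Y' + 2 * K ≤ (K + X' + Y') ^ 2 := by
      have h8 : 2 * K * 1 ≤ 2 * K * (X' + Y') := Nat.mul_le_mul_left _ h6
      nlinarith [Nat.zero_le (K ^ 2), Nat.zero_le (X' ^ 2), Nat.zero_le (Y' ^ 2), Nat.zero_le (X' * Y')]
    omega

variable {n : Type*} [Fintype n] [DecidableEq n]
variable {h : Matrix n n ℂ} {E : ℝ → Matrix n n ℂ} {Λ : Finset ℝ}
variable {τ : Matrix n n ℂ →ₗ[ℂ] Matrix n n ℂ} {L : Submodule ℂ (Matrix n n ℂ)}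

lemma prod_comm98 {A B A' B' : Matrix n n ℂ} (h : B * A' = A' * B) : A * B * (A' * B') = A * A' * (B * B') := by
  have : A * B * (A' * B') = A * (B * A') * B' := by simp only [mul_assoc]
  rw [this, h]
  simp only [mul_assoc]

namespace Dat

variable (D : Dat τ L h E Λ)
include D

/-- If `h` has components in an ideal and in its complement, then the dimension of the kernel of `h` is at most the
square of the dimension of the positive part. -/
theorem two_ideals3 {J : Submodule ℂ (Matrix n n ℂ)} (hJ : IsI L J) (hy : ∃ y ∈ J, (hᴴ * y).trace ≠ 0)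
    (hJh : h ∉ J) (hs2 : 2 ≤ (Pp E Λ).rank) : (E 0).rank ≤ (Pp E Λ).rank ^ 2 := by
  classical
  have S := D.spec
  have hL := D.isI
  obtain ⟨X, hX, hX'⟩ := decomp (I := J) h
  set Y := h - X with hY
  have hYp : Y ∈ pp L J := ⟨L.sub_mem D.mem (hJ.le hX), hX'⟩
  have hP := hJ.perp hL
  have hh : h = X + Y := by rw [hY]; abel
  have hXs : Xᴴ = X := by
    have h1 : h = Xᴴ + Yᴴ := by
      conv_lhs => rw [← S.hh, hh, conjTranspose_add]
    have h2 : X - Xᴴ = Yᴴ - Y := by
      have : X + Y = Xᴴ + Yᴴ := by rw [← hh, ← h1]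
      have h3 : X - Xᴴ - (Yᴴ - Y) = (X + Y) - (Xᴴ + Yᴴ) := by abel
      rw [this, sub_self] at h3
      exact sub_eq_zero.mp h3
    have h3 : X - Xᴴ ∈ J := J.sub_mem hX (hJ.st X hX)
    have h4 : X - Xᴴ ∈ pp L J := by rw [h2]; exact (pp L J).sub_mem (hP.st Y hYp) hYp
    exact (sub_eq_zero.mp (IsI.disj h3 h4)).symm
  have hYs : Yᴴ = Y := by rw [hY, conjTranspose_sub, S.hh, hXs]
  have hX0 : X ≠ 0 := by
    rintro rfl
    obtain ⟨y, hy, hy'⟩ := hy
    apply hy'
    have h1 := hX' y hy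
    rw [hY, sub_zero] at h1
    rw [star_tr, h1, star_zero]
  have hY0 : Y ≠ 0 := by
    intro h0
    apply hJh
    rw [hh, h0, add_zero]
    exact hX
  obtain ⟨F, ΛX, SX, hFX⟩ := exists_spec98 hXs
  obtain ⟨G, ΛY, SY, hGY⟩ := exists_spec98 hYs
  have DX : Dat τ L X F ΛX := ⟨D.inv, SX, D.sk, D.br, D.st, D.irr, hJ.le hX⟩
  have DY : Dat τ L Y G ΛY := ⟨D.inv, SY, D.sk, D.br, D.st, D.irr, hYp.1⟩
  have hFJ : ∀ a, F a ∈ Algebra.adjoin ℂ (J : Set (Matrix n n ℂ)) := fun a =>
    Algebra.adjoin_mono (Set.singleton_subset_iff.2 hX) (hFX a)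
  have hGJ : ∀ c, G c ∈ Algebra.adjoin ℂ (pp L J : Set (Matrix n n ℂ)) := fun c =>
    Algebra.adjoin_mono (Set.singleton_subset_iff.2 hYp) (hGY c)
  have AY : Y ∈ Algebra.adjoin ℂ (pp L J : Set (Matrix n n ℂ)) := Algebra.subset_adjoin hYp
  -- eigenvalues of the products
  have hM : ∀ a c, h * (F a * G c) = ((a : ℂ) + c) • (F a * G c) := by
    intro a c
    have e1 : F a * Y = Y * F a := adj_comm2 hJ hL (hFJ a) AY
    have e2 : h * (F a * G c) = X * F a * G c + F a * (Y * G c) := by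
      rw [hh, add_mul, ← mul_assoc, ← mul_assoc Y, ← e1, mul_assoc (F a) Y]
    rw [e2, SX.h_mul, SY.h_mul, smul_mul_assoc, mul_smul_comm, add_smul]
  have hz : ∀ (ν a c : ℝ), ν ≠ a + c → E ν * (F a * G c) = 0 := by
    intro ν a c hne
    have e1 : E ν * h * (F a * G c) = (ν : ℂ) • (E ν * (F a * G c)) := by rw [S.mul_h, smul_mul_assoc]
    have e2 : E ν * h * (F a * G c) = ((a : ℂ) + c) • (E ν * (F a * G c)) := by
      rw [mul_assoc, hM, mul_smul_comm]
    rw [e1] at e2
    have e3 : ((ν : ℂ) - (a + c)) • (E ν * (F a * G c)) = 0 := by rw [sub_smul, e2, sub_self]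
    refine (smul_eq_zero.1 e3).resolve_left ?_
    intro h0
    apply hne
    have : (ν : ℂ) = ((a + c : ℝ) : ℂ) := by
      push_cast
      exact sub_eq_zero.1 h0
    exact_mod_cast this
  have hzs : ∀ (ν : ℝ) (A C : Finset ℝ), (∀ a ∈ A, ∀ c ∈ C, ν ≠ a + c) →
      E ν * ((∑ a ∈ A, F a) * ∑ c ∈ C, G c) = 0 := by
    intro ν A C hne
    rw [Finset.sum_mul_sum, Finset.mul_sum]
    refine Finset.sum_eq_zero fun a ha => ?_
    rw [Finset.mul_sum]
    exact Finset.sum_eq_zero fun c hc => hz ν a c (hne a ha c hc)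
  have f0 : ∀ H : ℝ → Matrix n n ℂ, H 0 = ∑ a ∈ ({0} : Finset ℝ), H a := fun H => by rw [Finset.sum_singleton]
  -- the parts of X and Y
  set Ap := Pp F ΛX with hAp
  set Am := Qn F ΛX with hAm
  set Bp := Pp G ΛY with hBp
  set Bm := Qn G ΛY with hBm
  have oneA : Ap + F 0 + Am = 1 := SX.one_eq
  have oneB : Bp + G 0 + Bm = 1 := SY.one_eq
  have memAp : Ap ∈ Algebra.adjoin ℂ (J : Set (Matrix n n ℂ)) := sum_mem fun a _ => hFJ a
  have memAm : Am ∈ Algebra.adjoin ℂ (J : Set (Matrix n n ℂ)) := sum_mem fun a _ => hFJ a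
  have memBp : Bp ∈ Algebra.adjoin ℂ (pp L J : Set (Matrix n n ℂ)) := sum_mem fun a _ => hGJ a
  have memBm : Bm ∈ Algebra.adjoin ℂ (pp L J : Set (Matrix n n ℂ)) := sum_mem fun a _ => hGJ a
  have iAp : Ap * Ap = Ap := SX.sum_mul_sum _
  have iAm : Am * Am = Am := SX.sum_mul_sum _
  have iBp : Bp * Bp = Bp := SY.sum_mul_sum _
  have iBm : Bm * Bm = Bm := SY.sum_mul_sum _
  have iA0 : F 0 * F 0 = F 0 := by rw [SX.mul, if_pos rfl]
  have iB0 : G 0 * G 0 = G 0 := by rw [SY.mul, if_pos rfl]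
  have pA1 : Ap * F 0 = 0 := by
    rw [hAp, Pp, Finset.sum_mul]
    refine Finset.sum_eq_zero fun a ha => ?_
    rw [SX.mul, if_neg (Finset.mem_filter.1 ha).2.ne']
  have pA2 : F 0 * Ap = 0 := by
    rw [hAp, Pp, Finset.mul_sum]
    refine Finset.sum_eq_zero fun a ha => ?_
    rw [SX.mul, if_neg (Finset.mem_filter.1 ha).2.ne]
  have pB1 : Bp * G 0 = 0 := by
    rw [hBp, Pp, Finset.sum_mul]
    refine Finset.sum_eq_zero fun a ha => ?_
    rw [SY.mul, if_neg (Finset.mem_filter.1 ha).2.ne']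
  have pB2 : G 0 * Bp = 0 := by
    rw [hBp, Pp, Finset.mul_sum]
    refine Finset.sum_eq_zero fun a ha => ?_
    rw [SY.mul, if_neg (Finset.mem_filter.1 ha).2.ne]
  -- ranks of the products
  have rk : ∀ A B : Matrix n n ℂ, A ∈ Algebra.adjoin ℂ (J : Set (Matrix n n ℂ)) →
      B ∈ Algebra.adjoin ℂ (pp L J : Set (Matrix n n ℂ)) → A * A = A → B * B = B →
      Fintype.card n * (A * B).rank = A.rank * B.rank ∧ (A * B) * (A * B) = A * B := by
    intro A B hA hB iA iB
    have e1 : (A * B) * (A * B) = A * B := by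
      rw [prod_comm98 (adj_comm2 hJ hL hA hB).symm, iA, iB]
    refine ⟨?_, e1⟩
    have e2 := D.tr_prod hJ hA hB
    rw [← rank_eq_trace e1, ← rank_eq_trace iA, ← rank_eq_trace iB] at e2
    exact_mod_cast e2
  have rm : Am.rank = Ap.rank := by
    have e1 := DX.rank_Q
    rw [← hAp, ← hAm, ← rank_eq_trace iAm, ← rank_eq_trace iAp] at e1
    exact_mod_cast e1
  have rmB : Bm.rank = Bp.rank := by
    have e1 := DY.rank_Q
    rw [← hBp, ← hBm, ← rank_eq_trace iBm, ← rank_eq_trace iBp] at e1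
    exact_mod_cast e1
  have posr : ∀ {Z : Matrix n n ℂ} {H : ℝ → Matrix n n ℂ} {M : Finset ℝ}, Dat τ L Z H M → Z ≠ 0 →
      1 ≤ (Pp H M).rank := by
    intro Z H M DZ hZ
    by_contra h0
    have h1 : (Pp H M).rank = 0 := by omega
    have h2 : Pp H M = 0 := by
      rw [Matrix.rank, Submodule.finrank_eq_zero, LinearMap.range_eq_bot] at h1
      have h3 : Matrix.toLin' (Pp H M) = 0 := h1
      exact (LinearEquiv.map_eq_zero_iff _).1 h3
    have h3 : Qn H M = 0 := by rw [← DZ.tauP, h2, map_zero]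
    have h4 := DZ.spec.one_eq
    rw [h2, h3, zero_add, add_zero] at h4
    apply hZ
    have h5 := DZ.spec.h_mul 0
    rw [h4, mul_one] at h5
    rw [h5]
    simp
  have rAp := posr DX hX0
  have rBp := posr DY hY0
  rw [← hAp] at rAp
  rw [← hBp] at rBp
  obtain ⟨k1, -⟩ := rk Ap Bp memAp memBp iAp iBp
  obtain ⟨k2, -⟩ := rk Ap Bm memAp memBm iAp iBm
  obtain ⟨k3, -⟩ := rk Am Bp memAm memBp iAm iBp
  obtain ⟨k4, -⟩ := rk (F 0) (G 0) (hFJ 0) (hGJ 0) iA0 iB0
  obtain ⟨k5, -⟩ := rk (F 0) Bp (hFJ 0) memBp iA0 iBp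
  obtain ⟨k6, -⟩ := rk Ap (G 0) memAp (hGJ 0) iAp iB0
  have hn : 0 < Fintype.card n := by
    by_contra h0
    have h1 : Fintype.card n = 0 := by omega
    rw [h1, zero_mul] at k1
    have : 1 * 1 ≤ Ap.rank * Bp.rank := Nat.mul_le_mul rAp rBp
    omega
  have q2 : (Ap * Bm).rank = (Ap * Bp).rank := by
    apply Nat.eq_of_mul_eq_mul_left hn
    rw [k1, k2, rmB]
  have q3 : (Am * Bp).rank = (Ap * Bp).rank := by
    apply Nat.eq_of_mul_eq_mul_left hn
    rw [k1, k3, rm]
  have hK : 1 ≤ (Ap * Bp).rank := by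
    by_contra h0
    have h1 : (Ap * Bp).rank = 0 := by omega
    rw [h1, mul_zero] at k1
    have : 1 * 1 ≤ Ap.rank * Bp.rank := Nat.mul_le_mul rAp rBp
    omega
  have h1 : (F 0 * G 0).rank * (Ap * Bp).rank = (F 0 * Bp).rank * (Ap * G 0).rank := by
    apply Nat.eq_of_mul_eq_mul_left hn
    apply Nat.eq_of_mul_eq_mul_left hn
    calc Fintype.card n * (Fintype.card n * ((F 0 * G 0).rank * (Ap * Bp).rank))
        = (Fintype.card n * (F 0 * G 0).rank) * (Fintype.card n * (Ap * Bp).rank) := by ring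
      _ = (Fintype.card n * (F 0 * Bp).rank) * (Fintype.card n * (Ap * G 0).rank) := by
        rw [k4, k1, k5, k6]; ring
      _ = _ := by ring
  -- the kernel
  have h3 : (E 0).rank ≤ (F 0 * G 0).rank + 2 * (Ap * Bp).rank := by
    have pos : ∀ (M : Finset ℝ) a, a ∈ M.filter (fun μ => 0 < μ) → 0 < a := fun M a ha => (Finset.mem_filter.1 ha).2
    have neg : ∀ (M : Finset ℝ) a, a ∈ M.filter (fun μ => μ < 0) → a < 0 := fun M a ha => (Finset.mem_filter.1 ha).2
    have z1 : E 0 * (Ap * Bp) = 0 := hzs 0 _ _ fun a ha c hc => by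
      have := pos _ _ ha
      have := pos _ _ hc
      intro h; linarith
    have z2 : E 0 * (Am * Bm) = 0 := hzs 0 _ _ fun a ha c hc => by
      have := neg _ _ ha
      have := neg _ _ hc
      intro h; linarith
    have z3 : E 0 * (Ap * G 0) = 0 := by
      rw [f0 G]
      exact hzs 0 _ _ fun a ha c hc => by
        have := pos _ _ ha
        rw [Finset.mem_singleton.1 hc]
        intro h; linarith
    have z4 : E 0 * (Am * G 0) = 0 := by
      rw [f0 G]
      exact hzs 0 _ _ fun a ha c hc => by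
        have := neg _ _ ha
        rw [Finset.mem_singleton.1 hc]
        intro h; linarith
    have z5 : E 0 * (F 0 * Bp) = 0 := by
      rw [f0 F]
      exact hzs 0 _ _ fun a ha c hc => by
        have := pos _ _ hc
        rw [Finset.mem_singleton.1 ha]
        intro h; linarith
    have z6 : E 0 * (F 0 * Bm) = 0 := by
      rw [f0 F]
      exact hzs 0 _ _ fun a ha c hc => by
        have := neg _ _ hc
        rw [Finset.mem_singleton.1 ha]
        intro h; linarith
    have e1 : E 0 = E 0 * (F 0 * G 0) + E 0 * (Ap * Bm) + E 0 * (Am * Bp) := by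
      have e2 : E 0 = E 0 * ((Ap + F 0 + Am) * (Bp + G 0 + Bm)) := by rw [oneA, oneB, mul_one, mul_one]
      have e3 : (Ap + F 0 + Am) * (Bp + G 0 + Bm) = Ap * Bp + Ap * G 0 + Ap * Bm + (F 0 * Bp + F 0 * G 0 + F 0 * Bm)
          + (Am * Bp + Am * G 0 + Am * Bm) := by noncomm_ring
      rw [e3] at e2
      simp only [mul_add] at e2
      rw [z1, z2, z3, z4, z5, z6] at e2
      conv_lhs => rw [e2]
      abel
    have e4 : (E 0).rank ≤ (F 0 * G 0).rank + (Ap * Bm).rank + (Am * Bp).rank := by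
      conv_lhs => rw [e1]
      refine (rank_add_le98 _ _).trans (Nat.add_le_add ((rank_add_le98 _ _).trans (Nat.add_le_add ?_ ?_)) ?_)
      · exact Matrix.rank_mul_le_right _ _
      · exact Matrix.rank_mul_le_right _ _
      · exact Matrix.rank_mul_le_right _ _
    rw [q2, q3] at e4
    omega
  -- the positive part
  have h2 : (Ap * Bp).rank + (F 0 * Bp).rank + (Ap * G 0).rank ≤ (Pp E Λ).rank := by
    set M := Ap * Bp + F 0 * Bp + Ap * G 0 with hMdef
    have pos : ∀ (M : Finset ℝ) a, a ∈ M.filter (fun μ => 0 < μ) → 0 < a := fun M a ha => (Finset.mem_filter.1 ha).2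
    have zM : ∀ ν : ℝ, ν ≤ 0 → E ν * M = 0 := by
      intro ν hν
      have z1 : E ν * (Ap * Bp) = 0 := hzs ν _ _ fun a ha c hc => by
        have := pos _ _ ha
        have := pos _ _ hc
        intro h; linarith
      have z3 : E ν * (Ap * G 0) = 0 := by
        rw [f0 G]
        exact hzs ν _ _ fun a ha c hc => by
          have := pos _ _ ha
          rw [Finset.mem_singleton.1 hc]
          intro h; linarith
      have z5 : E ν * (F 0 * Bp) = 0 := by
        rw [f0 F]
        exact hzs ν _ _ fun a ha c hc => by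
          have := pos _ _ hc
          rw [Finset.mem_singleton.1 ha]
          intro h; linarith
      rw [hMdef, mul_add, mul_add, z1, z3, z5]
      simp
    have eM : M = Pp E Λ * M := by
      have e1 : M = (Pp E Λ + E 0 + Qn E Λ) * M := by rw [S.one_eq, one_mul]
      rw [add_mul, add_mul, zM 0 le_rfl] at e1
      have e2 : Qn E Λ * M = 0 := by
        rw [Qn, Finset.sum_mul]
        exact Finset.sum_eq_zero fun ν hν => zM ν (Finset.mem_filter.1 hν).2.le
      rw [e2, add_zero, add_zero] at e1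
      exact e1
    have hle : M.rank ≤ (Pp E Λ).rank := by
      rw [eM]
      exact Matrix.rank_mul_le_left _ _
    have c1 : Bp * Ap = Ap * Bp := (adj_comm2 hJ hL memAp memBp).symm
    have c2 : Bp * F 0 = F 0 * Bp := (adj_comm2 hJ hL (hFJ 0) memBp).symm
    have c3 : G 0 * Ap = Ap * G 0 := (adj_comm2 hJ hL memAp (hGJ 0)).symm
    have c4 : G 0 * F 0 = F 0 * G 0 := (adj_comm2 hJ hL (hFJ 0) (hGJ 0)).symm
    have iM : M * M = M := by
      rw [hMdef]
      simp only [mul_add, add_mul]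
      rw [prod_comm98 c1, prod_comm98 c1, prod_comm98 c2, prod_comm98 c2, prod_comm98 c3, prod_comm98 c3,
        prod_comm98 c4, prod_comm98 c1, prod_comm98 c1]
      rw [iAp, iA0, iBp, iB0, pA1, pA2, pB1, pB2]
      simp
    have tM : M.trace = (Ap * Bp).trace + (F 0 * Bp).trace + (Ap * G 0).trace := by
      rw [hMdef, Matrix.trace_add, Matrix.trace_add]
    rw [← rank_eq_trace iM, ← rank_eq_trace (rk Ap Bp memAp memBp iAp iBp).2,
      ← rank_eq_trace (rk (F 0) Bp (hFJ 0) memBp iA0 iBp).2,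
      ← rank_eq_trace (rk Ap (G 0) memAp (hGJ 0) iAp iB0).2] at tM
    have tM' : M.rank = (Ap * Bp).rank + (F 0 * Bp).rank + (Ap * G 0).rank := by exact_mod_cast tM
    omega
  exact num_two h1 hK hs2 h2 h3

end Dat

end MH
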