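import Pool.Agent.Helper98.MH.Sml

/-!
The tensor product structure for any number of eigenvalues under the sharp condition `s ^ 2 < b`.
-/

set_option linter.unusedSectionVars false

open Matrix

namespace MH

variable {n : Type*} [Fintype n] [DecidableEq n]
variable {h : Matrix n n ℂ} {E : ℝ → Matrix n n ℂ} {Λ : Finset ℝ}
variable {τ : Matrix n n ℂ →ₗ[ℂ] Matrix n n ℂ} {L : Submodule ℂ (Matrix n n ℂ)}

namespace Dat

variable (D : Dat τ L h E Λ)
include D

/-- The main case for at least two positive eigenvalues. -/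
theorem exists_e3 (hmul : ∀ ρ : ℝ, ρ ≠ 0 → (E ρ).rank + 1 ≤ (Pp E Λ).rank)
    (hB : Module.finrank ℂ (KK L E) ≤ 1 → (E 0).rank ≤ (Pp E Λ).rank ^ 2)
    (hs : 2 ≤ (Pp E Λ).rank) (hb : (Pp E Λ).rank ^ 2 < (E 0).rank) :
    ∃ e : Matrix n n ℂ, MinP L E e ∧ AV L E e ⊔ XV τ L E e = ⊤ ∧
      ∀ z1 ∈ XX τ L E, z1 * e = z1 → ∀ z2 ∈ XX τ L E, z2 * e = z2 → ∃ c : ℂ, z2ᴴ * z1 = c • e := by
  have hPne : Pp E Λ ≠ 0 := by
    intro h0; rw [h0] at hs; simp at hs
  by_cases hK1 : Module.finrank ℂ (KK L E) ≤ 1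
  · exact absurd (hB hK1) (by omega)
  have hK : KK L E ≠ ⊥ := by
    intro h0; apply hK1; rw [h0]; simp
  obtain ⟨e, heA, hee, hes, he0, hmin⟩ := D.exists_min hK
  have P : MinP L E e := ⟨heA, hee, hes, he0, hmin⟩
  by_cases hI : ∃ a ∈ AA L E, e * a * τ e ≠ 0
  · have hc := D.cover_I P hI
    obtain ⟨_, _, _, _, hE0⟩ := D.E0_sum P hc
    by_cases hR : ∃ u ∈ NN L E e, u ≠ 0 ∧ e * u = 0 ∧ τ e * u = 0
    · exact ⟨e, P, hc, fun z1 h1 h1e z2 h2 h2e => D.scalars P hR h1 h1e h2 h2e⟩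
    · exfalso
      have hd3 : ¬ 3 ≤ Module.finrank ℂ (NN L E e) := fun h3 => hR (D.exists_u3 P h3)
      have hd1 := D.one_le_finrank P
      have hd1' : Module.finrank ℂ (NN L E e) ≠ 1 := fun h1 => hK (D.caseI_one P hc h1)
      have hd2 : Module.finrank ℂ (NN L E e) = 2 := by omega
      obtain ⟨u, hu, hu0, heu⟩ := D.exists_u2 P hd2.ge
      obtain ⟨ρ, hρ, z, hz, hz0⟩ := D.exists_MM P hc hPne
      have hle := D.rank_e_le P (by
        intro v hv h1 h2
        by_contra h0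
        exact hR ⟨v, hv, h0, h1, h2⟩) hu hu0 heu hz hz0
      have h1 := hmul ρ hρ
      rw [hd2] at hE0
      set s := (Pp E Λ).rank with hsdef
      have h2 : 4 * (s - 1) ≤ s ^ 2 := by
        obtain ⟨k, hk⟩ := Nat.exists_eq_add_of_le hs
        have h3 : s - 1 = k + 1 := by omega
        rw [h3, hk]
        nlinarith [Nat.zero_le (k ^ 2)]
      omega
  · exfalso
    push Not at hI
    by_cases hd : 2 ≤ Module.finrank ℂ (NN L E e)
    · exact D.caseII_two P hI hd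
    · have hd1 := D.one_le_finrank P
      exact hK1 (D.caseII_one P hI (by omega))

/-- Either `h` has only one positive eigenvalue, or every eigenspace is smaller than the positive part. -/
theorem one_or_mult (hs : 1 ≤ (Pp E Λ).rank) :
    (∃ m : ℝ, 0 < m ∧ ∀ ν, ν ≠ m → ν ≠ 0 → ν ≠ -m → E ν = 0) ∨
      ∀ ρ : ℝ, ρ ≠ 0 → (E ρ).rank + 1 ≤ (Pp E Λ).rank := by
  classical
  by_cases hall : ∀ ρ : ℝ, ρ ≠ 0 → (E ρ).rank + 1 ≤ (Pp E Λ).rank
  · exact Or.inr hall
  left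
  push Not at hall
  obtain ⟨ρ, hρ, hle⟩ := hall
  have hz : ∀ M : Matrix n n ℂ, M.rank = 0 → M = 0 := by
    intro M hM
    rw [Matrix.rank, Submodule.finrank_eq_zero, LinearMap.range_eq_bot] at hM
    have h3 : Matrix.toLin' M = 0 := hM
    exact (LinearEquiv.map_eq_zero_iff _).1 h3
  -- the absolute value of the level
  obtain ⟨m, hm, hmr⟩ : ∃ m : ℝ, 0 < m ∧ (Pp E Λ).rank ≤ (E m).rank := by
    rcases lt_or_gt_of_ne hρ with h | h
    · refine ⟨-ρ, by linarith, ?_⟩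
      rw [D.rank_neg]
      omega
    · exact ⟨ρ, h, by omega⟩
  refine ⟨m, hm, ?_⟩
  have hpos : ∀ ν : ℝ, 0 < ν → ν ≠ m → E ν = 0 := by
    intro ν hν hne
    by_cases hνΛ : ν ∈ Λ
    · by_cases hmΛ : m ∈ Λ
      · apply hz
        have h1 : (E ν).rank + (E m).rank ≤ (Pp E Λ).rank := by
          rw [D.rank_Pp]
          have h2 : ({ν, m} : Finset ℝ) ⊆ Λ.filter (fun μ => 0 < μ) := by
            intro x hx
            rw [Finset.mem_insert, Finset.mem_singleton] at hx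
            rcases hx with rfl | rfl
            · exact Finset.mem_filter.2 ⟨hνΛ, hν⟩
            · exact Finset.mem_filter.2 ⟨hmΛ, hm⟩
          have h3 := Finset.sum_le_sum_of_subset (f := fun μ => (E μ).rank) h2
          rw [Finset.sum_pair hne] at h3
          exact h3
        omega
      · rw [D.spec.supp m hmΛ, Matrix.rank_zero] at hmr
        omega
    · exact D.spec.supp ν hνΛ
  intro ν h1 h2 h3
  rcases lt_or_gt_of_ne h2 with h | h
  · apply hz
    rw [← D.rank_neg, hpos (-ν) (by linarith) (fun h4 => h3 (by linarith)), Matrix.rank_zero]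
  · exact hpos ν h h1

/-- **The tensor product structure** for any number of eigenvalues. -/
theorem units3 {G Gi : Matrix n n ℂ} (hG1 : Gi * G = 1) (hGs : Gᵀ = G)
    (hG : ∀ x, τ x = Gi * xᵀ * G)
    (hB : Module.finrank ℂ (KK L E) ≤ 1 → (E 0).rank ≤ (Pp E Λ).rank ^ 2)
    (hs : 2 ≤ (Pp E Λ).rank) (hb : (Pp E Λ).rank ^ 2 < (E 0).rank) :
    ∃ e : Matrix n n ℂ, e * e = e ∧ eᴴ = e ∧ e ≠ 0 ∧
      (e.rank = 1 → ∀ x, τ x = -x → x ∈ L) ∧
      ∃ (ι : Type) (_ : Fintype ι) (_ : DecidableEq ι) (w : ι → Matrix n n ℂ) (kap : ι → ℝ),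
        (∀ a, w a * e = w a) ∧ (∀ a b, (w a)ᴴ * w b = if a = b then e else 0) ∧
        (∀ ρ, ∑ a ∈ Finset.univ.filter (fun a => kap a = ρ), w a * (w a)ᴴ = E ρ) ∧
        (∑ a, w a * (w a)ᴴ = 1) ∧ Fintype.card ι * e.rank = Fintype.card n ∧
        (∀ ρ, (Finset.univ.filter (fun a => kap a = ρ)).card * e.rank = (E ρ).rank) ∧
        ∀ l ∈ L, ∃ (c : Matrix n n ℂ) (t : ι → ι → ℂ), e * c * e = c ∧
          ∀ a b, (w a)ᴴ * l * w b = (if a = b then c else 0) + t a b • e := by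
  rcases D.one_or_mult (by omega) with ⟨m, hm, hlev⟩ | hmul
  · exact D.units2 hG1 hGs hG hm hlev hB hs hb
  · obtain ⟨e, P, hc, hsc⟩ := D.exists_e3 hmul hB hs hb
    exact D.units_e (by omega) (by omega) P hc hsc

end Dat

end MH
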