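import Pool.Agent.Helper98.MH.Nrm

/-!
Star-stable ideals of `L`, the trace of products, the case of an element `h` with components in two
ideals.
-/

open Matrix

namespace MH

variable {n : Type*} [Fintype n] [DecidableEq n]
variable {h : Matrix n n ℂ} {E : ℝ → Matrix n n ℂ} {Λ : Finset ℝ}
variable {τ : Matrix n n ℂ →ₗ[ℂ] Matrix n n ℂ} {L : Submodule ℂ (Matrix n n ℂ)}

/-- a star-stable ideal of `L` -/
structure IsI (L J : Submodule ℂ (Matrix n n ℂ)) : Prop where
  le : J ≤ L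
  br : ∀ x ∈ L, ∀ y ∈ J, x * y - y * x ∈ J
  st : ∀ y ∈ J, yᴴ ∈ J

/-- the orthogonal complement in `L` -/
def pp (L I : Submodule ℂ (Matrix n n ℂ)) : Submodule ℂ (Matrix n n ℂ) where
  carrier := {x | x ∈ L ∧ ∀ y ∈ I, (yᴴ * x).trace = 0}
  add_mem' := fun {a b} ha hb => ⟨L.add_mem ha.1 hb.1, fun y hy => by
    rw [mul_add, Matrix.trace_add, ha.2 y hy, hb.2 y hy, add_zero]⟩
  zero_mem' := ⟨L.zero_mem, fun y _ => by simp⟩
  smul_mem' := fun c a ha => ⟨L.smul_mem c ha.1, fun y hy => by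
    rw [mul_smul_comm, Matrix.trace_smul, ha.2 y hy, smul_zero]⟩

omit [DecidableEq n] in
lemma star_tr (x y : Matrix n n ℂ) : (xᴴ * y).trace = star ((yᴴ * x).trace) := by
  rw [← Matrix.trace_conjTranspose, conjTranspose_mul, conjTranspose_conjTranspose]

/-- orthogonal decomposition -/
lemma decomp {I : Submodule ℂ (Matrix n n ℂ)} (x : Matrix n n ℂ) :
    ∃ x1 ∈ I, ∀ y ∈ I, (yᴴ * (x - x1)).trace = 0 := by
  classical
  obtain ⟨u, hu, huu, hsum⟩ := exists_onb98 I
  refine ⟨∑ i, ((u i)ᴴ * x).trace • u i, I.sum_mem fun i _ => I.smul_mem _ (hu i), ?_⟩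
  have h1 : ∀ j, ((u j)ᴴ * (x - ∑ i, ((u i)ᴴ * x).trace • u i)).trace = 0 := by
    intro j
    rw [mul_sub, Matrix.trace_sub, Finset.mul_sum, Matrix.trace_sum, Finset.sum_eq_single j]
    · rw [mul_smul_comm, Matrix.trace_smul, huu, if_pos rfl, smul_eq_mul, mul_one, sub_self]
    · intro i _ hij
      rw [mul_smul_comm, Matrix.trace_smul, huu, if_neg (Ne.symm hij), smul_zero]
    · intro h; exact absurd (Finset.mem_univ j) h
  intro y hy
  rw [hsum y hy, conjTranspose_sum, Finset.sum_mul, Matrix.trace_sum]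
  apply Finset.sum_eq_zero
  intro i _
  rw [conjTranspose_smul, smul_mul_assoc, Matrix.trace_smul, h1, smul_zero]

namespace IsI

variable {J I : Submodule ℂ (Matrix n n ℂ)}

lemma br' (hJ : IsI L J) {x y : Matrix n n ℂ} (hx : x ∈ L) (hy : y ∈ J) : y * x - x * y ∈ J := by
  have := J.neg_mem (hJ.br x hx y hy)
  rwa [neg_sub] at this

lemma inf (hJ : IsI L J) (hI : IsI L I) : IsI L (J ⊓ I) where
  le := inf_le_left.trans hJ.le
  br := fun x hx y hy => ⟨hJ.br x hx y hy.1, hI.br x hx y hy.2⟩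
  st := fun y hy => ⟨hJ.st y hy.1, hI.st y hy.2⟩

lemma perp (hI : IsI L I) (hL : IsI L L) : IsI L (pp L I) where
  le := fun x hx => hx.1
  br := by
    rintro x hx w ⟨hw, hw'⟩
    refine ⟨hL.br x hx w hw, fun y hy => ?_⟩
    have h1 : xᴴ * y - y * xᴴ ∈ I := hI.br _ (hL.st x hx) y hy
    have h2 := hw' _ h1
    rw [conjTranspose_sub, conjTranspose_mul, conjTranspose_mul, conjTranspose_conjTranspose,
      sub_mul, Matrix.trace_sub] at h2
    rw [mul_sub, Matrix.trace_sub, ← mul_assoc, ← mul_assoc, Matrix.trace_mul_comm (yᴴ * w) x,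
      ← mul_assoc]
    exact h2
  st := by
    rintro w ⟨hw, hw'⟩
    refine ⟨hL.st w hw, fun y hy => ?_⟩
    have h1 := hw' _ (hI.st y hy)
    rw [conjTranspose_conjTranspose] at h1
    rw [← conjTranspose_mul, Matrix.trace_conjTranspose, Matrix.trace_mul_comm, h1, star_zero]

lemma disj {x : Matrix n n ℂ} (h1 : x ∈ I) (h2 : x ∈ pp L I) : x = 0 := by
  have h3 := h2.2 x h1
  apply eq_zero_of_trace
  rw [h3]; rfl

/-- orthogonal ideals commute -/
lemma comm (hI : IsI L I) (hL : IsI L L) {a w : Matrix n n ℂ} (ha : a ∈ I) (hw : w ∈ pp L I) :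
    a * w = w * a := by
  have h1 : w * a - a * w ∈ I := hI.br w hw.1 a ha
  have h2 : a * w - w * a ∈ pp L I := (hI.perp hL).br a (hI.le ha) w hw
  have h3 := (pp L I).neg_mem h2
  rw [neg_sub] at h3
  exact (sub_eq_zero.mp (disj h1 h3)).symm

end IsI

namespace Dat

variable (D : Dat τ L h E Λ)
include D

lemma isI : IsI L L := ⟨le_rfl, D.br, D.st⟩

/-- a minimal ideal that sees `h` -/
theorem exists_J (hh : h ≠ 0) : ∃ J : Submodule ℂ (Matrix n n ℂ), IsI L J ∧
    (∃ y ∈ J, (hᴴ * y).trace ≠ 0) ∧ ∀ I : Submodule ℂ (Matrix n n ℂ), IsI L I → I ≤ J →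
      (∃ y ∈ I, (hᴴ * y).trace ≠ 0) → I = J := by
  classical
  have hex : ∃ r : ℕ, ∃ J : Submodule ℂ (Matrix n n ℂ), IsI L J ∧
      (∃ y ∈ J, (hᴴ * y).trace ≠ 0) ∧ Module.finrank ℂ J = r := by
    refine ⟨_, L, D.isI, ⟨h, D.mem, ?_⟩, rfl⟩
    intro h0
    have := trace_pos hh
    rw [h0] at this
    simp at this
  obtain ⟨J, hJ, hy, hr⟩ := Nat.find_spec hex
  refine ⟨J, hJ, hy, fun I hI hle hyI => ?_⟩
  have h1 : Nat.find hex ≤ Module.finrank ℂ I := Nat.find_min' hex ⟨I, hI, hyI, rfl⟩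
  exact Submodule.eq_of_le_of_finrank_le hle (by rw [hr]; exact h1)

/-- equivariant self-adjoint operators are scalar on a minimal ideal -/
theorem scal_J {J : Submodule ℂ (Matrix n n ℂ)} (hJ : IsI L J)
    (hy : ∃ y ∈ J, (hᴴ * y).trace ≠ 0)
    (hmin : ∀ I : Submodule ℂ (Matrix n n ℂ), IsI L I → I ≤ J →
      (∃ y ∈ I, (hᴴ * y).trace ≠ 0) → I = J)
    (C : Matrix n n ℂ →ₗ[ℂ] Matrix n n ℂ) (hC : ∀ y ∈ J, C y ∈ J)
    (hbr : ∀ x ∈ L, ∀ y ∈ J, C (x * y - y * x) = x * C y - C y * x)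
    (hst : ∀ y ∈ J, C yᴴ = (C y)ᴴ)
    (hsa : ∀ x ∈ J, ∀ y ∈ J, (xᴴ * C y).trace = ((C x)ᴴ * y).trace) :
    ∃ c : ℂ, ∀ y ∈ J, C y = c • y := by
  classical
  obtain ⟨y0, hy0, hy0'⟩ := hy
  have hJne : Nontrivial J := by
    rw [Submodule.nontrivial_iff_ne_bot]
    rintro rfl
    rw [Submodule.mem_bot] at hy0
    rw [hy0] at hy0'
    simp at hy0'
  obtain ⟨c, hc⟩ := Module.End.exists_eigenvalue (C.restrict hC)
  obtain ⟨v, hv⟩ := hc.exists_hasEigenvector
  have hvc : C (v : Matrix n n ℂ) = c • (v : Matrix n n ℂ) := by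
    have h1 := hv.apply_eq_smul
    exact congrArg Subtype.val h1
  have hv0 : (v : Matrix n n ℂ) ≠ 0 := fun h0 => hv.2 (Subtype.ext h0)
  have hcr : star c = c := by
    have h1 := hsa v v.2 v v.2
    rw [hvc, conjTranspose_smul, smul_mul_assoc, mul_smul_comm, Matrix.trace_smul,
      Matrix.trace_smul, smul_eq_mul, smul_eq_mul] at h1
    have h2 : ((v : Matrix n n ℂ)ᴴ * (v : Matrix n n ℂ)).trace ≠ 0 := by
      intro h0
      have := trace_pos hv0
      rw [h0] at this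
      simp at this
    exact (mul_right_cancel₀ h2 h1).symm
  let I : Submodule ℂ (Matrix n n ℂ) :=
    { carrier := {y | y ∈ J ∧ C y = c • y}
      add_mem' := fun {a b} ha hb => ⟨J.add_mem ha.1 hb.1, by rw [map_add, ha.2, hb.2, smul_add]⟩
      zero_mem' := ⟨J.zero_mem, by simp⟩
      smul_mem' := fun r a ha => ⟨J.smul_mem r ha.1, by rw [map_smul, ha.2, smul_comm]⟩ }
  have hI : IsI L I := by
    refine ⟨fun x hx => hJ.le hx.1, fun x hx y hy => ⟨hJ.br x hx y hy.1, ?_⟩,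
      fun y hy => ⟨hJ.st y hy.1, ?_⟩⟩
    · rw [hbr x hx y hy.1, hy.2, mul_smul_comm, smul_mul_assoc, smul_sub]
    · rw [hst y hy.1, hy.2, conjTranspose_smul, hcr]
  have hIJ : I ≤ J := fun x hx => hx.1
  by_cases hseen : ∃ y ∈ I, (hᴴ * y).trace ≠ 0
  · have h1 := hmin I hI hIJ hseen
    refine ⟨c, fun y hy => ?_⟩
    rw [← h1] at hy
    exact hy.2
  · exfalso
    push Not at hseen
    have hJ' : IsI L (J ⊓ pp L I) := hJ.inf (hI.perp D.isI)
    have h1 : J ⊓ pp L I = J := by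
      apply hmin _ hJ' inf_le_left
      obtain ⟨x1, hx1, hx1'⟩ := decomp (I := I) y0
      refine ⟨y0 - x1, ⟨J.sub_mem hy0 (hIJ hx1), hJ.le (J.sub_mem hy0 (hIJ hx1)), hx1'⟩, ?_⟩
      rw [mul_sub, Matrix.trace_sub, hseen x1 hx1, sub_zero]
      exact hy0'
    have h2 : (v : Matrix n n ℂ) ∈ J ⊓ pp L I := by rw [h1]; exact v.2
    have h3 : (v : Matrix n n ℂ) ∈ I := ⟨v.2, hvc⟩
    exact hv0 (IsI.disj h3 h2.2)

/-! ### the algebras generated by orthogonal ideals -/

omit D in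
lemma adj_star {J : Submodule ℂ (Matrix n n ℂ)} (hJ : ∀ y ∈ J, yᴴ ∈ J) {a : Matrix n n ℂ}
    (ha : a ∈ Algebra.adjoin ℂ (J : Set (Matrix n n ℂ))) :
    aᴴ ∈ Algebra.adjoin ℂ (J : Set (Matrix n n ℂ)) := by
  induction ha using Algebra.adjoin_induction with
  | mem x hx => exact Algebra.subset_adjoin (hJ x hx)
  | algebraMap r =>
    rw [Algebra.algebraMap_eq_smul_one, conjTranspose_smul, conjTranspose_one]
    exact Subalgebra.smul_mem _ (one_mem _) _
  | add x y _ _ hx hy => rw [conjTranspose_add]; exact add_mem hx hy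
  | mul x y _ _ hx hy => rw [conjTranspose_mul]; exact mul_mem hy hx

omit D in
lemma adj_comm {I : Submodule ℂ (Matrix n n ℂ)} {w : Matrix n n ℂ}
    (hw : ∀ a ∈ I, a * w = w * a) {a : Matrix n n ℂ}
    (ha : a ∈ Algebra.adjoin ℂ (I : Set (Matrix n n ℂ))) : a * w = w * a := by
  induction ha using Algebra.adjoin_induction with
  | mem x hx => exact hw x hx
  | algebraMap r => rw [Algebra.algebraMap_eq_smul_one]; simp
  | add x y _ _ hx hy => rw [add_mul, mul_add, hx, hy]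
  | mul x y _ _ hx hy => rw [mul_assoc, hy, ← mul_assoc, hx, mul_assoc]

omit D in
lemma adj_comm2 {J : Submodule ℂ (Matrix n n ℂ)} (hJ : IsI L J) (hL : IsI L L)
    {a w : Matrix n n ℂ} (ha : a ∈ Algebra.adjoin ℂ (J : Set (Matrix n n ℂ)))
    (hw : w ∈ Algebra.adjoin ℂ (pp L J : Set (Matrix n n ℂ))) : a * w = w * a := by
  refine adj_comm (fun b hb => ?_) ha
  refine (adj_comm (fun c hc => ?_) hw).symm
  exact (hJ.comm hL hb hc).symm

/-- the trace of a product of elements of the two algebras -/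
theorem tr_prod {J : Submodule ℂ (Matrix n n ℂ)} (hJ : IsI L J)
    {y a : Matrix n n ℂ} (hy : y ∈ Algebra.adjoin ℂ (J : Set (Matrix n n ℂ)))
    (ha : a ∈ Algebra.adjoin ℂ (pp L J : Set (Matrix n n ℂ))) :
    (Fintype.card n : ℂ) * (y * a).trace = y.trace * a.trace := by
  classical
  have hL := D.isI
  let C : Submodule ℂ (Matrix n n ℂ) := Submodule.span ℂ
    {x | ∃ p ∈ Algebra.adjoin ℂ (J : Set (Matrix n n ℂ)),
      ∃ q ∈ Algebra.adjoin ℂ (J : Set (Matrix n n ℂ)), x = p * q - q * p}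
  obtain ⟨x1, hx1, hx1'⟩ := decomp (I := C) y
  have hCle : ∀ x ∈ C, x ∈ Algebra.adjoin ℂ (J : Set (Matrix n n ℂ)) := by
    intro x hx
    induction hx using Submodule.span_induction with
    | mem x hx =>
      obtain ⟨p, hp, q, hq, rfl⟩ := hx
      exact sub_mem (mul_mem hp hq) (mul_mem hq hp)
    | zero => exact zero_mem _
    | add x y _ _ hx hy => exact add_mem hx hy
    | smul r x _ hx => exact Subalgebra.smul_mem _ hx r
  have htr : ∀ x ∈ C, (x * a).trace = 0 ∧ x.trace = 0 := by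
    intro x hx
    induction hx using Submodule.span_induction with
    | mem x hx =>
      obtain ⟨p, hp, q, hq, rfl⟩ := hx
      constructor
      · have h1 := adj_comm2 hJ hL hq ha
        rw [sub_mul, Matrix.trace_sub, mul_assoc p, h1, ← mul_assoc, Matrix.trace_mul_comm (p * a),
          ← mul_assoc, sub_self]
      · rw [Matrix.trace_sub, Matrix.trace_mul_comm, sub_self]
    | zero => simp
    | add x y _ _ hx hy =>
      rw [add_mul, Matrix.trace_add, Matrix.trace_add, hx.1, hx.2, hy.1, hy.2]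
      exact ⟨add_zero _, add_zero _⟩
    | smul r x _ hx =>
      rw [smul_mul_assoc, Matrix.trace_smul, Matrix.trace_smul, hx.1, hx.2]
      exact ⟨smul_zero _, smul_zero _⟩
  set z := y - x1 with hz
  have hzA : z ∈ Algebra.adjoin ℂ (J : Set (Matrix n n ℂ)) := sub_mem hy (hCle x1 hx1)
  have hzc : ∀ w ∈ Algebra.adjoin ℂ (J : Set (Matrix n n ℂ)), z * w = w * z := by
    intro w hw
    have hq : z * w - w * z ∈ Algebra.adjoin ℂ (J : Set (Matrix n n ℂ)) :=
      sub_mem (mul_mem hzA hw) (mul_mem hw hzA)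
    set q := z * w - w * z with hqdef
    have hw' := adj_star hJ.st hw
    have h1 : q * wᴴ - wᴴ * q ∈ C := Submodule.subset_span ⟨q, hq, wᴴ, hw', rfl⟩
    have h2 := hx1' _ h1
    rw [conjTranspose_sub, conjTranspose_mul, conjTranspose_mul, conjTranspose_conjTranspose,
      sub_mul, Matrix.trace_sub] at h2
    have h3 : (qᴴ * q).trace = 0 := by
      rw [hqdef, mul_sub, Matrix.trace_sub, ← hqdef, ← mul_assoc, ← mul_assoc,
        Matrix.trace_mul_comm (qᴴ * z) w, ← mul_assoc]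
      exact h2
    have h4 : q = 0 := by
      apply eq_zero_of_trace
      rw [h3]; rfl
    exact sub_eq_zero.mp (by rw [← hqdef]; exact h4)
  obtain ⟨c, hc⟩ := D.irr z (by
    intro x hx
    obtain ⟨j, hj, hj'⟩ := decomp (I := J) x
    have hk : x - j ∈ pp L J := ⟨L.sub_mem hx (hJ.le hj), hj'⟩
    have e1 := hzc j (Algebra.subset_adjoin hj)
    have e2 := adj_comm2 hJ hL hzA (Algebra.subset_adjoin hk)
    have e3 : x = j + (x - j) := by abel
    rw [e3, mul_add, add_mul, e1, e2])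
  have hy' : y = x1 + c • (1 : Matrix n n ℂ) := by rw [← hc, hz]; abel
  obtain ⟨t1, t2⟩ := htr x1 hx1
  rw [hy', add_mul, Matrix.trace_add, t1, Matrix.trace_add, t2, smul_mul_assoc, one_mul,
    Matrix.trace_smul, Matrix.trace_smul, Matrix.trace_one, smul_eq_mul, smul_eq_mul]
  ring

/-! ### two components -/

/-- `h ^ 3 = m ^ 2 h` if the only eigenvalues are `m`, `0`, `-m` -/
lemma lev_cube {m : ℝ} (hm : 0 < m) (hlev : ∀ ν, ν ≠ m → ν ≠ 0 → ν ≠ -m → E ν = 0) :
    h = (m : ℂ) • (E m - E (-m)) ∧ h * h = (m : ℂ) ^ 2 • (E m + E (-m)) ∧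
      h * h * h = (m : ℂ) ^ 2 • h := by
  have S := D.spec
  have hmm : m ≠ -m := by linarith
  have e1 : h * E m = (m : ℂ) • E m := S.h_mul m
  have e2 : h * E (-m) = -((m : ℂ) • E (-m)) := by rw [S.h_mul]; push_cast; rw [neg_smul]
  have e3 : h * E 0 = 0 := by rw [S.h_mul]; simp
  have h1 : (1 : Matrix n n ℂ) = E m + E (-m) + E 0 := by
    have h2 : (1 : Matrix n n ℂ) = ∑ μ ∈ Λ ∪ {m, -m, 0}, E μ := by
      rw [← S.sum]
      apply Finset.sum_subset Finset.subset_union_left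
      intro μ _ hμ
      exact S.supp μ hμ
    have h3 : ∑ μ ∈ Λ ∪ {m, -m, 0}, E μ = ∑ μ ∈ ({m, -m, 0} : Finset ℝ), E μ := by
      symm
      apply Finset.sum_subset Finset.subset_union_right
      intro μ _ hμ
      simp only [Finset.mem_insert, Finset.mem_singleton, not_or] at hμ
      exact hlev μ hμ.1 hμ.2.2 hμ.2.1
    rw [h2, h3, Finset.sum_insert, Finset.sum_insert, Finset.sum_singleton, add_assoc]
    · rw [Finset.mem_singleton]; linarith
    · rw [Finset.mem_insert, Finset.mem_singleton, not_or]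
      exact ⟨hmm, hm.ne'⟩
  have h2 : h = (m : ℂ) • (E m - E (-m)) := by
    have : h = h * 1 := (mul_one h).symm
    rw [this, h1, mul_add, mul_add, e1, e2, e3, add_zero, smul_sub, sub_eq_add_neg]
  have h3 : h * h = (m : ℂ) ^ 2 • (E m + E (-m)) := by
    have : h * h = h * ((m : ℂ) • (E m - E (-m))) := by rw [← h2]
    rw [this, mul_smul_comm, mul_sub, e1, e2, sub_neg_eq_add, ← smul_add, smul_smul, sq]
  refine ⟨h2, h3, ?_⟩
  have e4 : h * h * h = h * (h * h) := mul_assoc _ _ _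
  rw [e4, h3, mul_smul_comm, mul_add, e1, e2, ← sub_eq_add_neg, ← smul_sub, ← h2]

lemma tr_tau_odd {x : Matrix n n ℂ} (hx : τ x = -x) : x.trace = 0 := by
  have h1 := D.inv.tr x
  rw [hx, Matrix.trace_neg] at h1
  have h2 : (2 : ℂ) * x.trace = 0 := by rw [two_mul]; nth_rewrite 1 [← h1]; ring
  exact (mul_eq_zero.mp h2).resolve_left two_ne_zero

lemma tau_cube {x : Matrix n n ℂ} (hx : τ x = -x) : τ (x * x * x) = -(x * x * x) := by
  rw [D.inv.mul, D.inv.mul, hx]
  noncomm_ring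

/-- If `h` has components in an ideal and in its complement, and only the eigenvalues `m`, `0`, `-m`,
then the kernel of `h` has half the dimension. -/
theorem two_ideals {m : ℝ} (hm : 0 < m) (hlev : ∀ ν, ν ≠ m → ν ≠ 0 → ν ≠ -m → E ν = 0)
    {J : Submodule ℂ (Matrix n n ℂ)} (hJ : IsI L J) (hy : ∃ y ∈ J, (hᴴ * y).trace ≠ 0)
    (hJh : h ∉ J) : (E 0).rank = 2 * (Pp E Λ).rank := by
  classical
  have S := D.spec
  have hL := D.isI
  obtain ⟨X, hX, hX'⟩ := decomp (I := J) h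
  set Y := h - X with hY
  have hYp : Y ∈ pp L J := ⟨L.sub_mem D.mem (hJ.le hX), hX'⟩
  have hP := hJ.perp hL
  have hh : h = X + Y := by rw [hY]; abel
  have hXs : Xᴴ = X := by
    have h1 : h = Xᴴ + Yᴴ := by
      conv_lhs => rw [← S.hh, hh, conjTranspose_add]
    have h2 : X - Xᴴ = Yᴴ - Y := by
      have : X + Y = Xᴴ + Yᴴ := by rw [← hh, ← h1]
      have h3 : X - Xᴴ - (Yᴴ - Y) = (X + Y) - (Xᴴ + Yᴴ) := by abel
      rw [this, sub_self] at h3
      exact sub_eq_zero.mp h3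
    have h3 : X - Xᴴ ∈ J := J.sub_mem hX (hJ.st X hX)
    have h4 : X - Xᴴ ∈ pp L J := by rw [h2]; exact (pp L J).sub_mem (hP.st Y hYp) hYp
    exact (sub_eq_zero.mp (IsI.disj h3 h4)).symm
  have hYs : Yᴴ = Y := by rw [hY, conjTranspose_sub, S.hh, hXs]
  have hX0 : X ≠ 0 := by
    rintro rfl
    obtain ⟨y, hy, hy'⟩ := hy
    apply hy'
    have h1 := hX' y hy
    rw [hY, sub_zero] at h1
    rw [star_tr, h1, star_zero]
  have hY0 : Y ≠ 0 := by
    intro h0
    apply hJh
    rw [hh, h0, add_zero]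
    exact hX
  have hXY : X * Y = Y * X := hJ.comm hL hX hYp
  have τX : τ X = -X := D.sk X (hJ.le hX)
  have τY : τ Y = -Y := D.sk Y hYp.1
  -- traces
  set N : ℂ := (Fintype.card n : ℂ) with hN
  have AX : X ∈ Algebra.adjoin ℂ (J : Set (Matrix n n ℂ)) := Algebra.subset_adjoin hX
  have AY : Y ∈ Algebra.adjoin ℂ (pp L J : Set (Matrix n n ℂ)) := Algebra.subset_adjoin hYp
  have a1 : X.trace = 0 := D.tr_tau_odd τX
  have b1 : Y.trace = 0 := D.tr_tau_odd τY
  have a3 : (X * X * X).trace = 0 := D.tr_tau_odd (D.tau_cube τX)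
  have b3 : (Y * Y * Y).trace = 0 := D.tr_tau_odd (D.tau_cube τY)
  set a2 := (X * X).trace with ha2
  set b2 := (Y * Y).trace with hb2
  set a4 := (X * X * X * X).trace with ha4
  set b4 := (Y * Y * Y * Y).trace with hb4
  have pr : ∀ p ∈ Algebra.adjoin ℂ (J : Set (Matrix n n ℂ)),
      ∀ q ∈ Algebra.adjoin ℂ (pp L J : Set (Matrix n n ℂ)),
      N * (p * q).trace = p.trace * q.trace := fun p hp q hq => D.tr_prod hJ hp hq
  have X2 := mul_mem AX AX
  have X3 := mul_mem X2 AX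
  have X4 := mul_mem X3 AX
  have X5 := mul_mem X4 AX
  have Y2 := mul_mem AY AY
  have Y3 := mul_mem Y2 AY
  have Y4 := mul_mem Y3 AY
  have Y5 := mul_mem Y4 AY
  obtain ⟨l1, l2, l3⟩ := D.lev_cube hm hlev
  have hc : Commute X Y := hXY
  -- the four identities
  have key : ∀ p q : Matrix n n ℂ, p ∈ Algebra.adjoin ℂ (J : Set (Matrix n n ℂ)) →
      q ∈ Algebra.adjoin ℂ (pp L J : Set (Matrix n n ℂ)) →
      (p * X * X * X).trace * q.trace + 3 * ((p * X * X).trace * (q * Y).trace)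
        + 3 * ((p * X).trace * (q * Y * Y).trace) + p.trace * (q * Y * Y * Y).trace
      = (m : ℂ) ^ 2 * ((p * X).trace * q.trace + p.trace * (q * Y).trace) := by
    intro p q hp hq
    have hqX : q * X = X * q := (adj_comm2 hJ hL AX hq).symm
    have e1 : p * q * (h * h * h) = p * X * X * X * q + (3 : ℂ) • (p * X * X * (q * Y))
        + (3 : ℂ) • (p * X * (q * Y * Y)) + p * (q * Y * Y * Y) := by
      have e2 : h * h * h = X * X * X + (3 : ℂ) • (X * X * Y) + (3 : ℂ) • (X * Y * Y) + Y * Y * Y := by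
        rw [hh]
        have f1 : Y * X = X * Y := hXY.symm
        have : (X + Y) * (X + Y) * (X + Y) = X * X * X + (X * X * Y + X * (Y * X) + (Y * X) * X)
            + (X * Y * Y + (Y * X) * Y + Y * (Y * X)) + Y * Y * Y := by noncomm_ring
        rw [this, f1]
        have g1 : X * Y * X = X * X * Y := by rw [mul_assoc, f1, ← mul_assoc]
        have g2 : X * (X * Y) = X * X * Y := (mul_assoc _ _ _).symm
        have g3 : Y * (X * Y) = X * Y * Y := by rw [← mul_assoc, f1]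
        rw [g1, g2, g3]
        have h3 : ∀ M : Matrix n n ℂ, (3 : ℂ) • M = M + M + M := by
          intro M
          have : (3 : ℂ) = 1 + 1 + 1 := by norm_num
          rw [this, add_smul, add_smul, one_smul]
        rw [h3, h3]
      rw [e2]
      have g0 : ∀ M : Matrix n n ℂ, q * (X * M) = X * (q * M) := by
        intro M; rw [← mul_assoc, hqX, mul_assoc]
      simp only [mul_add, mul_smul_comm]
      simp only [mul_assoc, g0, hqX]
    have e3 : p * q * (h * h * h) = (m : ℂ) ^ 2 • (p * X * q + p * (q * Y)) := by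
      rw [l3, mul_smul_comm]
      congr 1
      rw [hh, mul_add, mul_assoc p q X, hqX]
      simp only [mul_assoc]
    rw [e1] at e3
    have e4 := congrArg (fun M : Matrix n n ℂ => N * M.trace) e3
    simp only [Matrix.trace_add, Matrix.trace_smul, smul_eq_mul] at e4
    have t1 := pr _ (mul_mem (mul_mem (mul_mem hp AX) AX) AX) _ hq
    have t2 := pr _ (mul_mem (mul_mem hp AX) AX) _ (mul_mem hq AY)
    have t3 := pr _ (mul_mem hp AX) _ (mul_mem (mul_mem hq AY) AY)
    have t4 := pr _ hp _ (mul_mem (mul_mem (mul_mem hq AY) AY) AY)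
    have t5 := pr _ (mul_mem hp AX) _ hq
    have t6 := pr _ hp _ (mul_mem hq AY)
    linear_combination e4 - t1 - 3 * t2 - 3 * t3 - t4 + (m : ℂ) ^ 2 * t5 + (m : ℂ) ^ 2 * t6
  have i1 := key X 1 AX (one_mem _)
  have i2 := key 1 Y (one_mem _) AY
  have i3 := key (X * X) Y X2 AY
  have i4 := key X (Y * Y) AX Y2
  have i5 := pr X AX Y AY
  simp only [one_mul, a1, b1, a3, b3, Matrix.trace_one, ← mul_assoc, ← ha2, ← hb2, ← ha4, ← hb4,
    ← hN] at i1 i2 i3 i4 i5
  have n2 : ∀ Z : Matrix n n ℂ, Zᴴ = Z → Z ≠ 0 → (Z * Z).trace ≠ 0 := by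
    intro Z hZ hZ0 h0
    have := trace_pos hZ0
    rw [hZ, h0] at this
    simp at this
  have na : a2 ≠ 0 := n2 X hXs hX0
  have nb : b2 ≠ 0 := n2 Y hYs hY0
  have hn : N ≠ 0 := by
    intro h0
    have h1 : Fintype.card n = 0 := by rw [hN] at h0; exact_mod_cast h0
    have := Fintype.card_eq_zero_iff.mp h1
    exact hX0 (by ext i; exact (this.false i).elim)
  have j1 : N * (m : ℂ) ^ 2 = a2 + 3 * b2 := by
    have h1 : a2 * b2 * (N * (m : ℂ) ^ 2 - (a2 + 3 * b2)) = 0 := by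
      linear_combination (1 / 3 : ℂ) * N * i3 - b2 * i1 - (1 / 3 : ℂ) * a2 * i2
    have h2 := (mul_eq_zero.mp h1).resolve_left (mul_ne_zero na nb)
    exact sub_eq_zero.mp h2
  have j2 : N * (m : ℂ) ^ 2 = 3 * a2 + b2 := by
    have h1 : a2 * b2 * (N * (m : ℂ) ^ 2 - (3 * a2 + b2)) = 0 := by
      linear_combination (1 / 3 : ℂ) * N * i4 - (1 / 3 : ℂ) * b2 * i1 - a2 * i2
    have h2 := (mul_eq_zero.mp h1).resolve_left (mul_ne_zero na nb)
    exact sub_eq_zero.mp h2
  have hxy : (X * Y).trace = 0 := by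
    rw [mul_zero] at i5
    exact (mul_eq_zero.mp i5).resolve_left hn
  have j3 : a2 + b2 = (m : ℂ) ^ 2 * (2 * (Pp E Λ).rank) := by
    have h1 : (h * h).trace = a2 + b2 := by
      rw [hh, add_mul, mul_add, mul_add, Matrix.trace_add, Matrix.trace_add, Matrix.trace_add,
        ← hXY, hxy, ← ha2, ← hb2]
      ring
    have h2 : (E m + E (-m)).trace = 2 * (Pp E Λ).rank := by
      have h3 : Pp E Λ = E m := by
        unfold Pp
        by_cases hmΛ : m ∈ Λ
        · rw [Finset.sum_eq_single m]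
          · intro ν hν hne
            have := (Finset.mem_filter.mp hν).2
            exact hlev ν hne this.ne' (by linarith)
          · intro h3
            exact absurd (Finset.mem_filter.mpr ⟨hmΛ, hm⟩) h3
        · rw [S.supp m hmΛ]
          apply Finset.sum_eq_zero
          intro ν hν
          have h4 := Finset.mem_filter.mp hν
          exact hlev ν (by rintro rfl; exact hmΛ h4.1) h4.2.ne' (by linarith [h4.2])
      have h4 : (E m).trace = ((Pp E Λ).rank : ℂ) := by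
        rw [h3, rank_eq_trace (D.EE m)]
      have h5 : (E (-m)).trace = (E m).trace := by rw [← D.tauE, D.inv.tr]
      rw [Matrix.trace_add, h5, h4]
      ring
    rw [← h1, l2, Matrix.trace_smul, smul_eq_mul, h2]
  have hm0 : (m : ℂ) ^ 2 ≠ 0 := pow_ne_zero 2 (by exact_mod_cast hm.ne')
  have j4 : N = 4 * (Pp E Λ).rank := by
    have h1 : (m : ℂ) ^ 2 * (N - 4 * (Pp E Λ).rank) = 0 := by
      linear_combination (1 / 2 : ℂ) * j1 + (1 / 2 : ℂ) * j2 + 2 * j3
    exact sub_eq_zero.mp ((mul_eq_zero.mp h1).resolve_left hm0)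
  have j5 : Fintype.card n = 4 * (Pp E Λ).rank := by
    rw [hN] at j4
    exact_mod_cast j4
  have j6 := D.card_eq
  omega

end Dat

end MH
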