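import Pool.Agent.Helper98.MH.Alg

/-!
Stable subspaces attached to an idempotent of the algebra.
-/

open Matrix

namespace MH

variable {n : Type*} [Fintype n] [DecidableEq n]
variable {h : Matrix n n ℂ} {E : ℝ → Matrix n n ℂ} {Λ : Finset ℝ}
variable {τ : Matrix n n ℂ →ₗ[ℂ] Matrix n n ℂ} {L : Submodule ℂ (Matrix n n ℂ)}

/-- The space `A f V`. -/
def AV (L : Submodule ℂ (Matrix n n ℂ)) (E : ℝ → Matrix n n ℂ) (f : Matrix n n ℂ) :
    Submodule ℂ (n → ℂ) :=
  Submodule.span ℂ {w | ∃ a ∈ AA L E, ∃ v : n → ℂ, w = (a * f) *ᵥ v}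

/-- The space `X f V`. -/
def XV (τ : Matrix n n ℂ →ₗ[ℂ] Matrix n n ℂ) (L : Submodule ℂ (Matrix n n ℂ))
    (E : ℝ → Matrix n n ℂ) (f : Matrix n n ℂ) : Submodule ℂ (n → ℂ) :=
  Submodule.span ℂ {w | ∃ z ∈ XX τ L E, ∃ v : n → ℂ, w = (z * f) *ᵥ v}

lemma mem_AV {f a : Matrix n n ℂ} (ha : a ∈ AA L E) (v : n → ℂ) :
    (a * f) *ᵥ v ∈ AV L E f := Submodule.subset_span ⟨a, ha, v, rfl⟩

lemma mem_XV {f z : Matrix n n ℂ} (hz : z ∈ XX τ L E) (v : n → ℂ) :
    (z * f) *ᵥ v ∈ XV τ L E f := Submodule.subset_span ⟨z, hz, v, rfl⟩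

namespace Dat

variable (D : Dat τ L h E Λ)
include D

omit D in
lemma Ld_bracket {ν ρ : ℝ} {x y : Matrix n n ℂ} (hL : ∀ x ∈ L, ∀ y ∈ L, x * y - y * x ∈ L)
    (hx : x ∈ Ld L h ν) (hy : y ∈ Ld L h ρ) : x * y - y * x ∈ Ld L h (ν + ρ) := by
  refine ⟨hL _ hx.1 _ hy.1, ?_⟩
  have e1 : h * (x * y - y * x) - (x * y - y * x) * h =
      (h * x - x * h) * y - y * (h * x - x * h) + (x * (h * y - y * h) - (h * y - y * h) * x) := by
    noncomm_ring
  rw [e1, hx.2, hy.2]
  simp only [smul_mul_assoc, mul_smul_comm]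
  rw [← smul_sub, ← smul_sub, ← add_smul]
  push_cast; rfl

lemma Ld_E0 {ν : ℝ} (hν : ν ≠ 0) {x : Matrix n n ℂ} (hx : x ∈ Ld L h ν) :
    E 0 * x * E 0 = 0 := D.Ld_block hx (by rw [sub_zero]; exact Ne.symm hν)

/-- Degree zero elements acting on `A f V`. -/
lemma zero_AV {f : Matrix n n ℂ} (hf : f ∈ AA L E) (hff : f * f = f) {x : Matrix n n ℂ}
    (hx : x ∈ Ld L h 0) {a : Matrix n n ℂ} (ha : a ∈ AA L E) (v : n → ℂ) :
    (x * (a * f)) *ᵥ v ∈ AV L E f := by
  have hxf := D.AA_bracket hx hf
  have e1 : x * f - f * x = (x * f - f * x) * f + f * (x * f - f * x) := by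
    have : x * f - f * x = x * (f * f) - (f * f) * x := by rw [hff]
    rw [this]
    simp only [sub_mul, mul_sub, mul_assoc, hff]
    rw [← mul_assoc f f, hff]
    abel
  have e2 : x * (a * f) = (x * a - a * x) * f + (a * (x * f - f * x)) * f
      + (a * f) * ((x * f - f * x) + x) := by
    have : x * (a * f) = (x * a - a * x) * f + a * ((x * f - f * x) + f * x) := by noncomm_ring
    rw [this]
    conv_lhs => rw [e1]
    noncomm_ring
  rw [e2, Matrix.add_mulVec, Matrix.add_mulVec, ← Matrix.mulVec_mulVec v (a * f)]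
  exact add_mem (add_mem (mem_AV (D.AA_bracket hx ha) v) (mem_AV (mul_mem ha hxf) v))
    (mem_AV ha _)

lemma Ld_f {f : Matrix n n ℂ} (hf : f ∈ AA L E) (hff : f * f = f) {κ : ℝ} {y : Matrix n n ℂ}
    (hy : y ∈ Ld L h κ) (v : n → ℂ) : (y * f) *ᵥ v ∈ AV L E f ⊔ XV τ L E f := by
  by_cases hκ : κ = 0
  · subst hκ
    apply Submodule.mem_sup_left
    have := D.zero_AV hf hff hy hf v
    rwa [hff] at this
  · apply Submodule.mem_sup_right
    have h1 := D.mul_AA hy.1 (D.Ld_E0 hκ hy) hf
    have := mem_XV (f := f) h1 v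
    rwa [mul_assoc, hff] at this

/-- The basic stability lemma. -/
theorem stab {f : Matrix n n ℂ} (hf : f ∈ AA L E) (hff : f * f = f) {U : Submodule ℂ (n → ℂ)}
    (hA : AV L E f ≤ U) (hX : XV τ L E f ≤ U)
    (hT : ∀ z ∈ XX τ L E, ∀ z' ∈ XX τ L E, ∀ v : n → ℂ, (τ (z * f) * (z' * f)) *ᵥ v ∈ U)
    {x : Matrix n n ℂ} (hx : x ∈ L) {w : n → ℂ} (hw : w ∈ AV L E f ⊔ XV τ L E f) :
    x *ᵥ w ∈ U := by
  classical
  have S := D.spec
  have hAX : AV L E f ⊔ XV τ L E f ≤ U := sup_le hA hX
  -- homogeneous x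
  suffices H : ∀ ν : ℝ, ∀ x ∈ Ld L h ν, ∀ w ∈ AV L E f ⊔ XV τ L E f, x *ᵥ w ∈ U by
    rw [S.sum_cmp x, Matrix.sum_mulVec]
    exact U.sum_mem fun ν _ => H ν _ (D.cmp_mem_Ld hx ν) w hw
  clear hx hw x w
  intro ν x hx w hw
  obtain ⟨w1, hw1, w2, hw2, rfl⟩ := Submodule.mem_sup.mp hw
  rw [Matrix.mulVec_add]
  refine U.add_mem ?_ ?_
  · -- A f V
    clear hw
    induction hw1 using Submodule.span_induction with
    | mem w hw =>
      obtain ⟨a, ha, v, rfl⟩ := hw
      rw [Matrix.mulVec_mulVec]
      by_cases hν : ν = 0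
      · subst hν
        exact hA (D.zero_AV hf hff hx ha v)
      · have h1 := D.mul_AA hx.1 (D.Ld_E0 hν hx) ha
        rw [← mul_assoc]
        exact hX (mem_XV h1 v)
    | zero => simp
    | add u v _ _ hu hv =>
      rw [Matrix.mulVec_add]
      exact U.add_mem hu hv
    | smul c u _ hu =>
      rw [Matrix.mulVec_smul]
      exact U.smul_mem c hu
  · -- X f V
    clear hw hw1 w1
    induction hw2 using Submodule.span_induction with
    | mem w hw =>
      obtain ⟨z, hz, v, rfl⟩ := hw
      rw [Matrix.mulVec_mulVec]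
      -- homogeneous z
      have key : ∀ ρ : ℝ, ∀ z ∈ XX τ L E, E ρ * z = z → (x * (z * f)) *ᵥ v ∈ U := by
        intro ρ z hz hρ
        have hz' : z * f ∈ XX τ L E := D.XX_mul hz hf
        have hρ' : E ρ * (z * f) = z * f := by rw [← mul_assoc, hρ]
        have hzf : z * f * f = z * f := by rw [mul_assoc, hff]
        set z' := z * f with hz'def
        have hτf : τ z' * f = 0 := by
          rw [← D.AA_left hf, ← mul_assoc, D.tau_XX_E hz', zero_mul]
        have hhat := D.hat_mem_Ld hz' hρ'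
        have hbr := Ld_bracket D.br hx hhat
        have e1 : x * z' = (x * (z' - τ z') - (z' - τ z') * x) * f
            + z' * x * f - τ z' * x * f := by
          have : (x * (z' - τ z') - (z' - τ z') * x) * f =
              x * (z' * f) - x * (τ z' * f) - z' * x * f + τ z' * x * f := by noncomm_ring
          rw [this, hτf, hzf, mul_zero]
          abel
        rw [e1, Matrix.sub_mulVec, Matrix.add_mulVec]
        refine U.sub_mem (U.add_mem (hAX (D.Ld_f hf hff hbr v)) ?_) ?_
        · -- z' x f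
          by_cases hν : ν = 0
          · subst hν
            have hxf := D.AA_bracket hx hf
            have e3 : x * f - f * x = (x * f - f * x) * f + f * (x * f - f * x) := by
              have : x * f - f * x = x * (f * f) - (f * f) * x := by rw [hff]
              rw [this]
              simp only [sub_mul, mul_sub, mul_assoc, hff]
              rw [← mul_assoc f f, hff]
              abel
            have e2 : z' * x * f = (z' * (x * f - f * x)) * f
                + (z' * f) * ((x * f - f * x) + x) := by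
              have : z' * x * f = z' * ((x * f - f * x) + f * x) := by noncomm_ring
              rw [this]
              conv_lhs => rw [e3]
              noncomm_ring
            rw [e2, Matrix.add_mulVec, ← Matrix.mulVec_mulVec v (z' * f)]
            exact U.add_mem (hX (mem_XV (D.XX_mul hz' hxf) v)) (hX (mem_XV hz' _))
          · have : z' * x * f = 0 := by
              rw [← hz'.2.2, ← D.AA_left hf]
              have : z' * E 0 * x * (E 0 * f) = z' * (E 0 * x * E 0) * f := by
                simp only [mul_assoc]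
              rw [this, D.Ld_E0 hν hx]; simp
            rw [this]; simp
        · -- τ z' x f
          by_cases hν : ν = 0
          · subst hν
            have hc := D.Ld_zero_comm hx
            have : τ z' * x * f = 0 := by
              rw [← D.AA_left hf]
              have : τ z' * x * (E 0 * f) = τ z' * (x * E 0) * f := by simp only [mul_assoc]
              rw [this, ← hc, ← mul_assoc, D.tau_XX_E hz']; simp
            rw [this]; simp
          · have h1 := D.mul_AA hx.1 (D.Ld_E0 hν hx) hf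
            have h2 := hT z hz (x * f) h1 v
            have : τ (z * f) * (x * f * f) = τ z' * x * f := by
              rw [mul_assoc x f f, hff, ← mul_assoc]
            rwa [this] at h2
      have e0 : x * (z * f) = ∑ ρ ∈ Λ, x * ((E ρ * z) * f) := by
        conv_lhs => rw [D.XX_sum (z := z), Finset.sum_mul, Finset.mul_sum]
      rw [e0, Matrix.sum_mulVec]
      refine U.sum_mem fun ρ _ => key ρ (E ρ * z) (D.XX_cmp hz ρ) ?_
      rw [← mul_assoc, S.mul, if_pos rfl]
    | zero => simp
    | add u v _ _ hu hv =>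
      rw [Matrix.mulVec_add]
      exact U.add_mem hu hv
    | smul c u _ hu =>
      rw [Matrix.mulVec_smul]
      exact U.smul_mem c hu

/-- The subspace of an idempotent and its `τ`-image is everything. -/
theorem cover {f : Matrix n n ℂ} (hf : f ∈ AA L E) (hff : f * f = f) (hf0 : f ≠ 0) :
    (AV L E f ⊔ XV τ L E f) ⊔ (AV L E (τ f) ⊔ XV τ L E (τ f)) = ⊤ := by
  have hτf : τ f ∈ AA L E := D.AA_tau hf
  have hττ : τ f * τ f = τ f := by rw [← D.inv.mul, hff]
  have hst := D.stable ((AV L E f ⊔ XV τ L E f) ⊔ (AV L E (τ f) ⊔ XV τ L E (τ f))) (by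
    intro x hx w hw
    obtain ⟨w1, hw1, w2, hw2, rfl⟩ := Submodule.mem_sup.mp hw
    rw [Matrix.mulVec_add]
    refine Submodule.add_mem _ ?_ ?_
    · refine D.stab hf hff ?_ ?_ ?_ hx hw1
      · exact le_sup_left.trans le_sup_left
      · exact le_sup_right.trans le_sup_left
      · intro z hz z' hz' v
        apply Submodule.mem_sup_right
        apply Submodule.mem_sup_left
        rw [D.inv.mul, mul_assoc, ← Matrix.mulVec_mulVec]
        have := mem_AV (L := L) (E := E) (f := τ f) hτf ((τ z * (z' * f)) *ᵥ v)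
        rwa [hττ] at this
    · refine D.stab hτf hττ ?_ ?_ ?_ hx hw2
      · exact le_sup_left.trans le_sup_right
      · exact le_sup_right.trans le_sup_right
      · intro z hz z' hz' v
        apply Submodule.mem_sup_left
        apply Submodule.mem_sup_left
        rw [D.inv.mul, D.inv.inv, mul_assoc, ← Matrix.mulVec_mulVec]
        have := mem_AV (L := L) (E := E) (f := f) hf ((τ z * (z' * τ f)) *ᵥ v)
        rwa [hff] at this)
  rcases hst with h0 | h0
  · exfalso
    apply hf0
    have h1 : AV L E f = ⊥ := by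
      rw [eq_bot_iff]
      calc AV L E f ≤ (AV L E f ⊔ XV τ L E f) ⊔ (AV L E (τ f) ⊔ XV τ L E (τ f)) :=
            le_sup_left.trans le_sup_left
        _ = ⊥ := h0
    apply Matrix.toLin'.injective
    apply LinearMap.ext
    intro v
    have h2 := mem_AV (L := L) (E := E) (f := f) hf v
    rw [h1, Submodule.mem_bot, hff] at h2
    rw [Matrix.toLin'_apply, h2]; simp
  · exact h0

/-- If the products `τ (z f) (z' f)` vanish, `f` alone covers. -/
theorem cover_one {f : Matrix n n ℂ} (hf : f ∈ AA L E) (hff : f * f = f) (hf0 : f ≠ 0)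
    (hT : ∀ z ∈ XX τ L E, ∀ z' ∈ XX τ L E, τ (z * f) * (z' * f) = 0) :
    AV L E f ⊔ XV τ L E f = ⊤ := by
  have hst := D.stable (AV L E f ⊔ XV τ L E f) (by
    intro x hx w hw
    refine D.stab hf hff le_sup_left le_sup_right ?_ hx hw
    intro z hz z' hz' v
    rw [hT z hz z' hz']; simp)
  rcases hst with h0 | h0
  · exfalso
    apply hf0
    have h1 : AV L E f = ⊥ := by
      rw [eq_bot_iff, ← h0]; exact le_sup_left
    apply Matrix.toLin'.injective
    apply LinearMap.ext
    intro v
    have h2 := mem_AV (L := L) (E := E) (f := f) hf v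
    rw [h1, Submodule.mem_bot, hff] at h2
    rw [Matrix.toLin'_apply, h2]; simp
  · exact h0

end Dat

end MH
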