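import Pool.Agent.Helper98.MH.Idl

/-!
The two-dimensional case for an element with the eigenvalues `m`, `0`, `-m`: exclusion of
`rank e = 2 * rank (E m)`, and parity of the rank of `e` in the orthogonal case.
-/

open Matrix

namespace MH

variable {n : Type*} [Fintype n] [DecidableEq n]
variable {h : Matrix n n ℂ} {E : ℝ → Matrix n n ℂ} {Λ : Finset ℝ}
variable {τ : Matrix n n ℂ →ₗ[ℂ] Matrix n n ℂ} {L : Submodule ℂ (Matrix n n ℂ)}

namespace Dat

variable (D : Dat τ L h E Λ)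
include D

lemma KK_br {a b : Matrix n n ℂ} (ha : a ∈ KK L E) (hb : b ∈ KK L E) : a * b - b * a ∈ KK L E := by
  apply D.mem_KK_of98 (D.br a ha.1 b hb.1)
  · rw [mul_sub, ← mul_assoc, ← mul_assoc, D.KK_left ha, D.KK_left hb]
  · rw [sub_mul, mul_assoc, mul_assoc, D.KK_right ha, D.KK_right hb]

/-- a two-dimensional `KK` is commutative -/
lemma KK_comm_of_two (h2 : Module.finrank ℂ (KK L E) = 2) {a b : Matrix n n ℂ} (ha : a ∈ KK L E)
    (hb : b ∈ KK L E) : a * b = b * a := by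
  by_contra hab
  set c := a * b - b * a with hc
  have hc0 : c ≠ 0 := fun h0 => hab (sub_eq_zero.mp (by rw [← hc]; exact h0))
  have hcK : c ∈ KK L E := D.KK_br ha hb
  have hli : LinearIndependent ℂ ![a, b] := by
    rw [LinearIndependent.pair_iff]
    intro s t hst
    have h3 : s • c = 0 := by
      have : s • c = (s • a + t • b) * b - b * (s • a + t • b) := by
        rw [hc, add_mul, mul_add, smul_mul_assoc, smul_mul_assoc, mul_smul_comm, mul_smul_comm,
          smul_sub]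
        abel
      rw [this, hst]; simp
    have h4 : t • c = 0 := by
      have : t • c = a * (s • a + t • b) - (s • a + t • b) * a := by
        rw [hc, add_mul, mul_add, smul_mul_assoc, smul_mul_assoc, mul_smul_comm, mul_smul_comm,
          smul_sub]
        abel
      rw [this, hst]; simp
    exact ⟨(smul_eq_zero.mp h3).resolve_right hc0, (smul_eq_zero.mp h4).resolve_right hc0⟩
  have hspan : Submodule.span ℂ (Set.range ![a, b]) = KK L E := by
    apply Submodule.eq_of_le_of_finrank_le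
    · rw [Submodule.span_le]
      rintro x ⟨i, rfl⟩
      fin_cases i
      · exact ha
      · exact hb
    · rw [h2, finrank_span_eq_card hli]
      simp
  have h5 : cᴴ ∈ Submodule.span ℂ (Set.range ![a, b]) := by rw [hspan]; exact D.KK_star hcK
  rw [Matrix.range_cons, Matrix.range_cons, Matrix.range_empty, Set.union_empty] at h5
  obtain ⟨s, t, hst⟩ := Submodule.mem_span_pair.mp h5
  have h6 : (c * a).trace = 0 := by
    rw [hc, sub_mul, Matrix.trace_sub, mul_assoc, Matrix.trace_mul_comm, sub_self]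
  have h7 : (c * b).trace = 0 := by
    rw [hc, sub_mul, Matrix.trace_sub, mul_assoc b a b, Matrix.trace_mul_comm b, sub_self]
  have h8 : (c * cᴴ).trace = 0 := by
    rw [← hst, mul_add, mul_smul_comm, mul_smul_comm, Matrix.trace_add, Matrix.trace_smul,
      Matrix.trace_smul, h6, h7, smul_zero, smul_zero, add_zero]
  apply hc0
  have h9 : (cᴴ)ᴴ * cᴴ = c * cᴴ := by rw [conjTranspose_conjTranspose]
  have h10 : cᴴ = 0 := by
    apply eq_zero_of_trace
    rw [h9, h8]; rfl
  have := congrArg conjTranspose h10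
  rwa [conjTranspose_conjTranspose, conjTranspose_zero] at this

lemma AA_comm (hK : ∀ a ∈ KK L E, ∀ b ∈ KK L E, a * b = b * a) {a b : Matrix n n ℂ}
    (ha : a ∈ AA L E) (hb : b ∈ AA L E) : a * b = b * a := by
  have h1 : ∀ k ∈ KK L E, ∀ b ∈ AA L E, b * k = k * b := by
    intro k hk b hb
    induction hb using NonUnitalAlgebra.adjoin_induction with
    | mem x hx => exact hK x hx k hk
    | add x y _ _ hx hy => rw [add_mul, mul_add, hx, hy]
    | zero => simp
    | mul x y _ _ hx hy => rw [mul_assoc, hy, ← mul_assoc, hx, mul_assoc]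
    | smul r x _ hx => rw [smul_mul_assoc, mul_smul_comm, hx]
  induction ha using NonUnitalAlgebra.adjoin_induction with
  | mem x hx => exact (h1 x hx b hb).symm
  | add x y _ _ hx hy => rw [add_mul, mul_add, hx, hy]
  | zero => simp
  | mul x y _ _ hx hy => rw [mul_assoc, hy, ← mul_assoc, hx, mul_assoc]
  | smul r x _ hx => rw [smul_mul_assoc, mul_smul_comm, hx]

variable {e : Matrix n n ℂ} (P : MinP L E e)
include P

/-- In the two-dimensional case every element of the algebra is an element of `KK` plus a multiple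
of `E 0`. -/
lemma AA_eq (hc : AV L E e ⊔ XV τ L E e = ⊤) (hd : Module.finrank ℂ (NN L E e) = 2)
    (hK : 2 ≤ Module.finrank ℂ (KK L E)) {u : Matrix n n ℂ} (hu : u ∈ NN L E e) (hu0 : u ≠ 0)
    (heu : e * u = 0) {a : Matrix n n ℂ} (ha : a ∈ AA L E) :
    ∃ k ∈ KK L E, ∃ c : ℂ, a = k + c • E 0 := by
  have hK3 : Module.finrank ℂ (KK L E) = 3 := by
    have h1 := D.finrank_KK_le3 P hc hd
    by_contra h3
    have h2 : Module.finrank ℂ (KK L E) = 2 := by omega
    apply hu0
    rw [← hu.2, D.AA_comm (fun a ha b hb => D.KK_comm_of_two h2 ha hb) hu.1 P.mem, heu]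
  obtain ⟨v, hv, hvv, hQ, _⟩ := D.E0_sum P hc
  let S : Submodule ℂ (Matrix n n ℂ) :=
    { carrier := {y | y * E 0 = y ∧ ∀ a ∈ NN L E e, y * a ∈ NN L E e}
      add_mem' := fun {x y} hx hy => ⟨by rw [add_mul, hx.1, hy.1], fun a ha => by
        rw [add_mul]; exact (NN L E e).add_mem (hx.2 a ha) (hy.2 a ha)⟩
      zero_mem' := ⟨zero_mul _, fun a _ => by rw [zero_mul]; exact (NN L E e).zero_mem⟩
      smul_mem' := fun c x hx => ⟨by rw [smul_mul_assoc, hx.1], fun a ha => by
        rw [smul_mul_assoc]; exact (NN L E e).smul_mem c (hx.2 a ha)⟩ }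
  let Φ : S →ₗ[ℂ] (NN L E e →ₗ[ℂ] NN L E e) :=
    { toFun := fun k =>
        { toFun := fun a => ⟨(k : Matrix n n ℂ) * (a : Matrix n n ℂ), k.2.2 _ a.2⟩
          map_add' := fun a b => Subtype.ext (mul_add _ _ _)
          map_smul' := fun c a => Subtype.ext (mul_smul_comm _ _ _) }
      map_add' := fun x y => LinearMap.ext fun a => Subtype.ext (add_mul _ _ _)
      map_smul' := fun c x => LinearMap.ext fun a => Subtype.ext (smul_mul_assoc _ _ _) }
  have hΦ : ∀ (k : S) (a : NN L E e), ((Φ k a : NN L E e) : Matrix n n ℂ) =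
      (k : Matrix n n ℂ) * (a : Matrix n n ℂ) := fun _ _ => rfl
  have hinj : Function.Injective Φ := by
    rw [injective_iff_map_eq_zero]
    intro k hk
    apply Subtype.ext
    have h1 : (k : Matrix n n ℂ) = 0 := by
      rw [← k.2.1, ← hQ, Finset.mul_sum]
      apply Finset.sum_eq_zero
      intro i _
      have h2 : (k : Matrix n n ℂ) * v i = 0 := by
        have := hΦ k ⟨v i, hv i⟩
        rw [hk] at this
        exact this.symm
      rw [← mul_assoc, h2, zero_mul]
    rw [h1]; rfl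
  have h1 := LinearMap.finrank_le_finrank_of_injective hinj
  rw [Module.finrank_linearMap, hd] at h1
  have hAS : ∀ a ∈ AA L E, a ∈ S := fun a ha =>
    ⟨D.AA_right ha, fun b hb => ⟨mul_mem ha hb.1, by rw [mul_assoc, hb.2]⟩⟩
  have hES : E 0 ∈ S := ⟨D.E00, fun b hb => by rw [D.AA_left hb.1]; exact hb⟩
  have hE0K : E 0 ∉ KK L E := by
    intro h5
    have h6 := D.KK_tau h5
    rw [D.tauE0] at h6
    have h7 : (2 : ℂ) • E 0 = 0 := by
      rw [two_smul]; nth_rewrite 1 [h6]; abel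
    have h8 : E 0 = 0 := (smul_eq_zero.mp h7).resolve_left two_ne_zero
    apply P.ne
    rw [← D.AA_left P.mem, h8, zero_mul]
  have hlt : KK L E < KK L E ⊔ Submodule.span ℂ {E 0} := by
    rw [lt_iff_le_and_ne]
    refine ⟨le_sup_left, fun h5 => hE0K ?_⟩
    rw [h5]
    exact Submodule.mem_sup_right (Submodule.mem_span_singleton_self _)
  have h2 := Submodule.finrank_lt_finrank_of_lt hlt
  have hle : KK L E ⊔ Submodule.span ℂ {E 0} ≤ S := by
    refine sup_le (fun k hk => hAS k (D.KK_le k hk)) ?_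
    rw [Submodule.span_le, Set.singleton_subset_iff]
    exact hES
  have heq : KK L E ⊔ Submodule.span ℂ {E 0} = S :=
    Submodule.eq_of_le_of_finrank_le hle (by omega)
  have h3 := hAS a ha
  rw [← heq] at h3
  obtain ⟨k, hk, y, hy, rfl⟩ := Submodule.mem_sup.mp h3
  obtain ⟨c, rfl⟩ := Submodule.mem_span_singleton.mp hy
  exact ⟨k, hk, c, rfl⟩

lemma tr_KK {k : Matrix n n ℂ} (hk : k ∈ KK L E) : k.trace = 0 := by
  have h1 := D.inv.tr k
  rw [D.KK_tau hk, Matrix.trace_neg] at h1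
  have h2 : (2 : ℂ) * k.trace = 0 := by rw [two_mul]; nth_rewrite 1 [← h1]; ring
  exact (mul_eq_zero.mp h2).resolve_left two_ne_zero

lemma trE0_ne : (E 0).trace ≠ 0 := by
  intro h0
  have h1 : E 0 = 0 := by
    apply eq_zero_of_trace
    rw [D.spec.star, D.E00, h0]; rfl
  apply P.ne
  rw [← D.AA_left P.mem, h1, zero_mul]

/-- The facts on `u` and `e` in the two-dimensional case. -/
lemma two_facts (hc : AV L E e ⊔ XV τ L E e = ⊤) (hd : Module.finrank ℂ (NN L E e) = 2)
    (hK : 2 ≤ Module.finrank ℂ (KK L E)) {u : Matrix n n ℂ} (hu : u ∈ NN L E e) (hu0 : u ≠ 0)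
    (heu : e * u = 0) :
    e * τ e = 0 ∧ τ u = -u ∧ u ∈ KK L E ∧ ∃ t : ℂ, t ≠ 0 ∧ uᴴ * u = t • e ∧ u * uᴴ = t • τ e := by
  have hE := D.trE0_ne P
  have hE2 : (E 0).trace = 2 * e.trace := by
    obtain ⟨_, _, _, _, hr⟩ := D.E0_sum P hc
    rw [← rank_eq_trace D.E00, hr, hd, ← rank_eq_trace P.idem]
    push_cast; ring
  obtain ⟨k, hk, c, hkc⟩ := D.AA_eq P hc hd hK hu hu0 heu P.mem
  have hc2 : c = 1 / 2 := by
    have h1 := congrArg Matrix.trace hkc
    rw [Matrix.trace_add, D.tr_KK P hk, Matrix.trace_smul, smul_eq_mul, zero_add, hE2] at h1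
    have h2 := D.e_tr_ne P
    have h3 : e.trace * (1 - c * 2) = 0 := by linear_combination h1
    have h4 := (mul_eq_zero.mp h3).resolve_left h2
    linear_combination -(1 / 2 : ℂ) * h4
  have hτe : e + τ e = E 0 := by
    have h1 := congrArg τ hkc
    rw [map_add, D.KK_tau hk, map_smul, D.tauE0, hc2] at h1
    rw [hc2] at hkc
    rw [h1]
    nth_rewrite 1 [hkc]
    have : k + (1 / 2 : ℂ) • E 0 + (-k + (1 / 2 : ℂ) • E 0) = ((1 / 2 : ℂ) + 1 / 2) • E 0 := by
      rw [add_smul]; abel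
    rw [this]
    norm_num
  have he : e * τ e = 0 := by
    have : τ e = E 0 - e := by rw [← hτe]; abel
    rw [this, mul_sub, P.idem, D.AA_right P.mem, sub_self]
  have huK : u ∈ KK L E := by
    obtain ⟨k', hk', c', hkc'⟩ := D.AA_eq P hc hd hK hu hu0 heu hu.1
    have h1 : u.trace = 0 := by rw [← hu.2, Matrix.trace_mul_comm, heu, Matrix.trace_zero]
    have h2 := congrArg Matrix.trace hkc'
    rw [h1, Matrix.trace_add, D.tr_KK P hk', Matrix.trace_smul, smul_eq_mul, zero_add] at h2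
    have h3 : c' = 0 := (mul_eq_zero.mp h2.symm).resolve_right hE
    rw [h3, zero_smul, add_zero] at hkc'
    rw [hkc']; exact hk'
  obtain ⟨t, ht⟩ := D.NN_rel P hu hu
  have ht0 : t ≠ 0 := by
    intro h0
    rw [h0, zero_smul] at ht
    exact hu0 (eq_zero_of_mul ht)
  have hτu : τ e * u = u := by
    have : τ e = E 0 - e := by rw [← hτe]; abel
    rw [this, sub_mul, heu, sub_zero, D.AA_left hu.1]
  have hτu' : uᴴ * τ e = uᴴ := by
    have := congrArg conjTranspose hτu
    rwa [conjTranspose_mul, D.tau_star_e P] at this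
  refine ⟨he, D.KK_tau huK, huK, t, ht0, ht, ?_⟩
  obtain ⟨s, hs⟩ := (D.tau_minP P).min (u * uᴴ) (mul_mem hu.1 (D.AA_star hu.1))
  have hs' : u * uᴴ = s • τ e := by
    rw [← hs, ← mul_assoc, hτu, mul_assoc, hτu']
  have h1 := congrArg Matrix.trace hs'
  rw [Matrix.trace_mul_comm, ht, Matrix.trace_smul, Matrix.trace_smul, D.inv.tr, smul_eq_mul,
    smul_eq_mul] at h1
  rw [hs', mul_right_cancel₀ (D.e_tr_ne P) h1]

/-- The basic relation. -/
lemma two_rel {u : Matrix n n ℂ} (hu : u ∈ NN L E e) (heu : e * u = 0) (hτu : τ u = -u) {t : ℂ}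
    (ht0 : t ≠ 0) (ht : uᴴ * u = t • e) (ht' : u * uᴴ = t • τ e) {z1 z2 : Matrix n n ℂ}
    (hz1 : z1 ∈ XX τ L E) (hz1e : z1 * e = z1) (hz2 : z2 ∈ XX τ L E) (hz2e : z2 * e = z2) :
    t⁻¹ • (uᴴ * τ (z2ᴴ * z1) * u) + z2ᴴ * z1 = (2 * (z2ᴴ * z1).trace / e.trace) • e := by
  have hκ := D.kap P hu heu hz1 hz1e hz2 hz2e
  set w := z2ᴴ * z1 with hw
  have hew : w * e = w := by rw [hw, mul_assoc, hz1e]
  have hwe : e * w = w := by rw [hw, ← mul_assoc, D.e_left_star P hz2e]
  have huA : uᴴ ∈ AA L E := D.AA_star hu.1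
  have heuH : e * uᴴ = uᴴ := D.e_left_star P hu.2
  obtain ⟨c, hc⟩ := P.min (uᴴ * (τ w * τ u - u * w)) (mul_mem huA (D.KK_le _ hκ))
  have h1 : e * (uᴴ * (τ w * τ u - u * w)) * e = -(uᴴ * τ w * u + t • w) := by
    have e1 : e * (uᴴ * (τ w * τ u - u * w)) * e
        = (e * uᴴ) * (τ w * τ u) * e - (e * uᴴ) * (u * w) * e := by noncomm_ring
    rw [e1, heuH, hτu, ← mul_assoc uᴴ u w, ht, smul_mul_assoc, hwe, smul_mul_assoc, hew]
    have e2 : uᴴ * (τ w * -u) * e = -(uᴴ * τ w * (u * e)) := by noncomm_ring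
    rw [e2, hu.2, neg_add]
    abel
  rw [h1] at hc
  have hτw : τ w * τ e = τ w := by rw [← D.inv.mul, hwe]
  have h2 : (uᴴ * τ w * u).trace = t * w.trace := by
    rw [Matrix.trace_mul_comm, ← mul_assoc, ht', smul_mul_assoc, Matrix.trace_smul,
      Matrix.trace_mul_comm, hτw, D.inv.tr, smul_eq_mul]
  have h3 := congrArg Matrix.trace hc
  rw [Matrix.trace_neg, Matrix.trace_add, h2, Matrix.trace_smul, Matrix.trace_smul, smul_eq_mul,
    smul_eq_mul] at h3
  have he0 := D.e_tr_ne P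
  have h4 : c = -(2 * t * w.trace / e.trace) := by
    field_simp
    linear_combination -h3
  have h5 : uᴴ * τ w * u + t • w = (2 * t * w.trace / e.trace) • e := by
    have := congrArg (fun M => -M) hc
    simp only [neg_neg] at this
    rw [this, h4, neg_smul, neg_neg]
  have h6 := congrArg (fun M => t⁻¹ • M) h5
  simp only [smul_add, smul_smul] at h6
  rw [inv_mul_cancel₀ ht0, one_smul] at h6
  rw [h6]
  congr 1
  field_simp

/-- If `rank e = 2 * rank (E ρ)`, then `z zᴴ` is a multiple of `E ρ`. -/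
lemma sq_scalar {u : Matrix n n ℂ} (hu : u ∈ NN L E e) (heu : e * u = 0) (hτu : τ u = -u) {t : ℂ}
    (ht0 : t ≠ 0) (ht : uᴴ * u = t • e) (ht' : u * uᴴ = t • τ e) {ρ : ℝ}
    (hr : e.rank = 2 * (E ρ).rank) {z : Matrix n n ℂ} (hz : z ∈ MM τ L E e ρ) :
    z * zᴴ = ((zᴴ * z).trace / (E ρ).trace) • E ρ ∧
      z * (zᴴ * z) = ((zᴴ * z).trace / (E ρ).trace) • z := by
  by_cases hz0 : z = 0
  · subst hz0; simp
  obtain ⟨hzX, hze, hzρ⟩ := hz
  have hrel := D.two_rel P hu heu hτu ht0 ht ht' hzX hze hzX hze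
  set w := zᴴ * z with hw
  have hetr : e.trace = 2 * (E ρ).trace := by
    rw [← rank_eq_trace P.idem, hr, ← rank_eq_trace (D.EE ρ)]; push_cast; ring
  have he0 := D.e_tr_ne P
  have hρ0 : (E ρ).trace ≠ 0 := by
    intro h0; rw [h0, mul_zero] at hetr; exact he0 hetr
  set c : ℂ := w.trace / (E ρ).trace with hcdef
  have hcc : 2 * w.trace / e.trace = c := by
    rw [hcdef, hetr]; field_simp
  rw [hcc] at hrel
  have hwtr : w.trace ≠ 0 := by
    intro h0
    have := trace_pos hz0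
    rw [← hw, h0] at this
    simp at this
  have hc0 : c ≠ 0 := div_ne_zero hwtr hρ0
  have hcr : star c = c := by
    have h1 : star w.trace = w.trace := (star_tr z z).symm
    have h2 : star (E ρ).trace = (E ρ).trace := by
      rw [← Matrix.trace_conjTranspose, D.spec.star]
    rw [hcdef, star_div₀, h1, h2]
  set W := t⁻¹ • (uᴴ * τ w * u) with hW
  have hew : w * e = w := by rw [hw, mul_assoc, hze]
  have hwe : e * w = w := by rw [hw, ← mul_assoc, D.e_left_star P hze]
  have hWeq : W = c • e - w := by rw [← hrel]; abel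
  have hcomm : w * W = W * w := by
    rw [hWeq, mul_sub, sub_mul, mul_smul_comm, smul_mul_assoc, hew, hwe]
  have hwW : w * W = 0 := by
    have hr0 : ∀ C : Matrix n n ℂ, C.rank = Module.finrank ℂ (LinearMap.range (Matrix.toLin' C)) := by
      intro C
      rw [Matrix.rank_eq_finrank_range_toLin C (Pi.basisFun ℂ n) (Pi.basisFun ℂ n),
        Matrix.toLin_eq_toLin']
    have hrw : w.rank ≤ (E ρ).rank := by
      have e1 : w = zᴴ * E ρ * z := by rw [hw, mul_assoc, hzρ]
      rw [e1]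
      exact (Matrix.rank_mul_le_left _ _).trans (Matrix.rank_mul_le_right _ _)
    have hrW : W.rank ≤ (E ρ).rank := by
      have hτz : τ z = τ z * E (-ρ) := by
        have := congrArg τ hzρ
        rw [D.inv.mul, D.tauE] at this
        exact this.symm
      have e1 : W = (t⁻¹ • (uᴴ * τ z)) * E (-ρ) * (τ zᴴ * u) := by
        rw [hW, hw, D.inv.mul, smul_mul_assoc, smul_mul_assoc]
        congr 1
        conv_lhs => rw [hτz]
        simp only [mul_assoc]
      rw [e1, ← D.rank_neg ρ]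
      exact (Matrix.rank_mul_le_left _ _).trans (Matrix.rank_mul_le_right _ _)
    set R1 := LinearMap.range (Matrix.toLin' w) with hR1
    set R2 := LinearMap.range (Matrix.toLin' W) with hR2
    have hle : LinearMap.range (Matrix.toLin' e) ≤ R1 ⊔ R2 := by
      rintro v ⟨x, rfl⟩
      have h1 : e *ᵥ x = w *ᵥ (c⁻¹ • x) + W *ᵥ (c⁻¹ • x) := by
        rw [← Matrix.add_mulVec, add_comm w W, hrel, Matrix.smul_mulVec, Matrix.mulVec_smul,
          smul_smul, mul_inv_cancel₀ hc0, one_smul]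
      rw [Matrix.toLin'_apply, h1]
      exact Submodule.add_mem_sup ⟨c⁻¹ • x, Matrix.toLin'_apply _ _⟩ ⟨c⁻¹ • x, Matrix.toLin'_apply _ _⟩
    have h1 := Submodule.finrank_mono hle
    have h2 := Submodule.finrank_sup_add_finrank_inf_eq R1 R2
    rw [← hr0 e] at h1
    rw [hR1, hR2, ← hr0 w, ← hr0 W, ← hR1, ← hR2] at h2
    have h3 : Module.finrank ℂ (R1 ⊓ R2 : Submodule ℂ (n → ℂ)) = 0 := by omega
    have h4 : R1 ⊓ R2 = ⊥ := Submodule.finrank_eq_zero.mp h3
    apply mat_ext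
    intro v
    have h5 : (w * W) *ᵥ v ∈ R1 ⊓ R2 := by
      constructor
      · exact ⟨W *ᵥ v, by rw [Matrix.toLin'_apply, Matrix.mulVec_mulVec]⟩
      · exact ⟨w *ᵥ v, by rw [Matrix.toLin'_apply, Matrix.mulVec_mulVec, hcomm]⟩
    rw [h4, Submodule.mem_bot] at h5
    rw [h5]; simp
  have hww : w * w = c • w := by
    have h1 : w * (c • e - w) = 0 := by rw [← hWeq, hwW]
    rw [mul_sub, mul_smul_comm, hew, sub_eq_zero] at h1
    exact h1.symm
  have hwH : wᴴ = w := by rw [hw, conjTranspose_mul, conjTranspose_conjTranspose]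
  have hzw : z * w = c • z := by
    have h1 : (z * w - c • z)ᴴ * (z * w - c • z) = 0 := by
      rw [conjTranspose_sub, conjTranspose_mul, conjTranspose_smul, hwH, hcr]
      have e1 : (w * zᴴ - c • zᴴ) * (z * w - c • z)
          = w * (zᴴ * z) * w - c • (w * (zᴴ * z)) - c • ((zᴴ * z) * w) + c • c • (zᴴ * z) := by
        simp only [sub_mul, mul_sub, smul_mul_assoc, mul_smul_comm, mul_assoc, smul_sub]
        abel
      rw [e1, ← hw, hww, smul_mul_assoc, hww]
      abel
    exact sub_eq_zero.mp (eq_zero_of_mul h1)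
  refine ⟨?_, hzw⟩
  set F := E ρ - c⁻¹ • (z * zᴴ) with hF
  have hHs : (z * zᴴ)ᴴ = z * zᴴ := by rw [conjTranspose_mul, conjTranspose_conjTranspose]
  have hcir : star c⁻¹ = c⁻¹ := by rw [star_inv₀, hcr]
  have hFs : Fᴴ = F := by
    rw [hF, conjTranspose_sub, conjTranspose_smul, hHs, D.spec.star, hcir]
  have hH2 : (z * zᴴ) * (z * zᴴ) = c • (z * zᴴ) := by
    have : (z * zᴴ) * (z * zᴴ) = z * w * zᴴ := by rw [hw]; simp only [mul_assoc]
    rw [this, hzw, smul_mul_assoc]
  have hEH : E ρ * (z * zᴴ) = z * zᴴ := by rw [← mul_assoc, hzρ]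
  have hHE : (z * zᴴ) * E ρ = z * zᴴ := by
    have := congrArg conjTranspose hEH
    rwa [conjTranspose_mul, hHs, D.spec.star] at this
  have hFF : Fᴴ * F = F := by
    rw [hFs, hF, sub_mul, mul_sub, mul_sub, D.EE, mul_smul_comm, hEH, smul_mul_assoc, hHE,
      smul_mul_assoc, mul_smul_comm, hH2, smul_smul c⁻¹ c, inv_mul_cancel₀ hc0, one_smul]
    abel
  have hFt : F.trace = 0 := by
    rw [hF, Matrix.trace_sub, Matrix.trace_smul, Matrix.trace_mul_comm, ← hw, smul_eq_mul, hcdef]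
    field_simp
    ring
  have hF0 : F = 0 := by
    apply eq_zero_of_trace
    rw [hFF, hFt]; rfl
  rw [hF, sub_eq_zero] at hF0
  rw [hF0, smul_smul, mul_inv_cancel₀ hc0, one_smul]

/-- polarised form -/
lemma pol_scalar {u : Matrix n n ℂ} (hu : u ∈ NN L E e) (heu : e * u = 0) (hτu : τ u = -u) {t : ℂ}
    (ht0 : t ≠ 0) (ht : uᴴ * u = t • e) (ht' : u * uᴴ = t • τ e) {ρ : ℝ}
    (hr : e.rank = 2 * (E ρ).rank) {x y : Matrix n n ℂ} (hx : x ∈ MM τ L E e ρ)
    (hy : y ∈ MM τ L E e ρ) : x * yᴴ = ((yᴴ * x).trace / (E ρ).trace) • E ρ := by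
  have q : ∀ z ∈ MM τ L E e ρ, z * zᴴ - ((zᴴ * z).trace / (E ρ).trace) • E ρ = 0 := fun z hz =>
    sub_eq_zero.mpr (D.sq_scalar P hu heu hτu ht0 ht ht' hr hz).1
  have q1 := q x hx
  have q2 := q y hy
  have q3 := q (x + y) ((MM τ L E e ρ).add_mem hx hy)
  have q4 := q (x + Complex.I • y) ((MM τ L E e ρ).add_mem hx ((MM τ L E e ρ).smul_mem _ hy))
  set a : Matrix n n ℂ := x * yᴴ - ((yᴴ * x).trace / (E ρ).trace) • E ρ with ha
  set b : Matrix n n ℂ := y * xᴴ - ((xᴴ * y).trace / (E ρ).trace) • E ρ with hb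
  have e3 : a + b = 0 := by
    have : a + b = ((x + y) * (x + y)ᴴ - (((x + y)ᴴ * (x + y)).trace / (E ρ).trace) • E ρ)
        - (x * xᴴ - ((xᴴ * x).trace / (E ρ).trace) • E ρ)
        - (y * yᴴ - ((yᴴ * y).trace / (E ρ).trace) • E ρ) := by
      rw [ha, hb]
      simp only [conjTranspose_add, add_mul, mul_add, Matrix.trace_add, add_div, add_smul]
      abel
    rw [this, q1, q2, q3]; simp
  have e4 : a - b = 0 := by
    have hI : (Complex.I • y)ᴴ = -(Complex.I • yᴴ) := by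
      rw [conjTranspose_smul, ← neg_smul]
      congr 1
      exact Complex.conj_I
    have h1 : (x + Complex.I • y) * (x + Complex.I • y)ᴴ
        = x * xᴴ + y * yᴴ - Complex.I • (x * yᴴ) + Complex.I • (y * xᴴ) := by
      rw [conjTranspose_add, hI]
      simp only [add_mul, mul_add, mul_neg, smul_mul_assoc, mul_smul_comm, smul_add, smul_neg,
        smul_smul, Complex.I_mul_I, neg_smul, one_smul, neg_neg, neg_add]
      abel
    have h2 : ((x + Complex.I • y)ᴴ * (x + Complex.I • y))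
        = xᴴ * x + yᴴ * y + Complex.I • (xᴴ * y) - Complex.I • (yᴴ * x) := by
      rw [conjTranspose_add, hI]
      simp only [add_mul, mul_add, neg_mul, smul_mul_assoc, mul_smul_comm, smul_add, smul_neg,
        smul_smul, Complex.I_mul_I, neg_smul, one_smul, neg_neg, neg_add]
      abel
    rw [h1, h2] at q4
    have h3 : Complex.I • (a - b) = (x * xᴴ - ((xᴴ * x).trace / (E ρ).trace) • E ρ)
        + (y * yᴴ - ((yᴴ * y).trace / (E ρ).trace) • E ρ)
        - (x * xᴴ + y * yᴴ - Complex.I • (x * yᴴ) + Complex.I • (y * xᴴ)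
          - ((xᴴ * x + yᴴ * y + Complex.I • (xᴴ * y) - Complex.I • (yᴴ * x)).trace
            / (E ρ).trace) • E ρ) := by
      rw [ha, hb]
      simp only [Matrix.trace_add, Matrix.trace_sub, Matrix.trace_smul, smul_eq_mul, add_div,
        sub_div, add_smul, sub_smul, smul_sub, smul_smul, mul_div_assoc]
      abel
    rw [q1, q2, q4] at h3
    have h4 : Complex.I • (a - b) = 0 := by rw [h3]; simp
    exact (smul_eq_zero.mp h4).resolve_left Complex.I_ne_zero
  have h5 : (2 : ℂ) • a = 0 := by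
    rw [two_smul]
    have : a + a = (a + b) + (a - b) := by abel
    rw [this, e3, e4, add_zero]
  have h6 : a = 0 := (smul_eq_zero.mp h5).resolve_left two_ne_zero
  rw [ha, sub_eq_zero] at h6
  exact h6

/-- If `rank e = 2 * rank (E ρ)`, orthogonal elements of degree `ρ` vanish. -/
lemma orth_zero (heτ : e * τ e = 0) {u : Matrix n n ℂ} (hu : u ∈ NN L E e) (heu : e * u = 0)
    (hτu : τ u = -u) {t : ℂ}
    (ht0 : t ≠ 0) (ht : uᴴ * u = t • e) (ht' : u * uᴴ = t • τ e) {ρ : ℝ}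
    (hr : e.rank = 2 * (E ρ).rank) {x y : Matrix n n ℂ} (hx : x ∈ MM τ L E e ρ)
    (hy : y ∈ MM τ L E e ρ) (hxy : (yᴴ * x).trace = 0) (hy0 : y ≠ 0) : x = 0 := by
  have h1 := D.pol_scalar P hu heu hτu ht0 ht ht' hr hx hy
  rw [hxy, zero_div, zero_smul] at h1
  have hX := hx.1
  have hY := hy.1
  -- the bracket
  have hb := D.br _ hX.1 _ (D.st _ hY.1)
  have e1 : (y - τ y)ᴴ = yᴴ - τ (yᴴ) := by rw [conjTranspose_sub, D.inv.star]
  have hyH0 : yᴴ * E 0 = 0 := D.star_E0 hY.2.1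
  have hE0yH : E 0 * yᴴ = yᴴ := by
    have := congrArg conjTranspose hY.2.2
    rwa [conjTranspose_mul, D.spec.star] at this
  have hτyH : E 0 * τ (yᴴ) = 0 := by
    have := congrArg τ hyH0
    rwa [D.inv.mul, D.tauE0, map_zero] at this
  have hτyH2 : τ (yᴴ) * E 0 = τ (yᴴ) := by
    have := congrArg τ hE0yH
    rwa [D.inv.mul, D.tauE0] at this
  have f1 : x * τ (yᴴ) = 0 := by rw [← hX.2.2, mul_assoc, hτyH, mul_zero]
  have f2 : τ x * yᴴ = 0 := by rw [← hE0yH, ← mul_assoc, D.tau_XX_E hX, zero_mul]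
  have f3 : yᴴ * τ x = 0 := by rw [← D.E_tau_XX hX, ← mul_assoc, hyH0, zero_mul]
  have f4 : τ (yᴴ) * x = 0 := by rw [← hτyH2, mul_assoc, hX.2.1, mul_zero]
  have f6 : τ (yᴴ) * τ x = 0 := by rw [← D.inv.mul, h1, map_zero]
  have hκ : (x - τ x) * (yᴴ - τ (yᴴ)) - (yᴴ - τ (yᴴ)) * (x - τ x)
      = τ x * τ (yᴴ) - yᴴ * x := by
    have : (x - τ x) * (yᴴ - τ (yᴴ)) - (yᴴ - τ (yᴴ)) * (x - τ x)
        = x * yᴴ - x * τ (yᴴ) - τ x * yᴴ + τ x * τ (yᴴ) - yᴴ * x + yᴴ * τ x
          + τ (yᴴ) * x - τ (yᴴ) * τ x := by noncomm_ring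
    rw [this, f1, f2, f3, f4, h1, f6]
    noncomm_ring
  rw [e1, hκ] at hb
  have hκK : τ x * τ (yᴴ) - yᴴ * x ∈ KK L E := by
    apply D.mem_KK_of98 hb
    · rw [mul_sub, ← mul_assoc, D.E_tau_XX hX, ← mul_assoc, hE0yH]
    · rw [sub_mul, mul_assoc, hτyH2, mul_assoc, hX.2.2]
  obtain ⟨c, hc⟩ := P.min _ (D.KK_le _ hκK)
  have hew : yᴴ * x * e = yᴴ * x := by rw [mul_assoc, hx.2.1]
  have hwe : e * (yᴴ * x) = yᴴ * x := by rw [← mul_assoc, D.e_left_star P hy.2.1]
  have hτx : τ e * τ x = τ x := by rw [← D.inv.mul, hx.2.1]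
  have h2 : e * (τ x * τ (yᴴ) - yᴴ * x) * e = -(yᴴ * x) := by
    rw [mul_sub, sub_mul, hwe, hew, ← hτx]
    have : e * (τ e * τ x * τ (yᴴ)) * e = (e * τ e) * τ x * τ (yᴴ) * e := by
      simp only [mul_assoc]
    rw [this, heτ]; simp
  rw [h2] at hc
  have h3 := congrArg Matrix.trace hc
  rw [Matrix.trace_neg, hxy, neg_zero, Matrix.trace_smul, smul_eq_mul] at h3
  have h4 : c = 0 := (mul_eq_zero.mp h3.symm).resolve_right (D.e_tr_ne P)
  rw [h4, zero_smul, neg_eq_zero] at hc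
  have h5 := (D.sq_scalar P hu heu hτu ht0 ht ht' hr hy).1
  have h6 : ((yᴴ * y).trace / (E ρ).trace) • x = 0 := by
    have : ((yᴴ * y).trace / (E ρ).trace) • (E ρ * x) = y * (yᴴ * x) := by
      rw [← smul_mul_assoc, ← h5, mul_assoc]
    rw [hx.2.2, hc, mul_zero] at this
    exact this
  have hρ0 : (E ρ).trace ≠ 0 := by
    intro h0
    have hetr : e.trace = 2 * (E ρ).trace := by
      rw [← rank_eq_trace P.idem, hr, ← rank_eq_trace (D.EE ρ)]; push_cast; ring
    rw [h0, mul_zero] at hetr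
    exact D.e_tr_ne P hetr
  have hyt : (yᴴ * y).trace ≠ 0 := by
    intro h0
    have := trace_pos hy0
    rw [h0] at this
    simp at this
  exact (smul_eq_zero.mp h6).resolve_left (div_ne_zero hyt hρ0)

/-- **The small case for three eigenvalues.** -/
theorem small_ne (hP0 : Pp E Λ ≠ 0) (hc : AV L E e ⊔ XV τ L E e = ⊤)
    (hd : Module.finrank ℂ (NN L E e) = 2)
    (hK : 2 ≤ Module.finrank ℂ (KK L E)) {m : ℝ} (hm : 0 < m)
    (hlev : ∀ ν, ν ≠ m → ν ≠ 0 → ν ≠ -m → E ν = 0) : e.rank ≠ 2 * (E m).rank := by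
  intro hr
  obtain ⟨u, hu, hu0, heu⟩ := D.exists_u2 P hd.ge
  obtain ⟨heτ, hτu, _, t, ht0, ht, ht'⟩ := D.two_facts P hc hd hK hu hu0 heu
  have hup : ∀ x ∈ Lup L E, x * e ∈ MM τ L E e m := by
    intro x hx
    have h0 : E 0 * x * E 0 = 0 := hx.2 0 0 (lt_irrefl _)
    refine ⟨D.mul_AA hx.1 h0 P.mem, by rw [mul_assoc, P.idem], ?_⟩
    have hblk : ∀ μ, μ ≠ m → E μ * (x * e) = 0 := by
      intro μ hμ
      have h1 : E μ * (x * e) = E μ * x * E 0 * e := by
        rw [mul_assoc (E μ * x), D.AA_left P.mem, mul_assoc]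
      rw [h1]
      by_cases h2 : 0 < μ
      · rw [hlev μ hμ h2.ne' (by linarith)]; simp
      · rw [hx.2 μ 0 h2, zero_mul]
    have h3 : x * e = ∑ μ ∈ Λ ∪ {m}, E μ * (x * e) := by
      have h4 : ∑ μ ∈ Λ ∪ {m}, E μ = 1 := by
        rw [← D.spec.sum]
        symm
        apply Finset.sum_subset Finset.subset_union_left
        intro μ _ hμ
        exact D.spec.supp μ hμ
      rw [← Finset.sum_mul, h4, one_mul]
    have h5 : ∑ μ ∈ Λ ∪ {m}, E μ * (x * e) = E m * (x * e) := by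
      apply Finset.sum_eq_single m
      · intro μ _ hμ; exact hblk μ hμ
      · intro h6; exact absurd (Finset.mem_union_right _ (Finset.mem_singleton_self m)) h6
    rw [← h5, ← h3]
  have hkill : ∀ v : n → ℂ, (∀ x ∈ Lup L E, (x * e) *ᵥ v = 0) → e *ᵥ v = 0 := by
    intro v hv
    apply D.killed hP0
    · rw [Matrix.mulVec_mulVec, D.AA_left P.mem]
    · intro x hx
      rw [Matrix.mulVec_mulVec, hv x hx]
  by_cases hz : ∃ z ∈ MM τ L E e m, z ≠ 0
  · obtain ⟨z, hz, hz0⟩ := hz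
    have hzt : (zᴴ * z).trace ≠ 0 := by
      intro h0
      have := trace_pos hz0
      rw [h0] at this
      simp at this
    have hall : ∀ x ∈ MM τ L E e m, ∃ c : ℂ, x = c • z := by
      intro x hx
      refine ⟨(zᴴ * x).trace / (zᴴ * z).trace, ?_⟩
      have h1 := D.orth_zero P heτ hu heu hτu ht0 ht ht' hr
        (x := x - ((zᴴ * x).trace / (zᴴ * z).trace) • z) (y := z)
        ((MM τ L E e m).sub_mem hx ((MM τ L E e m).smul_mem _ hz)) hz (by
          rw [mul_sub, mul_smul_comm, Matrix.trace_sub, Matrix.trace_smul, smul_eq_mul]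
          field_simp
          ring) hz0
      exact sub_eq_zero.mp h1
    have hzw := (D.sq_scalar P hu heu hτu ht0 ht ht' hr hz).2
    set c := (zᴴ * z).trace / (E m).trace with hcdef
    have hzero : c • e - zᴴ * z = 0 := by
      apply mat_ext
      intro v
      have h1 : e * (c • e - zᴴ * z) = c • e - zᴴ * z := by
        rw [mul_sub, mul_smul_comm, P.idem, ← mul_assoc, D.e_left_star P hz.2.1]
      have h2 := hkill ((c • e - zᴴ * z) *ᵥ v) (by
        intro x hx
        obtain ⟨a, ha⟩ := hall _ (hup x hx)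
        rw [ha, Matrix.smul_mulVec, Matrix.mulVec_mulVec, mul_sub, mul_smul_comm, hz.2.1, hzw,
          sub_self]
        simp)
      rw [Matrix.mulVec_mulVec, h1] at h2
      rw [h2]; simp
    have h3 := congrArg Matrix.trace hzero
    have hetr : e.trace = 2 * (E m).trace := by
      rw [← rank_eq_trace P.idem, hr, ← rank_eq_trace (D.EE m)]; push_cast; ring
    have hm0 : (E m).trace ≠ 0 := by
      intro h0; rw [h0, mul_zero] at hetr; exact D.e_tr_ne P hetr
    rw [Matrix.trace_sub, Matrix.trace_smul, smul_eq_mul, Matrix.trace_zero, hetr, hcdef] at h3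
    apply hzt
    field_simp at h3
    linear_combination h3
  · push Not at hz
    apply P.ne
    apply mat_ext
    intro v
    have := hkill v (fun x hx => by rw [hz _ (hup x hx)]; simp)
    rw [this]; simp

/-- In the orthogonal case the rank of `e` is even. -/
theorem even_rank {G Gi : Matrix n n ℂ} (hG1 : Gi * G = 1) (hGs : Gᵀ = G)
    (hG : ∀ x, τ x = Gi * xᵀ * G) {u : Matrix n n ℂ} (hu : u ∈ NN L E e) (hτu : τ u = -u) {t : ℂ}
    (ht0 : t ≠ 0) (ht : uᴴ * u = t • e) : Even e.rank := by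
  classical
  have hG2 : G * Gi = 1 := mul_eq_one_comm.mp hG1
  have hsk : (G * u)ᵀ = -(G * u) := by
    have h1 : Gi * uᵀ * G = -u := by rw [← hG, hτu]
    have h2 : uᵀ * G = -(G * u) := by
      have := congrArg (fun M => G * M) h1
      simp only [← mul_assoc, hG2, one_mul, mul_neg] at this
      exact this
    rw [Matrix.transpose_mul, hGs, h2]
  have hMe : G * u * e = G * u := by rw [mul_assoc, hu.2]
  set M := G * u with hM
  have heM : eᵀ * M = M := by
    have := congrArg Matrix.transpose hMe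
    rw [Matrix.transpose_mul, hsk, mul_neg, neg_inj] at this
    exact this
  let R : Submodule ℂ (n → ℂ) := LinearMap.range (Matrix.toLin' e)
  have hR : e.rank = Module.finrank ℂ R := by
    rw [Matrix.rank_eq_finrank_range_toLin e (Pi.basisFun ℂ n) (Pi.basisFun ℂ n),
      Matrix.toLin_eq_toLin']
  let b := Module.finBasis ℂ R
  have hbe : ∀ v ∈ R, e *ᵥ v = v := by
    rintro v ⟨x, rfl⟩
    rw [Matrix.toLin'_apply, Matrix.mulVec_mulVec, P.idem]
  let K : Matrix (Fin (Module.finrank ℂ R)) (Fin (Module.finrank ℂ R)) ℂ :=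
    fun i j => (b i : n → ℂ) ⬝ᵥ (M *ᵥ (b j : n → ℂ))
  have hKs : Kᵀ = -K := by
    ext i j
    change (b j : n → ℂ) ⬝ᵥ (M *ᵥ (b i : n → ℂ)) = -((b i : n → ℂ) ⬝ᵥ (M *ᵥ (b j : n → ℂ)))
    rw [Matrix.dotProduct_mulVec, ← Matrix.mulVec_transpose, hsk, Matrix.neg_mulVec,
      neg_dotProduct, dotProduct_comm]
  have hdet : K.det ≠ 0 := by
    intro h0
    obtain ⟨x, hx0, hx⟩ := Matrix.exists_mulVec_eq_zero_iff.mpr h0
    set y : R := ∑ j, x j • b j with hy
    have hMy : ∀ i, (b i : n → ℂ) ⬝ᵥ (M *ᵥ (y : n → ℂ)) = 0 := by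
      intro i
      have h1 : ∑ j, K i j * x j = 0 := congrFun hx i
      rw [← h1, hy, AddSubmonoidClass.coe_finsetSum, Matrix.mulVec_sum, dotProduct_sum]
      apply Finset.sum_congr rfl
      intro j _
      rw [Submodule.coe_smul, Matrix.mulVec_smul, dotProduct_smul, smul_eq_mul, mul_comm]
    have hall : ∀ v : R, (v : n → ℂ) ⬝ᵥ (M *ᵥ (y : n → ℂ)) = 0 := by
      intro v
      rw [← b.sum_repr v, AddSubmonoidClass.coe_finsetSum, sum_dotProduct]
      apply Finset.sum_eq_zero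
      intro i _
      rw [Submodule.coe_smul, smul_dotProduct, hMy, smul_zero]
    have hMy0 : M *ᵥ (y : n → ℂ) = 0 := by
      apply dotProduct_eq_zero_iff.mp
      intro v
      have h1 := hall ⟨e *ᵥ v, ⟨v, Matrix.toLin'_apply _ _⟩⟩
      change (e *ᵥ v) ⬝ᵥ (M *ᵥ (y : n → ℂ)) = 0 at h1
      rw [dotProduct_comm, Matrix.dotProduct_mulVec, ← Matrix.mulVec_transpose,
        Matrix.mulVec_mulVec, heM] at h1
      exact h1
    have huy : u *ᵥ (y : n → ℂ) = 0 := by
      have h1 : Gi *ᵥ (M *ᵥ (y : n → ℂ)) = u *ᵥ (y : n → ℂ) := by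
        rw [Matrix.mulVec_mulVec, hM, ← mul_assoc, hG1, one_mul]
      rw [← h1, hMy0, Matrix.mulVec_zero]
    have hy0 : (y : n → ℂ) = 0 := by
      have h1 : uᴴ *ᵥ (u *ᵥ (y : n → ℂ)) = t • (y : n → ℂ) := by
        rw [Matrix.mulVec_mulVec, ht, Matrix.smul_mulVec, hbe _ y.2]
      rw [huy, Matrix.mulVec_zero] at h1
      exact (smul_eq_zero.mp h1.symm).resolve_left ht0
    apply hx0
    have hy1 : y = 0 := Subtype.ext hy0
    have h2 := b.linearIndependent
    rw [Fintype.linearIndependent_iff] at h2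
    funext j
    exact h2 x (by rw [← hy, hy1]) j
  rw [hR]
  by_contra hodd
  rw [Nat.not_even_iff_odd] at hodd
  apply hdet
  have h1 : K.det = -K.det := by
    conv_lhs => rw [← Matrix.det_transpose, hKs, Matrix.det_neg, Fintype.card_fin, hodd.neg_one_pow]
    ring
  have h2 : (2 : ℂ) * K.det = 0 := by rw [two_mul]; nth_rewrite 1 [h1]; ring
  exact (mul_eq_zero.mp h2).resolve_left two_ne_zero

omit P in
/-- The main case for three eigenvalues. -/
theorem exists_e2 {G Gi : Matrix n n ℂ} (hG1 : Gi * G = 1) (hGs : Gᵀ = G)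
    (hG : ∀ x, τ x = Gi * xᵀ * G) {m : ℝ} (hm : 0 < m)
    (hlev : ∀ ν, ν ≠ m → ν ≠ 0 → ν ≠ -m → E ν = 0)
    (hB : Module.finrank ℂ (KK L E) ≤ 1 → (E 0).rank ≤ (Pp E Λ).rank ^ 2)
    (hs : 2 ≤ (Pp E Λ).rank) (hb : (Pp E Λ).rank ^ 2 < (E 0).rank) :
    ∃ e : Matrix n n ℂ, MinP L E e ∧ AV L E e ⊔ XV τ L E e = ⊤ ∧
      ∀ z1 ∈ XX τ L E, z1 * e = z1 → ∀ z2 ∈ XX τ L E, z2 * e = z2 → ∃ c : ℂ, z2ᴴ * z1 = c • e := by
  have hPne : Pp E Λ ≠ 0 := by
    intro h0; rw [h0] at hs; simp at hs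
  by_cases hK1 : Module.finrank ℂ (KK L E) ≤ 1
  · exact absurd (hB hK1) (by omega)
  have hK : KK L E ≠ ⊥ := by
    intro h0; apply hK1; rw [h0]; simp
  obtain ⟨e, heA, hee, hes, he0, hmin⟩ := D.exists_min hK
  have P : MinP L E e := ⟨heA, hee, hes, he0, hmin⟩
  by_cases hI : ∃ a ∈ AA L E, e * a * τ e ≠ 0
  · have hc := D.cover_I P hI
    obtain ⟨_, _, _, _, hE0⟩ := D.E0_sum P hc
    by_cases hR : ∃ u ∈ NN L E e, u ≠ 0 ∧ e * u = 0 ∧ τ e * u = 0
    · exact ⟨e, P, hc, fun z1 h1 h1e z2 h2 h2e => D.scalars P hR h1 h1e h2 h2e⟩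
    · exfalso
      have hd3 : ¬ 3 ≤ Module.finrank ℂ (NN L E e) := fun h3 => hR (D.exists_u3 P h3)
      have hd1 := D.one_le_finrank P
      have hd1' : Module.finrank ℂ (NN L E e) ≠ 1 := fun h1 => hK (D.caseI_one P hc h1)
      have hd2 : Module.finrank ℂ (NN L E e) = 2 := by omega
      obtain ⟨u, hu, hu0, heu⟩ := D.exists_u2 P hd2.ge
      obtain ⟨ρ, hρ, z, hz, hz0⟩ := D.exists_MM P hc hPne
      have hle := D.rank_e_le P (by
        intro v hv h1 h2
        by_contra h0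
        exact hR ⟨v, hv, h0, h1, h2⟩) hu hu0 heu hz hz0
      obtain ⟨heτ, hτu, _, t, ht0, ht, ht'⟩ := D.two_facts P hc hd2 (by omega) hu hu0 heu
      have heven := D.even_rank P hG1 hGs hG hu hτu ht0 ht
      have hne := D.small_ne P hPne hc hd2 (by omega) hm hlev
      have hρm : (E ρ).rank = (E m).rank := by
        by_cases h1 : ρ = m
        · rw [h1]
        · by_cases h2 : ρ = -m
          · rw [h2, D.rank_neg]
          · exfalso
            apply hz0
            rw [← hz.2.2, hlev ρ h1 hρ h2, zero_mul]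
      have hms : (E m).rank ≤ (Pp E Λ).rank := D.rank_pos_le hm
      rw [hd2] at hE0
      rw [hρm] at hle
      obtain ⟨r', hr'⟩ := heven
      set s := (Pp E Λ).rank with hsdef
      have hPm : (E m).rank = s := by
        rw [hsdef, D.rank_Pp]
        by_cases hmΛ : m ∈ Λ
        · rw [Finset.sum_eq_single m]
          · intro ν hν hne'
            have h3 := (Finset.mem_filter.mp hν).2
            rw [hlev ν hne' h3.ne' (by linarith)]; simp
          · intro h3
            exact absurd (Finset.mem_filter.mpr ⟨hmΛ, hm⟩) h3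
        · rw [D.spec.supp m hmΛ, Matrix.rank_zero]
          symm
          apply Finset.sum_eq_zero
          intro ν hν
          have h4 := Finset.mem_filter.mp hν
          rw [hlev ν (by rintro rfl; exact hmΛ h4.1) h4.2.ne' (by linarith [h4.2])]; simp
      rw [hPm] at hle hne
      rw [hE0] at hb
      have hs4 : s < 4 := by
        by_contra h4
        have : 4 * s ≤ s ^ 2 := by rw [sq]; exact Nat.mul_le_mul_right s (by omega)
        omega
      have hs23 : s = 2 ∨ s = 3 := by omega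
      rcases hs23 with h5 | h5
      · rw [h5] at hb hle hne
        omega
      · rw [h5] at hb hle hne
        omega
  · exfalso
    push Not at hI
    by_cases hd : 2 ≤ Module.finrank ℂ (NN L E e)
    · exact D.caseII_two P hI hd
    · have hd1 := D.one_le_finrank P
      exact hK1 (D.caseII_one P hI (by omega))

omit P in
/-- **The tensor product structure** for three eigenvalues. -/
theorem units2 {G Gi : Matrix n n ℂ} (hG1 : Gi * G = 1) (hGs : Gᵀ = G)
    (hG : ∀ x, τ x = Gi * xᵀ * G) {m : ℝ} (hm : 0 < m)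
    (hlev : ∀ ν, ν ≠ m → ν ≠ 0 → ν ≠ -m → E ν = 0)
    (hB : Module.finrank ℂ (KK L E) ≤ 1 → (E 0).rank ≤ (Pp E Λ).rank ^ 2)
    (hs : 2 ≤ (Pp E Λ).rank) (hb : (Pp E Λ).rank ^ 2 < (E 0).rank) :
    ∃ e : Matrix n n ℂ, e * e = e ∧ eᴴ = e ∧ e ≠ 0 ∧
      (e.rank = 1 → ∀ x, τ x = -x → x ∈ L) ∧
      ∃ (ι : Type) (_ : Fintype ι) (_ : DecidableEq ι) (w : ι → Matrix n n ℂ) (kap : ι → ℝ),
        (∀ a, w a * e = w a) ∧ (∀ a b, (w a)ᴴ * w b = if a = b then e else 0) ∧
        (∀ ρ, ∑ a ∈ Finset.univ.filter (fun a => kap a = ρ), w a * (w a)ᴴ = E ρ) ∧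
        (∑ a, w a * (w a)ᴴ = 1) ∧ Fintype.card ι * e.rank = Fintype.card n ∧
        (∀ ρ, (Finset.univ.filter (fun a => kap a = ρ)).card * e.rank = (E ρ).rank) ∧
        ∀ l ∈ L, ∃ (c : Matrix n n ℂ) (t : ι → ι → ℂ), e * c * e = c ∧
          ∀ a b, (w a)ᴴ * l * w b = (if a = b then c else 0) + t a b • e := by
  obtain ⟨e, P, hc, hsc⟩ := D.exists_e2 hG1 hGs hG hm hlev hB hs hb
  exact D.units_e (by omega) (by omega) P hc hsc

end Dat

end MH
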