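import Pool.Agent.Helper98.MH.Defs

/-!
Basic facts: the spectral projections and `τ`, homogeneous components, stable subspaces.
-/

set_option linter.deprecated false
set_option linter.unusedSimpArgs false

open Matrix

namespace MH

variable {n : Type*} [Fintype n] [DecidableEq n]

section eig

variable {K : Type*} [Field K]

/-- Eigenvector components of an element of a stable subspace lie in the subspace. -/
lemma eig_mem {E : Type*} [AddCommGroup E] [Module K E] (D : E →ₗ[K] E) {M : Submodule K E}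
    (hD : ∀ x ∈ M, D x ∈ M) (Λ : Finset K) :
    ∀ (f : K → E), (∀ μ ∈ Λ, D (f μ) = μ • f μ) → (∑ μ ∈ Λ, f μ) ∈ M → ∀ μ ∈ Λ, f μ ∈ M := by
  classical
  induction Λ using Finset.induction_on with
  | empty => intro f _ _ μ hμ; simp at hμ
  | insert ν Λ hν ih =>
    intro f hf hs
    have h1 := hD _ hs
    have h2 := M.sub_mem h1 (M.smul_mem ν hs)
    have e : D (∑ μ ∈ insert ν Λ, f μ) - ν • (∑ μ ∈ insert ν Λ, f μ) =
        ∑ μ ∈ Λ, (μ - ν) • f μ := by
      rw [map_sum, Finset.smul_sum, ← Finset.sum_sub_distrib, Finset.sum_insert hν,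
        hf ν (Finset.mem_insert_self _ _), sub_self, zero_add]
      apply Finset.sum_congr rfl
      intro μ hμ
      rw [hf μ (Finset.mem_insert_of_mem hμ), sub_smul]
    rw [e] at h2
    have h3 := ih (fun μ => (μ - ν) • f μ) (by
      intro μ hμ
      rw [map_smul, hf μ (Finset.mem_insert_of_mem hμ), smul_comm]) h2
    have h4 : ∀ μ ∈ Λ, f μ ∈ M := by
      intro μ hμ
      have hne : μ - ν ≠ 0 := by
        intro h
        rw [sub_eq_zero] at h
        exact hν (h ▸ hμ)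
      have := M.smul_mem (μ - ν)⁻¹ (h3 μ hμ)
      simpa [smul_smul, inv_mul_cancel₀ hne] using this
    intro μ hμ
    rcases Finset.mem_insert.mp hμ with rfl | hμ
    · rw [Finset.sum_insert hν] at hs
      have := M.sub_mem hs (M.sum_mem h4)
      simpa using this
    · exact h4 μ hμ

end eig

variable {h : Matrix n n ℂ} {E : ℝ → Matrix n n ℂ} {Λ : Finset ℝ}

namespace Spec

variable (S : Spec h E Λ)
include S

lemma h_mul (μ : ℝ) : h * E μ = (μ : ℂ) • E μ := by
  rw [S.eq, Finset.sum_mul]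
  by_cases hμ : μ ∈ Λ
  · rw [Finset.sum_eq_single μ]
    · rw [smul_mul_assoc, S.mul, if_pos rfl]
    · intro ν _ hν
      rw [smul_mul_assoc, S.mul, if_neg hν, smul_zero]
    · intro h'; exact absurd hμ h'
  · simp [S.supp μ hμ]

lemma mul_h (μ : ℝ) : E μ * h = (μ : ℂ) • E μ := by
  rw [S.eq, Finset.mul_sum]
  by_cases hμ : μ ∈ Λ
  · rw [Finset.sum_eq_single μ]
    · rw [mul_smul_comm, S.mul, if_pos rfl]
    · intro ν _ hν
      rw [mul_smul_comm, S.mul, if_neg (Ne.symm hν), smul_zero]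
    · intro h'; exact absurd hμ h'
  · simp [S.supp μ hμ]

lemma hh : hᴴ = h := by
  conv_lhs => rw [S.eq]
  rw [conjTranspose_sum]
  conv_rhs => rw [S.eq]
  apply Finset.sum_congr rfl
  intro μ _
  rw [conjTranspose_smul, S.star]
  simp

lemma sandwich (x : Matrix n n ℂ) (μ μ' : ℝ) :
    E μ * (h * x - x * h) * E μ' = ((μ : ℂ) - μ') • (E μ * x * E μ') := by
  rw [mul_sub, sub_mul, ← mul_assoc (E μ) h x, S.mul_h, mul_assoc (E μ) (x * h),
    mul_assoc x h, S.h_mul, sub_smul, smul_mul_assoc, smul_mul_assoc, mul_smul_comm,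
    mul_smul_comm, mul_assoc]

/-- Decomposition into blocks. -/
lemma blocks (x : Matrix n n ℂ) : x = ∑ μ ∈ Λ, ∑ μ' ∈ Λ, E μ * x * E μ' := by
  have : x = (∑ μ ∈ Λ, E μ) * x * (∑ μ' ∈ Λ, E μ') := by rw [S.sum, one_mul, mul_one]
  conv_lhs => rw [this]
  rw [Finset.sum_mul, Finset.sum_mul]
  apply Finset.sum_congr rfl
  intro μ _
  rw [Finset.mul_sum]

/-- A matrix is determined by its blocks. -/
lemma ext {x y : Matrix n n ℂ} (hxy : ∀ μ μ', E μ * x * E μ' = E μ * y * E μ') : x = y := by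
  rw [S.blocks x, S.blocks y]
  simp only [hxy]

end Spec

/-- The component of degree `ν`. -/
noncomputable def cmp (E : ℝ → Matrix n n ℂ) (Λ : Finset ℝ) (ν : ℝ) (x : Matrix n n ℂ) :
    Matrix n n ℂ := ∑ μ ∈ Λ, E μ * x * E (μ - ν)

lemma cmp_add (ν : ℝ) (x y : Matrix n n ℂ) :
    cmp E Λ ν (x + y) = cmp E Λ ν x + cmp E Λ ν y := by
  simp only [cmp, mul_add, add_mul, Finset.sum_add_distrib]

lemma cmp_smul (ν : ℝ) (c : ℂ) (x : Matrix n n ℂ) :
    cmp E Λ ν (c • x) = c • cmp E Λ ν x := by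
  simp only [cmp, mul_smul_comm, smul_mul_assoc, Finset.smul_sum]

lemma cmp_sub (ν : ℝ) (x y : Matrix n n ℂ) :
    cmp E Λ ν (x - y) = cmp E Λ ν x - cmp E Λ ν y := by
  simp only [cmp, mul_sub, sub_mul, Finset.sum_sub_distrib]

namespace Spec

variable (S : Spec h E Λ)
include S

lemma block_cmp (ν : ℝ) (x : Matrix n n ℂ) (μ μ' : ℝ) :
    E μ * cmp E Λ ν x * E μ' = if μ - μ' = ν then E μ * x * E μ' else 0 := by
  unfold cmp
  rw [Finset.mul_sum, Finset.sum_mul]
  by_cases hμ : μ ∈ Λ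
  · rw [Finset.sum_eq_single μ]
    · rw [← mul_assoc, ← mul_assoc, S.mul, if_pos rfl, mul_assoc, S.mul]
      by_cases hc : μ - μ' = ν
      · rw [if_pos hc, if_pos (by linarith)]
        have : μ - ν = μ' := by linarith
        rw [this]
      · rw [if_neg hc, if_neg (by intro h'; apply hc; linarith), mul_zero]
    · intro ρ _ hρ
      rw [← mul_assoc, ← mul_assoc, S.mul, if_neg (Ne.symm hρ)]
      simp
    · intro h'; exact absurd hμ h'
  · rw [S.supp μ hμ]
    simp

lemma bracket_cmp (ν : ℝ) (x : Matrix n n ℂ) :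
    h * cmp E Λ ν x - cmp E Λ ν x * h = (ν : ℂ) • cmp E Λ ν x := by
  apply S.ext
  intro μ μ'
  rw [S.sandwich, mul_smul_comm, smul_mul_assoc, S.block_cmp]
  split_ifs with hc
  · congr 1
    rw [← hc]; push_cast; ring
  · simp

/-- The finite set of possible degrees. -/
lemma sum_cmp (x : Matrix n n ℂ) :
    x = ∑ ν ∈ (Λ ×ˢ Λ).image (fun p => p.1 - p.2), cmp E Λ ν x := by
  apply S.ext
  intro μ μ'
  rw [Finset.mul_sum, Finset.sum_mul]
  simp only [S.block_cmp]
  by_cases hμ : μ ∈ Λ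
  · by_cases hμ' : μ' ∈ Λ
    · rw [Finset.sum_ite_eq, if_pos]
      exact Finset.mem_image.mpr ⟨(μ, μ'), Finset.mem_product.mpr ⟨hμ, hμ'⟩, rfl⟩
    · rw [S.supp μ' hμ']; simp
  · rw [S.supp μ hμ]; simp

end Spec

variable {τ : Matrix n n ℂ →ₗ[ℂ] Matrix n n ℂ} {L : Submodule ℂ (Matrix n n ℂ)}

lemma mem_Ld {μ : ℝ} {x : Matrix n n ℂ} :
    x ∈ Ld L h μ ↔ x ∈ L ∧ h * x - x * h = (μ : ℂ) • x := Iff.rfl

lemma mem_KK {x : Matrix n n ℂ} : x ∈ KK L E ↔ x ∈ L ∧ E 0 * x * E 0 = x := Iff.rfl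

namespace Inv

variable (I : Inv τ)
include I

lemma one : τ 1 = 1 := by
  have h1 : τ (1 * τ 1) = τ (τ 1) * τ 1 := I.mul _ _
  rw [one_mul, I.inv, one_mul] at h1
  exact h1.symm

end Inv

namespace Dat

variable (D : Dat τ L h E Λ)
include D

lemma tau_h : τ h = -h := D.sk h D.mem

lemma tauE (μ : ℝ) : τ (E μ) = E (-μ) := by
  have S := D.spec
  have key : ∀ μ : ℝ, h * τ (E μ) = (-(μ : ℂ)) • τ (E μ) := by
    intro μ
    have h1 : τ (E μ * h) = τ h * τ (E μ) := D.inv.mul _ _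
    rw [S.mul_h, map_smul, D.tau_h, neg_mul] at h1
    rw [neg_smul, h1, neg_neg]
  have k2 : ∀ μ : ℝ, E (-μ) * τ (E μ) = τ (E μ) := by
    intro μ
    have h1 : ∀ ν : ℝ, ν ≠ -μ → E ν * τ (E μ) = 0 := by
      intro ν hν
      have h2 : E ν * (h * τ (E μ)) = (ν : ℂ) • (E ν * τ (E μ)) := by
        rw [← mul_assoc, S.mul_h, smul_mul_assoc]
      rw [key, mul_smul_comm] at h2
      have h3 : ((ν : ℂ) + μ) • (E ν * τ (E μ)) = 0 := by
        rw [add_smul, ← h2]; simp
      rcases smul_eq_zero.mp h3 with h4 | h4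
      · exfalso; apply hν
        have : ν + μ = 0 := by exact_mod_cast h4
        linarith
      · exact h4
    by_cases hm : -μ ∈ Λ
    · have h5 : τ (E μ) = (∑ ν ∈ Λ, E ν) * τ (E μ) := by rw [S.sum, one_mul]
      rw [Finset.sum_mul, Finset.sum_eq_single (-μ)] at h5
      · exact h5.symm
      · intro ν _ hν; exact h1 ν hν
      · intro h'; exact absurd hm h'
    · have h5 : τ (E μ) = (∑ ν ∈ Λ, E ν) * τ (E μ) := by rw [S.sum, one_mul]
      rw [Finset.sum_mul, Finset.sum_eq_zero] at h5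
      · rw [h5, mul_zero]
      · intro ν hν; apply h1; rintro rfl; exact hm hν
  have k3 := congrArg τ (k2 (-μ))
  rw [D.inv.mul, D.inv.inv, neg_neg] at k3
  rw [← k2 μ, k3]

lemma tau_block (μ μ' : ℝ) {x : Matrix n n ℂ} (hx : x ∈ L) :
    τ (E μ * x * E μ') = -(E (-μ') * x * E (-μ)) := by
  rw [D.inv.mul, D.inv.mul, D.tauE, D.tauE, D.sk x hx]
  simp [mul_assoc]

lemma cmp_mem {x : Matrix n n ℂ} (hx : x ∈ L) (ν : ℝ) : cmp E Λ ν x ∈ L := by
  classical
  have S := D.spec
  by_cases hν : ν ∈ (Λ ×ˢ Λ).image (fun p => p.1 - p.2)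
  · let A : Matrix n n ℂ →ₗ[ℂ] Matrix n n ℂ :=
      { toFun := fun y => h * y - y * h
        map_add' := by intro a b; noncomm_ring
        map_smul' := by intro c a; simp [mul_smul_comm, smul_mul_assoc, smul_sub] }
    set Q : Finset ℂ := ((Λ ×ˢ Λ).image (fun p => p.1 - p.2)).image (fun r : ℝ => (r : ℂ)) with hQ
    have := eig_mem (K := ℂ) A (M := L) (fun y hy => D.br h D.mem y hy) Q
      (fun c => cmp E Λ c.re x) (by
        intro c hc
        obtain ⟨r, _, rfl⟩ := Finset.mem_image.mp hc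
        change h * cmp E Λ ((r : ℂ)).re x - cmp E Λ ((r : ℂ)).re x * h = _
        rw [Complex.ofReal_re]
        exact S.bracket_cmp r x) (by
        rw [hQ, Finset.sum_image (by intro a _ b _ hab; exact Complex.ofReal_injective hab)]
        simp only [Complex.ofReal_re]
        rw [← S.sum_cmp x]; exact hx) (ν : ℂ) (Finset.mem_image.mpr ⟨ν, hν, rfl⟩)
    simpa using this
  · have : cmp E Λ ν x = 0 := by
      apply S.ext
      intro μ μ'
      rw [S.block_cmp]
      split_ifs with hc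
      · by_cases hμ : μ ∈ Λ
        · by_cases hμ' : μ' ∈ Λ
          · exfalso; apply hν
            exact Finset.mem_image.mpr ⟨(μ, μ'), Finset.mem_product.mpr ⟨hμ, hμ'⟩, hc⟩
          · rw [S.supp μ' hμ']; simp
        · rw [S.supp μ hμ]; simp
      · simp
    rw [this]; exact L.zero_mem

lemma cmp_mem_Ld {x : Matrix n n ℂ} (hx : x ∈ L) (ν : ℝ) : cmp E Λ ν x ∈ Ld L h ν :=
  ⟨D.cmp_mem hx ν, D.spec.bracket_cmp ν x⟩

lemma Ld_block {ν : ℝ} {x : Matrix n n ℂ} (hx : x ∈ Ld L h ν) {μ μ' : ℝ} (hne : μ - μ' ≠ ν) :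
    E μ * x * E μ' = 0 := by
  have h1 := D.spec.sandwich x μ μ'
  rw [hx.2, mul_smul_comm, smul_mul_assoc] at h1
  have h2 : (((μ : ℂ) - μ') - ν) • (E μ * x * E μ') = 0 := by
    rw [sub_smul, ← h1, sub_self]
  rcases smul_eq_zero.mp h2 with h3 | h3
  · exfalso; apply hne
    have : (μ - μ') - ν = 0 := by exact_mod_cast h3
    linarith
  · exact h3

lemma Ld_of_block {ν : ℝ} {x : Matrix n n ℂ} (hx : x ∈ L)
    (hb : ∀ μ μ' : ℝ, μ - μ' ≠ ν → E μ * x * E μ' = 0) : x ∈ Ld L h ν := by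
  refine ⟨hx, ?_⟩
  apply D.spec.ext
  intro μ μ'
  rw [D.spec.sandwich, mul_smul_comm, smul_mul_assoc]
  by_cases hc : μ - μ' = ν
  · congr 1
    rw [← hc]; push_cast; ring
  · rw [hb μ μ' hc]; simp

lemma Ld_mul_E {ν : ℝ} {x : Matrix n n ℂ} (hx : x ∈ Ld L h ν) (μ : ℝ) :
    x * E μ = E (μ + ν) * x * E μ := by
  apply D.spec.ext
  intro ρ ρ'
  by_cases h1 : ρ' = μ
  · subst h1
    by_cases h2 : ρ = ρ' + ν
    · subst h2
      simp only [← mul_assoc, D.spec.mul, if_true]
    · have e1 : E ρ * (x * E ρ') * E ρ' = E ρ * x * E ρ' := by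
        rw [← mul_assoc, mul_assoc _ (E ρ') (E ρ'), D.spec.mul, if_pos rfl]
      rw [e1, D.Ld_block hx (by intro h3; apply h2; linarith)]
      simp only [← mul_assoc, D.spec.mul, if_neg h2]
      simp
  · have e1 : E μ * E ρ' = 0 := by rw [D.spec.mul, if_neg (Ne.symm h1)]
    rw [mul_assoc, mul_assoc x, e1, mul_assoc, mul_assoc _ (E μ), e1]
    simp

/-- An `L`-stable subspace is trivial. -/
theorem stable (W : Submodule ℂ (n → ℂ)) (hW : ∀ x ∈ L, ∀ w ∈ W, x *ᵥ w ∈ W) :
    W = ⊥ ∨ W = ⊤ := by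
  classical
  set e := (WithLp.linearEquiv 2 ℂ (n → ℂ)) with he
  set U : Submodule ℂ (EuclideanSpace ℂ n) := W.comap e.toLinearMap with hU
  have hUmem : ∀ v : EuclideanSpace ℂ n, v ∈ U ↔ WithLp.ofLp v ∈ W := fun v => Iff.rfl
  have hst : ∀ x ∈ L, ∀ v ∈ U, Matrix.toEuclideanLin x v ∈ U := by
    intro x hx v hv
    rw [hUmem, Matrix.ofLp_toEuclideanLin_apply]
    exact hW x hx _ hv
  have hadj : ∀ x : Matrix n n ℂ, ∀ v w : EuclideanSpace ℂ n,
      inner ℂ (Matrix.toEuclideanLin xᴴ v) w = inner ℂ v (Matrix.toEuclideanLin x w) := by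
    intro x v w
    rw [Matrix.toEuclideanLin_conjTranspose_eq_adjoint, LinearMap.adjoint_inner_left]
  have hort : ∀ x ∈ L, ∀ v ∈ Uᗮ, Matrix.toEuclideanLin x v ∈ Uᗮ := by
    intro x hx v hv
    rw [Submodule.mem_orthogonal] at hv ⊢
    intro u hu
    rw [← hadj]
    exact hv _ (hst _ (D.st x hx) _ hu)
  let p : EuclideanSpace ℂ n →ₗ[ℂ] EuclideanSpace ℂ n := U.starProjection.toLinearMap
  have hp : ∀ v, p v = U.starProjection v := fun v => rfl
  have hcomm : ∀ x ∈ L, ∀ v, p (Matrix.toEuclideanLin x v) = Matrix.toEuclideanLin x (p v) := by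
    intro x hx v
    rw [hp, hp]
    have h1 : Matrix.toEuclideanLin x v = Matrix.toEuclideanLin x (U.starProjection v) +
        Matrix.toEuclideanLin x (v - U.starProjection v) := by
      rw [← map_add]; congr 1; abel
    exact Submodule.eq_starProjection_of_mem_orthogonal'
      (z := Matrix.toEuclideanLin x (v - U.starProjection v))
      (hst x hx _ (Submodule.starProjection_apply_mem U v))
      (hort x hx _ (Submodule.sub_starProjection_mem_orthogonal v)) h1
  obtain ⟨T, hT⟩ : ∃ T : Matrix n n ℂ, Matrix.toEuclideanLin T = p :=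
    ⟨Matrix.toEuclideanLin.symm p, by simp⟩
  obtain ⟨c, hc⟩ := D.irr T (by
    intro x hx
    apply Matrix.toEuclideanLin.injective
    apply LinearMap.ext
    intro v
    have e1 : ∀ A B : Matrix n n ℂ, Matrix.toEuclideanLin (A * B) v =
        Matrix.toEuclideanLin A (Matrix.toEuclideanLin B v) := by
      intro A B
      apply (WithLp.ofLp_injective 2)
      simp only [Matrix.ofLp_toEuclideanLin_apply, Matrix.mulVec_mulVec]
    rw [e1, e1, hT, hcomm x hx])
  have hpc : ∀ v, U.starProjection v = c • v := by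
    intro v
    rw [← hp, ← hT, hc]
    apply (WithLp.ofLp_injective 2)
    simp [Matrix.ofLp_toEuclideanLin_apply, Matrix.smul_mulVec]
  by_cases hb : W = ⊥
  · exact Or.inl hb
  · right
    obtain ⟨w, hw, hw0⟩ := Submodule.exists_mem_ne_zero_of_ne_bot hb
    have h1 : WithLp.toLp 2 w ∈ U := hw
    have h2 : U.starProjection (WithLp.toLp 2 w) = WithLp.toLp 2 w :=
      Submodule.starProjection_eq_self_iff.mpr h1
    rw [hpc] at h2
    have h3 : c = 1 := by
      have h4 : (c - 1) • (WithLp.toLp 2 w) = 0 := by rw [sub_smul, h2, one_smul, sub_self]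
      rcases smul_eq_zero.mp h4 with h5 | h5
      · exact sub_eq_zero.mp h5
      · exfalso; apply hw0
        have := congrArg WithLp.ofLp h5
        simpa using this
    rw [eq_top_iff]
    intro v _
    have h4 : U.starProjection (WithLp.toLp 2 v) = WithLp.toLp 2 v := by
      rw [hpc, h3, one_smul]
    have h5 := Submodule.starProjection_eq_self_iff.mp h4
    exact h5

end Dat

end MH
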