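import Mathlib

/-!
The complex orthogonal group of a nondegenerate symmetric form is generated by reflections.
-/

open Matrix

namespace MH

variable {n : Type*} [Fintype n] [DecidableEq n]

/-- the reflection in `u` -/
noncomputable def refl (Q : Matrix n n ℂ) (u : n → ℂ) : Matrix n n ℂ :=
  1 - (2 / (u ⬝ᵥ (Q *ᵥ u))) • Matrix.vecMulVec u (Q *ᵥ u)

lemma refl_apply (Q : Matrix n n ℂ) (u v : n → ℂ) :
    refl Q u *ᵥ v = v - (2 / (u ⬝ᵥ (Q *ᵥ u)) * ((Q *ᵥ u) ⬝ᵥ v)) • u := by
  rw [refl, Matrix.sub_mulVec, Matrix.one_mulVec, Matrix.smul_mulVec, Matrix.vecMulVec_mulVec,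
    op_smul_eq_smul, smul_smul]

omit [DecidableEq n] in
lemma form_comm {Q : Matrix n n ℂ} (hs : Qᵀ = Q) (u v : n → ℂ) :
    u ⬝ᵥ (Q *ᵥ v) = v ⬝ᵥ (Q *ᵥ u) := by
  rw [Matrix.dotProduct_mulVec, ← Matrix.mulVec_transpose, hs, dotProduct_comm]

lemma refl_sq {Q : Matrix n n ℂ} {u : n → ℂ} (h : u ⬝ᵥ (Q *ᵥ u) ≠ 0) :
    refl Q u * refl Q u = 1 := by
  apply Matrix.toLin'.injective
  apply LinearMap.ext
  intro v
  rw [Matrix.toLin'_apply, ← Matrix.mulVec_mulVec, refl_apply, refl_apply, Matrix.toLin'_apply,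
    Matrix.one_mulVec, dotProduct_sub, dotProduct_smul, smul_eq_mul, sub_sub, ← add_smul,
    dotProduct_comm (Q *ᵥ u) u]
  have : 2 / (u ⬝ᵥ Q *ᵥ u) * (Q *ᵥ u ⬝ᵥ v) + 2 / (u ⬝ᵥ Q *ᵥ u) *
      (Q *ᵥ u ⬝ᵥ v - 2 / (u ⬝ᵥ Q *ᵥ u) * (Q *ᵥ u ⬝ᵥ v) * (u ⬝ᵥ Q *ᵥ u)) = 0 := by
    field_simp
    ring
  rw [this]; simp

/-- A matrix is an isometry if and only if it preserves the form. -/
lemma isom_iff {Q g : Matrix n n ℂ} :
    gᵀ * Q * g = Q ↔ ∀ u v : n → ℂ, (g *ᵥ u) ⬝ᵥ (Q *ᵥ (g *ᵥ v)) = u ⬝ᵥ (Q *ᵥ v) := by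
  have key : ∀ u v : n → ℂ, (g *ᵥ u) ⬝ᵥ (Q *ᵥ (g *ᵥ v)) = u ⬝ᵥ ((gᵀ * Q * g) *ᵥ v) := by
    intro u v
    rw [Matrix.mulVec_mulVec, mul_assoc, ← Matrix.mulVec_mulVec v gᵀ (Q * g),
      Matrix.dotProduct_mulVec u gᵀ, Matrix.vecMul_transpose]
  constructor
  · intro h u v
    rw [key, h]
  · intro h
    ext i j
    have h1 := h (Pi.single i 1) (Pi.single j 1)
    rw [key] at h1
    simpa using h1

lemma refl_isom {Q : Matrix n n ℂ} (hs : Qᵀ = Q) {u : n → ℂ} (h : u ⬝ᵥ (Q *ᵥ u) ≠ 0) :
    (refl Q u)ᵀ * Q * refl Q u = Q := by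
  rw [isom_iff]
  intro v w
  rw [refl_apply, refl_apply, Matrix.mulVec_sub, Matrix.mulVec_smul]
  simp only [sub_dotProduct, dotProduct_sub, smul_dotProduct, dotProduct_smul, smul_eq_mul]
  rw [form_comm hs v u, dotProduct_comm (Q *ᵥ u) v, dotProduct_comm (Q *ᵥ u) w,
    form_comm hs v u, form_comm hs w u]
  field_simp
  ring

lemma refl_det {Q : Matrix n n ℂ} {u : n → ℂ} (h : u ⬝ᵥ (Q *ᵥ u) ≠ 0) :
    (refl Q u).det = -1 := by
  have h1 : refl Q u = 1 + Matrix.replicateCol Unit ((-(2 / (u ⬝ᵥ (Q *ᵥ u)))) • u) *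
      Matrix.replicateRow Unit (Q *ᵥ u) := by
    rw [refl, sub_eq_add_neg]
    congr 1
    ext i j
    simp [Matrix.mul_apply, Matrix.vecMulVec_apply]
    ring
  rw [h1, Matrix.det_one_add_replicateCol_mul_replicateRow, dotProduct_smul,
    dotProduct_comm (Q *ᵥ u) u, smul_eq_mul]
  field_simp
  ring

/-- The products of reflections. -/
def IsRef (Q g : Matrix n n ℂ) : Prop :=
  ∃ l : List (n → ℂ), (∀ u ∈ l, u ⬝ᵥ (Q *ᵥ u) ≠ 0) ∧ g = (l.map (refl Q)).prod

lemma IsRef.cons {Q g : Matrix n n ℂ} {u : n → ℂ} (h : u ⬝ᵥ (Q *ᵥ u) ≠ 0)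
    (hg : IsRef Q (refl Q u * g)) : IsRef Q g := by
  obtain ⟨l, hl, hg⟩ := hg
  refine ⟨u :: l, ?_, ?_⟩
  · intro w hw
    rcases List.mem_cons.mp hw with rfl | hw
    · exact h
    · exact hl w hw
  · rw [List.map_cons, List.prod_cons, ← hg, ← mul_assoc, refl_sq h, one_mul]

/-- **Cartan-Dieudonné**, weak form: isometries are products of reflections. -/
theorem refl_gen {Q : Matrix n n ℂ} (hs : Qᵀ = Q) (hd : Q.det ≠ 0) {g : Matrix n n ℂ}
    (hg : gᵀ * Q * g = Q) :
    ∃ l : List (n → ℂ), (∀ u ∈ l, u ⬝ᵥ (Q *ᵥ u) ≠ 0) ∧ g = (l.map (refl Q)).prod := by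
  classical
  let B : LinearMap.BilinForm ℂ (n → ℂ) := Matrix.toBilin' Q
  have hB : ∀ u v, B u v = u ⬝ᵥ (Q *ᵥ v) := fun u v => Matrix.toBilin'_apply' Q u v
  have hBs : LinearMap.IsSymm B := ⟨fun u v => by
    rw [hB, hB, form_comm hs, RingHom.id_apply]⟩
  have : Invertible (2 : ℂ) := invertibleOfNonzero two_ne_zero
  obtain ⟨N, b, hort⟩ : ∃ N : ℕ, ∃ b : Module.Basis (Fin N) ℂ (n → ℂ),
      ∀ i j : Fin N, i ≠ j → b i ⬝ᵥ (Q *ᵥ b j) = 0 := by
    obtain ⟨b, hb⟩ := LinearMap.BilinForm.exists_orthogonal_basis hBs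
    refine ⟨_, b, fun i j hij => ?_⟩
    rw [← hB]
    exact LinearMap.isOrthoᵢ_def.mp hb i j hij
  have hne : ∀ i : Fin N, b i ⬝ᵥ (Q *ᵥ b i) ≠ 0 := by
    intro i h0
    have h1 : Q *ᵥ b i = 0 := by
      have h2 : ∀ v : n → ℂ, v ⬝ᵥ (Q *ᵥ b i) = 0 := by
        intro v
        rw [← b.sum_repr v, sum_dotProduct]
        apply Finset.sum_eq_zero
        intro j _
        rw [smul_dotProduct]
        by_cases hj : j = i
        · rw [hj, h0, smul_zero]
        · rw [hort j i hj, smul_zero]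
      ext k
      have := h2 (Pi.single k 1)
      simpa using this
    have h3 : b i = 0 := by
      have hinj := Matrix.mulVec_injective_iff_isUnit.mpr
        ((Matrix.isUnit_iff_isUnit_det Q).mpr (isUnit_iff_ne_zero.mpr hd))
      apply hinj
      rw [h1]; simp
    exact b.ne_zero i h3
  -- induction
  have key : ∀ k : ℕ, ∀ g : Matrix n n ℂ, gᵀ * Q * g = Q →
      (∀ i : Fin N, i.val + k < N → g *ᵥ b i = b i) → IsRef Q g := by
    intro k
    induction k with
    | zero =>
      intro g _ hfix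
      refine ⟨[], by simp, ?_⟩
      rw [List.map_nil, List.prod_nil]
      apply Matrix.toLin'.injective
      apply b.ext
      intro i
      rw [Matrix.toLin'_apply, hfix i (by omega), Matrix.toLin'_apply, Matrix.one_mulVec]
    | succ k ih =>
      intro g hg hfix
      by_cases hk : N ≤ k
      · exact ih g hg (fun i hi => by omega)
      · push Not at hk
        let j : Fin N := ⟨N - 1 - k, by omega⟩
        have hgi := isom_iff.mp hg
        set w := g *ᵥ b j with hw
        have hww : w ⬝ᵥ (Q *ᵥ w) = b j ⬝ᵥ (Q *ᵥ b j) := hgi _ _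
        have hwi : ∀ i : Fin N, i.val < j.val → b i ⬝ᵥ (Q *ᵥ w) = 0 := by
          intro i hi
          have h1 : g *ᵥ b i = b i := hfix i (by
            have : j.val = N - 1 - k := rfl
            omega)
          have h2 := hgi (b i) (b j)
          rw [h1] at h2
          rw [hw, h2]
          exact hort i j (fun h => by rw [h] at hi; exact lt_irrefl _ hi)
        have hbi : ∀ i : Fin N, i.val < j.val → b i ⬝ᵥ (Q *ᵥ b j) = 0 := by
          intro i hi
          exact hort i j (fun h => by rw [h] at hi; exact lt_irrefl _ hi)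
        -- reflections fixing the earlier vectors
        have hfixr : ∀ u : n → ℂ, (∀ i : Fin N, i.val < j.val → b i ⬝ᵥ (Q *ᵥ u) = 0) →
            ∀ i : Fin N, i.val < j.val → refl Q u *ᵥ b i = b i := by
          intro u hu i hi
          rw [refl_apply, dotProduct_comm (Q *ᵥ u), hu i hi]; simp
        have hmulisom : ∀ A C : Matrix n n ℂ, Aᵀ * Q * A = Q → Cᵀ * Q * C = Q →
            (A * C)ᵀ * Q * (A * C) = Q := by
          intro A C hA hC
          rw [Matrix.transpose_mul]
          calc Cᵀ * Aᵀ * Q * (A * C) = Cᵀ * (Aᵀ * Q * A) * C := by simp only [mul_assoc]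
            _ = Q := by rw [hA, hC]
        have hfixj : ∀ i : Fin N, i.val + k < N → i.val < j.val ∨ i = j := by
          intro i hi
          have hj : j.val = N - 1 - k := rfl
          rcases lt_or_eq_of_le (by omega : i.val ≤ j.val) with h1 | h1
          · exact Or.inl h1
          · exact Or.inr (Fin.ext h1)
        by_cases hA : (w - b j) ⬝ᵥ (Q *ᵥ (w - b j)) = 0
        · -- use w + b j
          have hsum : (w + b j) ⬝ᵥ (Q *ᵥ (w + b j)) = 4 * (b j ⬝ᵥ (Q *ᵥ b j)) := by
            have h1 : (w - b j) ⬝ᵥ (Q *ᵥ (w - b j)) + (w + b j) ⬝ᵥ (Q *ᵥ (w + b j)) =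
                2 * (w ⬝ᵥ (Q *ᵥ w)) + 2 * (b j ⬝ᵥ (Q *ᵥ b j)) := by
              simp only [Matrix.mulVec_sub, Matrix.mulVec_add, sub_dotProduct, add_dotProduct,
                dotProduct_sub, dotProduct_add]
              ring
            rw [hA, zero_add, hww] at h1
            rw [h1]; ring
          have hne' : (w + b j) ⬝ᵥ (Q *ᵥ (w + b j)) ≠ 0 := by
            rw [hsum]; exact mul_ne_zero (by norm_num) (hne j)
          apply IsRef.cons hne'
          apply IsRef.cons (hne j)
          apply ih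
          · exact hmulisom _ _ (refl_isom hs (hne j)) (hmulisom _ _ (refl_isom hs hne') hg)
          · intro i hi
            rw [← Matrix.mulVec_mulVec, ← Matrix.mulVec_mulVec]
            rcases hfixj i hi with h1 | h1
            · rw [hfix i (by have : j.val = N - 1 - k := rfl
                             omega), hfixr _ (by
                intro i' hi'
                rw [Matrix.mulVec_add, dotProduct_add, hwi i' hi', hbi i' hi', add_zero]) i h1,
                hfixr _ hbi i h1]
            · rw [h1, ← hw]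
              have h2 : refl Q (w + b j) *ᵥ w = -(b j) := by
                rw [refl_apply]
                have h3 : (Q *ᵥ (w + b j)) ⬝ᵥ w = 2 * (b j ⬝ᵥ (Q *ᵥ b j)) := by
                  have h4 : (w + b j) ⬝ᵥ (Q *ᵥ (w + b j)) = 2 * ((Q *ᵥ (w + b j)) ⬝ᵥ w) := by
                    rw [dotProduct_comm (Q *ᵥ (w + b j)) w]
                    simp only [Matrix.mulVec_add, add_dotProduct, dotProduct_add]
                    rw [hww, form_comm hs (b j) w]
                    ring
                  rw [hsum] at h4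
                  linear_combination (-1/2 : ℂ) * h4
                rw [h3, hsum]
                have h5 : 2 / (4 * (b j ⬝ᵥ Q *ᵥ b j)) * (2 * (b j ⬝ᵥ Q *ᵥ b j)) = 1 := by
                  have := hne j
                  field_simp
                  norm_num
                rw [h5, one_smul]
                abel
              rw [h2, Matrix.mulVec_neg]
              have h3 : refl Q (b j) *ᵥ b j = -(b j) := by
                rw [refl_apply, dotProduct_comm (Q *ᵥ b j)]
                have h5 : 2 / (b j ⬝ᵥ Q *ᵥ b j) * (b j ⬝ᵥ Q *ᵥ b j) = 2 := by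
                  have := hne j
                  field_simp
                rw [h5, two_smul]
                abel
              rw [h3, neg_neg]
        · apply IsRef.cons hA
          apply ih
          · exact hmulisom _ _ (refl_isom hs hA) hg
          · intro i hi
            rw [← Matrix.mulVec_mulVec]
            rcases hfixj i hi with h1 | h1
            · rw [hfix i (by have : j.val = N - 1 - k := rfl
                             omega), hfixr _ (by
                intro i' hi'
                rw [Matrix.mulVec_sub, dotProduct_sub, hwi i' hi', hbi i' hi', sub_zero]) i h1]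
            · rw [h1, ← hw, refl_apply]
              have h3 : (w - b j) ⬝ᵥ (Q *ᵥ (w - b j)) = 2 * ((Q *ᵥ (w - b j)) ⬝ᵥ w) := by
                rw [dotProduct_comm (Q *ᵥ (w - b j)) w]
                simp only [Matrix.mulVec_sub, sub_dotProduct, dotProduct_sub]
                rw [hww, form_comm hs (b j) w]
                ring
              have h5 : 2 / ((w - b j) ⬝ᵥ Q *ᵥ (w - b j)) * ((Q *ᵥ (w - b j)) ⬝ᵥ w) = 1 := by
                rw [h3]
                rw [h3] at hA
                have h6 : (Q *ᵥ (w - b j)) ⬝ᵥ w ≠ 0 := fun h0 => hA (by rw [h0, mul_zero])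
                field_simp
              rw [h5, one_smul]
              abel
  obtain ⟨l, hl, hgl⟩ := key N g hg (fun i hi => by omega)
  exact ⟨l, hl, hgl⟩

end MH
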