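import Pool.Agent.Helper98.MH.Onb

/-!
The algebra generated by the elements of `L` that live on the kernel of `h`, and the
off-diagonal part of `L`.
-/

open Matrix

namespace MH

variable {n : Type*} [Fintype n] [DecidableEq n]
variable {h : Matrix n n ℂ} {E : ℝ → Matrix n n ℂ} {Λ : Finset ℝ}
variable {τ : Matrix n n ℂ →ₗ[ℂ] Matrix n n ℂ} {L : Submodule ℂ (Matrix n n ℂ)}

/-- The (non-unital) associative algebra generated by `KK L E`. -/
def AA (L : Submodule ℂ (Matrix n n ℂ)) (E : ℝ → Matrix n n ℂ) :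
    NonUnitalSubalgebra ℂ (Matrix n n ℂ) :=
  NonUnitalAlgebra.adjoin ℂ (KK L E : Set (Matrix n n ℂ))

/-- The matrices `z` from the kernel of `h` to its complement with `z - τ z` in `L`. -/
def XX (τ : Matrix n n ℂ →ₗ[ℂ] Matrix n n ℂ) (L : Submodule ℂ (Matrix n n ℂ))
    (E : ℝ → Matrix n n ℂ) : Submodule ℂ (Matrix n n ℂ) where
  carrier := {z | z - τ z ∈ L ∧ E 0 * z = 0 ∧ z * E 0 = z}
  add_mem' := by
    rintro a b ⟨ha, ha', ha''⟩ ⟨hb, hb', hb''⟩
    refine ⟨?_, by rw [mul_add, ha', hb', add_zero], by rw [add_mul, ha'', hb'']⟩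
    have : a + b - τ (a + b) = (a - τ a) + (b - τ b) := by rw [map_add]; abel
    rw [this]; exact L.add_mem ha hb
  zero_mem' := ⟨by simp, by simp, by simp⟩
  smul_mem' := by
    rintro c a ⟨ha, ha', ha''⟩
    refine ⟨?_, by rw [mul_smul_comm, ha', smul_zero], by rw [smul_mul_assoc, ha'']⟩
    have : c • a - τ (c • a) = c • (a - τ a) := by rw [map_smul, smul_sub]
    rw [this]; exact L.smul_mem c ha

lemma mem_XX {z : Matrix n n ℂ} :
    z ∈ XX τ L E ↔ z - τ z ∈ L ∧ E 0 * z = 0 ∧ z * E 0 = z := Iff.rfl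

namespace Dat

variable (D : Dat τ L h E Λ)
include D

lemma E00 : E 0 * E 0 = E 0 := by rw [D.spec.mul, if_pos rfl]

lemma tauE0 : τ (E 0) = E 0 := by rw [D.tauE, neg_zero]

lemma KK_left {k : Matrix n n ℂ} (hk : k ∈ KK L E) : E 0 * k = k := by
  have := hk.2
  calc E 0 * k = E 0 * (E 0 * k * E 0) := by rw [this]
    _ = k := by rw [← mul_assoc, ← mul_assoc, D.E00, this]

lemma KK_right {k : Matrix n n ℂ} (hk : k ∈ KK L E) : k * E 0 = k := by
  have := hk.2
  calc k * E 0 = (E 0 * k * E 0) * E 0 := by rw [this]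
    _ = k := by rw [mul_assoc, D.E00, this]

lemma mem_KK_of98 {k : Matrix n n ℂ} (hk : k ∈ L) (h1 : E 0 * k = k) (h2 : k * E 0 = k) :
    k ∈ KK L E := ⟨hk, by rw [h1, h2]⟩

lemma KK_star {k : Matrix n n ℂ} (hk : k ∈ KK L E) : kᴴ ∈ KK L E := by
  refine ⟨D.st k hk.1, ?_⟩
  have := congrArg conjTranspose hk.2
  rwa [conjTranspose_mul, conjTranspose_mul, D.spec.star, ← mul_assoc] at this

lemma KK_tau {k : Matrix n n ℂ} (hk : k ∈ KK L E) : τ k = -k := D.sk k hk.1

lemma KK_le : ∀ k ∈ KK L E, k ∈ AA L E := fun _ hk => NonUnitalAlgebra.subset_adjoin ℂ hk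

lemma AA_left {a : Matrix n n ℂ} (ha : a ∈ AA L E) : E 0 * a = a := by
  induction ha using NonUnitalAlgebra.adjoin_induction with
  | mem k hk => exact D.KK_left hk
  | add x y _ _ hx hy => rw [mul_add, hx, hy]
  | zero => simp
  | mul x y _ _ hx _ => rw [← mul_assoc, hx]
  | smul r x _ hx => rw [mul_smul_comm, hx]

lemma AA_right {a : Matrix n n ℂ} (ha : a ∈ AA L E) : a * E 0 = a := by
  induction ha using NonUnitalAlgebra.adjoin_induction with
  | mem k hk => exact D.KK_right hk
  | add x y _ _ hx hy => rw [add_mul, hx, hy]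
  | zero => simp
  | mul x y _ _ _ hy => rw [mul_assoc, hy]
  | smul r x _ hx => rw [smul_mul_assoc, hx]

lemma AA_star {a : Matrix n n ℂ} (ha : a ∈ AA L E) : aᴴ ∈ AA L E := by
  induction ha using NonUnitalAlgebra.adjoin_induction with
  | mem k hk => exact D.KK_le _ (D.KK_star hk)
  | add x y _ _ hx hy => rw [conjTranspose_add]; exact add_mem hx hy
  | zero => rw [conjTranspose_zero]; exact zero_mem _
  | mul x y _ _ hx hy => rw [conjTranspose_mul]; exact mul_mem hy hx
  | smul r x _ hx => rw [conjTranspose_smul]; exact SMulMemClass.smul_mem _ hx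

lemma AA_tau {a : Matrix n n ℂ} (ha : a ∈ AA L E) : τ a ∈ AA L E := by
  induction ha using NonUnitalAlgebra.adjoin_induction with
  | mem k hk => rw [D.KK_tau hk]; exact neg_mem (D.KK_le _ hk)
  | add x y _ _ hx hy => rw [map_add]; exact add_mem hx hy
  | zero => rw [map_zero]; exact zero_mem _
  | mul x y _ _ hx hy => rw [D.inv.mul]; exact mul_mem hy hx
  | smul r x _ hx => rw [map_smul]; exact SMulMemClass.smul_mem _ hx

lemma Ld_zero_comm {l : Matrix n n ℂ} (hl : l ∈ Ld L h 0) : E 0 * l = l * E 0 := by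
  have h1 := D.Ld_mul_E hl 0
  rw [add_zero] at h1
  have h2 : (lᴴ) ∈ Ld L h 0 := by
    refine ⟨D.st _ hl.1, ?_⟩
    have := congrArg conjTranspose hl.2
    rw [conjTranspose_sub, conjTranspose_mul, conjTranspose_mul, D.spec.hh,
      conjTranspose_smul] at this
    have h3 : h * lᴴ - lᴴ * h = -(lᴴ * h - h * lᴴ) := by abel
    rw [h3, this]; simp
  have h3 := D.Ld_mul_E h2 0
  rw [add_zero] at h3
  have h4 := congrArg conjTranspose h3
  rw [conjTranspose_mul, conjTranspose_mul, conjTranspose_mul, D.spec.star,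
    conjTranspose_conjTranspose, ← mul_assoc] at h4
  rw [h4, ← h1]

/-- Elements of degree zero normalise `KK`. -/
lemma KK_bracket {l k : Matrix n n ℂ} (hl : l ∈ Ld L h 0) (hk : k ∈ KK L E) :
    l * k - k * l ∈ KK L E := by
  apply D.mem_KK_of98 (D.br l hl.1 k hk.1)
  · rw [mul_sub, ← mul_assoc, D.Ld_zero_comm hl, mul_assoc, D.KK_left hk, ← mul_assoc,
      D.KK_left hk]
  · rw [sub_mul, mul_assoc, D.KK_right hk, mul_assoc, ← D.Ld_zero_comm hl, ← mul_assoc,
      D.KK_right hk]

/-- Elements of degree zero normalise the algebra. -/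
lemma AA_bracket {l a : Matrix n n ℂ} (hl : l ∈ Ld L h 0) (ha : a ∈ AA L E) :
    l * a - a * l ∈ AA L E := by
  induction ha using NonUnitalAlgebra.adjoin_induction with
  | mem k hk => exact D.KK_le _ (D.KK_bracket hl hk)
  | add x y _ _ hx hy =>
    have : l * (x + y) - (x + y) * l = (l * x - x * l) + (l * y - y * l) := by noncomm_ring
    rw [this]; exact add_mem hx hy
  | zero => simp
  | mul x y hx' hy' hx hy =>
    have : l * (x * y) - (x * y) * l = (l * x - x * l) * y + x * (l * y - y * l) := by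
      noncomm_ring
    rw [this]; exact add_mem (mul_mem hx hy') (mul_mem hx' hy)
  | smul r x _ hx =>
    have : l * (r • x) - (r • x) * l = r • (l * x - x * l) := by
      rw [mul_smul_comm, smul_mul_assoc, smul_sub]
    rw [this]; exact SMulMemClass.smul_mem _ hx

/-- `XX` is closed under right multiplication by the algebra. -/
lemma XX_mul {z a : Matrix n n ℂ} (hz : z ∈ XX τ L E) (ha : a ∈ AA L E) : z * a ∈ XX τ L E := by
  induction ha using NonUnitalAlgebra.adjoin_induction generalizing z with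
  | mem k hk =>
    have hτz : τ z * k = 0 := by
      have h1 : τ z * E 0 = 0 := by
        have := congrArg τ hz.2.1
        rwa [D.inv.mul, D.tauE0, map_zero] at this
      rw [← D.KK_left hk, ← mul_assoc, h1, zero_mul]
    have hkz : k * z = 0 := by
      rw [← D.KK_right hk, mul_assoc, hz.2.1, mul_zero]
    refine ⟨?_, by rw [← mul_assoc, hz.2.1, zero_mul], by rw [mul_assoc, D.KK_right hk]⟩
    have h1 := D.br _ hz.1 _ hk.1
    have h2 : (z - τ z) * k - k * (z - τ z) = z * k - τ (z * k) := by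
      rw [D.inv.mul, D.KK_tau hk, sub_mul, hτz, mul_sub, hkz]
      noncomm_ring
    rwa [h2] at h1
  | add x y _ _ hx hy => rw [mul_add]; exact add_mem (hx hz) (hy hz)
  | zero => rw [mul_zero]; exact zero_mem _
  | mul x y _ _ hx hy => rw [← mul_assoc]; exact hy (hx hz)
  | smul r x _ hx => rw [mul_smul_comm]; exact (XX τ L E).smul_mem _ (hx hz)

/-- Elements of `L` without diagonal part on the kernel multiply the algebra into `XX`. -/
lemma mul_AA {x a : Matrix n n ℂ} (hx : x ∈ L) (h0 : E 0 * x * E 0 = 0) (ha : a ∈ AA L E) :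
    x * a ∈ XX τ L E := by
  induction ha using NonUnitalAlgebra.adjoin_induction with
  | mem k hk =>
    refine ⟨?_, ?_, by rw [mul_assoc, D.KK_right hk]⟩
    · have h1 := D.br _ hx _ hk.1
      have h2 : x * k - k * x = x * k - τ (x * k) := by
        rw [D.inv.mul, D.KK_tau hk, D.sk x hx]; simp
      rwa [h2] at h1
    · rw [← mul_assoc, ← D.KK_left hk, ← mul_assoc, h0, zero_mul]
  | add a b _ _ hx hy => rw [mul_add]; exact add_mem hx hy
  | zero => rw [mul_zero]; exact zero_mem _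
  | mul a b _ hb hx _ => rw [← mul_assoc]; exact D.XX_mul hx hb
  | smul r x _ hx => rw [mul_smul_comm]; exact (XX τ L E).smul_mem _ hx

lemma tau_XX_E {z : Matrix n n ℂ} (hz : z ∈ XX τ L E) : τ z * E 0 = 0 := by
  have := congrArg τ hz.2.1
  rwa [D.inv.mul, D.tauE0, map_zero] at this

lemma E_tau_XX {z : Matrix n n ℂ} (hz : z ∈ XX τ L E) : E 0 * τ z = τ z := by
  have := congrArg τ hz.2.2
  rwa [D.inv.mul, D.tauE0] at this

/-- Homogeneous components of elements of `XX`. -/
lemma XX_cmp {z : Matrix n n ℂ} (hz : z ∈ XX τ L E) (ρ : ℝ) : E ρ * z ∈ XX τ L E := by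
  have S := D.spec
  have hb : ∀ μ μ' : ℝ, μ' ≠ 0 → E μ * z * E μ' = 0 := by
    intro μ μ' h'
    rw [← hz.2.2, mul_assoc, mul_assoc, S.mul, if_neg (Ne.symm h'), mul_zero, mul_zero]
  have hb2 : ∀ μ' : ℝ, E 0 * z * E μ' = 0 := by intro μ'; rw [hz.2.1, zero_mul]
  have hc : ∀ μ μ' : ℝ, μ ≠ 0 → E μ * τ z * E μ' = 0 := by
    intro μ μ' h'
    rw [← D.E_tau_XX hz, ← mul_assoc, S.mul, if_neg h', zero_mul, zero_mul]
  have hc2 : ∀ μ : ℝ, E μ * τ z * E 0 = 0 := by
    intro μ; rw [mul_assoc, D.tau_XX_E hz, mul_zero]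
  by_cases hρ : ρ = 0
  · rw [hρ, hz.2.1]; exact zero_mem _
  · refine ⟨?_, ?_, by rw [mul_assoc, hz.2.2]⟩
    · have h1 := D.cmp_mem hz.1 ρ
      have h2 : cmp E Λ ρ (z - τ z) = E ρ * z - τ (E ρ * z) := by
        apply S.ext
        intro μ μ'
        rw [S.block_cmp, D.inv.mul, D.tauE]
        simp only [mul_sub, sub_mul]
        have e1 : E μ * (E ρ * z) * E μ' = if μ = ρ then E μ * z * E μ' else 0 := by
          rw [← mul_assoc, S.mul]
          split_ifs
          · rfl
          · simp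
        have e2 : E μ * (τ z * E (-ρ)) * E μ' = if -ρ = μ' then E μ * τ z * E μ' else 0 := by
          rw [mul_assoc, mul_assoc (τ z), S.mul]
          split_ifs with h3
          · rw [h3, mul_assoc]
          · simp
        rw [e1, e2]
        by_cases hm' : μ' = 0
        · subst hm'
          rw [if_neg (by intro h3; apply hρ; linarith : ¬ (-ρ = 0)), hc2, sub_zero]
          by_cases hm : μ = ρ
          · rw [if_pos hm, if_pos (by linarith)]
          · rw [if_neg hm, if_neg (by intro h3; apply hm; linarith)]; simp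
        · rw [hb μ μ' hm']
          by_cases hm : μ = 0
          · subst hm
            by_cases h3 : -ρ = μ'
            · rw [if_pos h3, if_pos (by linarith)]; simp
            · rw [if_neg h3, if_neg (by intro h4; apply h3; linarith)]; simp
          · rw [hc μ μ' hm]; simp
      rwa [h2] at h1
    · rw [← mul_assoc, S.mul, if_neg (Ne.symm hρ), zero_mul]

/-- The `h`-homogeneous part. -/
lemma XX_sum {z : Matrix n n ℂ} : z = ∑ ρ ∈ Λ, E ρ * z := by
  rw [← Finset.sum_mul, D.spec.sum, one_mul]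

lemma hat_mem_Ld {z : Matrix n n ℂ} (hz : z ∈ XX τ L E) {ρ : ℝ} (hρ : E ρ * z = z) :
    z - τ z ∈ Ld L h ρ := by
  have S := D.spec
  apply D.Ld_of_block hz.1
  intro μ μ' hne
  have e1 : E μ * z * E μ' = 0 := by
    by_cases h1 : μ = ρ
    · by_cases h2 : μ' = 0
      · exfalso; apply hne; rw [h1, h2, sub_zero]
      · rw [← hz.2.2, mul_assoc, mul_assoc, S.mul, if_neg (Ne.symm h2), mul_zero, mul_zero]
    · rw [← hρ, ← mul_assoc, S.mul, if_neg h1, zero_mul, zero_mul]
  have hτ : τ z * E (-ρ) = τ z := by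
    have := congrArg τ hρ
    rwa [D.inv.mul, D.tauE] at this
  have e2 : E μ * τ z * E μ' = 0 := by
    by_cases h1 : μ' = -ρ
    · by_cases h2 : μ = 0
      · exfalso; apply hne; rw [h1, h2]; ring
      · rw [← D.E_tau_XX hz, ← mul_assoc, S.mul, if_neg h2, zero_mul, zero_mul]
    · rw [← hτ, mul_assoc, mul_assoc, S.mul, if_neg (Ne.symm h1), mul_zero, mul_zero]
  rw [mul_sub, sub_mul, e1, e2, sub_zero]

/-- Degree zero elements act on `XX`. -/
lemma XX_bracket {l z : Matrix n n ℂ} (hl : l ∈ Ld L h 0) (hz : z ∈ XX τ L E) :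
    l * z - z * l ∈ XX τ L E := by
  have hc := D.Ld_zero_comm hl
  refine ⟨?_, ?_, ?_⟩
  · have h1 := D.br _ hl.1 _ hz.1
    have h2 : l * (z - τ z) - (z - τ z) * l = (l * z - z * l) - τ (l * z - z * l) := by
      rw [map_sub, D.inv.mul, D.inv.mul, D.sk l hl.1]
      noncomm_ring
    rwa [h2] at h1
  · rw [mul_sub, ← mul_assoc, hc, mul_assoc, hz.2.1, ← mul_assoc, hz.2.1]; simp
  · rw [sub_mul, mul_assoc, hz.2.2, mul_assoc, ← hc, ← mul_assoc, hz.2.2]

omit D in
lemma eq_zero_of_mul_star {x : Matrix n n ℂ} (h : x * xᴴ = 0) : x = 0 := by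
  have h1 : (xᴴ)ᴴ * xᴴ = 0 := by rwa [conjTranspose_conjTranspose]
  have := eq_zero_of_mul h1
  have h2 := congrArg conjTranspose this
  rwa [conjTranspose_conjTranspose, conjTranspose_zero] at h2

/-- A minimal projection of the algebra. -/
theorem exists_min (hK : KK L E ≠ ⊥) : ∃ e ∈ AA L E, e * e = e ∧ eᴴ = e ∧ e ≠ 0 ∧
    ∀ y ∈ AA L E, ∃ c : ℂ, e * y * e = c • e := by
  classical
  obtain ⟨k, hk, hk0⟩ := Submodule.exists_mem_ne_zero_of_ne_bot hK
  have hex : ∃ r : ℕ, ∃ a ∈ AA L E, a ≠ 0 ∧ a.rank = r := ⟨k.rank, k, D.KK_le k hk, hk0, rfl⟩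
  obtain ⟨a, ha, ha0, har⟩ := Nat.find_spec hex
  have hmin : ∀ b ∈ AA L E, b ≠ 0 → a.rank ≤ b.rank := by
    intro b hb hb0
    rw [har]
    exact Nat.find_min' hex ⟨b, hb, hb0, rfl⟩
  -- key property
  have key : ∀ y ∈ AA L E, ∃ t : ℂ, a * y * a = t • a := by
    intro y hy
    -- the operator a y on the range of a has an eigenvalue
    let R : Submodule ℂ (n → ℂ) := LinearMap.range (Matrix.toLin' a)
    have hst : ∀ v ∈ R, Matrix.toLin' (a * y) v ∈ R := by
      intro v _
      rw [Matrix.toLin'_mul]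
      exact LinearMap.mem_range_self _ _
    let f : R →ₗ[ℂ] R := (Matrix.toLin' (a * y)).restrict hst
    have hRne : Nontrivial R := by
      rw [Submodule.nontrivial_iff_ne_bot]
      intro h0
      apply ha0
      have : Matrix.toLin' a = 0 := LinearMap.range_eq_bot.mp h0
      exact Matrix.toLin'.injective (by rw [this, map_zero])
    obtain ⟨t, ht⟩ := Module.End.exists_eigenvalue f
    obtain ⟨v, hv⟩ := ht.exists_hasEigenvector
    refine ⟨t, ?_⟩
    by_contra hne
    have hne' : a * y * a - t • a ≠ 0 := fun h' => hne (sub_eq_zero.mp h')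
    have hmem : a * y * a - t • a ∈ AA L E :=
      sub_mem (mul_mem (mul_mem ha hy) ha) (SMulMemClass.smul_mem t ha)
    have hle := hmin _ hmem hne'
    obtain ⟨w, hw⟩ := v.2
    have hvw : a *ᵥ w = (v : n → ℂ) := by rw [← hw, Matrix.toLin'_apply]
    have hv0 : (v : n → ℂ) ≠ 0 := fun h0 => hv.2 (Subtype.ext h0)
    have hfv : (a * y) *ᵥ (v : n → ℂ) = t • (v : n → ℂ) := by
      have h1 := hv.apply_eq_smul
      have h2 := congrArg Subtype.val h1
      simpa [f] using h2
    have hker : LinearMap.ker (Matrix.toLin' a) <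
        LinearMap.ker (Matrix.toLin' (a * y * a - t • a)) := by
      rw [lt_iff_le_and_ne]
      constructor
      · intro u hu
        rw [LinearMap.mem_ker, Matrix.toLin'_apply] at hu ⊢
        rw [Matrix.sub_mulVec, ← Matrix.mulVec_mulVec, hu, Matrix.smul_mulVec, hu]
        simp
      · intro heq
        have : w ∈ LinearMap.ker (Matrix.toLin' a) := by
          rw [heq, LinearMap.mem_ker, Matrix.toLin'_apply, Matrix.sub_mulVec,
            ← Matrix.mulVec_mulVec, hvw, hfv, Matrix.smul_mulVec, hvw, sub_self]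
        rw [LinearMap.mem_ker, Matrix.toLin'_apply, hvw] at this
        exact hv0 this
    have h1 := Submodule.finrank_lt_finrank_of_lt hker
    have h2 := LinearMap.finrank_range_add_finrank_ker (Matrix.toLin' a)
    have h3 := LinearMap.finrank_range_add_finrank_ker (Matrix.toLin' (a * y * a - t • a))
    have h4 : a.rank = Module.finrank ℂ (LinearMap.range (Matrix.toLin' a)) := by
      rw [Matrix.rank_eq_finrank_range_toLin a (Pi.basisFun ℂ n) (Pi.basisFun ℂ n),
        Matrix.toLin_eq_toLin']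
    have h5 : (a * y * a - t • a).rank =
        Module.finrank ℂ (LinearMap.range (Matrix.toLin' (a * y * a - t • a))) := by
      rw [Matrix.rank_eq_finrank_range_toLin _ (Pi.basisFun ℂ n) (Pi.basisFun ℂ n),
        Matrix.toLin_eq_toLin']
    omega
  obtain ⟨t, ht⟩ := key _ (D.AA_star ha)
  have hpos := trace_pos ha0
  have him := trace_im a
  have haa : aᴴ * a ≠ 0 := fun h0 => ha0 (eq_zero_of_mul h0)
  have hsq : (aᴴ * a) * (aᴴ * a) = t • (aᴴ * a) := by
    have : (aᴴ * a) * (aᴴ * a) = aᴴ * (a * aᴴ * a) := by simp only [mul_assoc]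
    rw [this, ht, mul_smul_comm]
  have hsa : (aᴴ * a)ᴴ = aᴴ * a := by rw [conjTranspose_mul, conjTranspose_conjTranspose]
  have hpos2 := trace_pos haa
  rw [hsa, hsq, Matrix.trace_smul, smul_eq_mul] at hpos2
  have him2 := trace_im (aᴴ * a)
  rw [hsa, hsq, Matrix.trace_smul, smul_eq_mul] at him2
  rw [Complex.mul_re, him, mul_zero, sub_zero] at hpos2
  rw [Complex.mul_im, him, mul_zero, zero_add] at him2
  have htim : t.im = 0 := by
    rcases mul_eq_zero.mp him2 with h1 | h1
    · exact h1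
    · exact absurd h1 hpos.ne'
  have htre : 0 < t.re := by
    rcases pos_iff_pos_of_mul_pos hpos2 |>.mpr hpos with h1
    exact h1
  have ht0 : t ≠ 0 := by intro h0; rw [h0] at htre; simp at htre
  have htr : (starRingEnd ℂ) t = t := by
    apply Complex.ext
    · rw [Complex.conj_re]
    · rw [Complex.conj_im, htim, neg_zero]
  refine ⟨t⁻¹ • (aᴴ * a), SMulMemClass.smul_mem _ (mul_mem (D.AA_star ha) ha), ?_, ?_, ?_, ?_⟩
  · rw [smul_mul_smul_comm, hsq, smul_smul, mul_assoc, inv_mul_cancel₀ ht0, mul_one]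
  · rw [conjTranspose_smul, hsa]
    congr 1
    rw [← starRingEnd_apply, map_inv₀, htr]
  · intro h0
    rcases smul_eq_zero.mp h0 with h1 | h1
    · exact ht0 (inv_eq_zero.mp h1)
    · exact haa h1
  · intro y hy
    obtain ⟨c, hc⟩ := key (y * aᴴ) (mul_mem hy (D.AA_star ha))
    refine ⟨t⁻¹ * c, ?_⟩
    rw [smul_mul_assoc, smul_mul_smul_comm]
    have : aᴴ * a * y * (aᴴ * a) = aᴴ * (a * (y * aᴴ) * a) := by simp only [mul_assoc]
    rw [this, hc, mul_smul_comm, smul_smul, smul_smul]
    congr 1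
    ring

end Dat

end MH
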