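import Pool.Agent.Helper98.MH.Full

/-!
The exceptional cases for a minimal projection.
-/

open Matrix

namespace MH

variable {n : Type*} [Fintype n] [DecidableEq n]
variable {h : Matrix n n ℂ} {E : ℝ → Matrix n n ℂ} {Λ : Finset ℝ}
variable {τ : Matrix n n ℂ →ₗ[ℂ] Matrix n n ℂ} {L : Submodule ℂ (Matrix n n ℂ)}

namespace Dat

variable (D : Dat τ L h E Λ) {e : Matrix n n ℂ} (P : MinP L E e)
include D P

lemma e_tr_ne : e.trace ≠ 0 := by
  intro h0
  have := trace_pos P.ne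
  rw [P.star, P.idem, h0] at this
  simp at this

lemma e_left_star {m : Matrix n n ℂ} (hm : m * e = m) : e * mᴴ = mᴴ := by
  have := congrArg conjTranspose hm
  rwa [conjTranspose_mul, P.star] at this

/-- `e u = 0` if the trace of `e u` vanishes. -/
lemma eu_zero {u : Matrix n n ℂ} (hu : u ∈ NN L E e) (ht : (e * u).trace = 0) : e * u = 0 := by
  obtain ⟨c, hc⟩ := P.min u hu.1
  rw [mul_assoc, hu.2] at hc
  rw [hc, Matrix.trace_smul, smul_eq_mul] at ht
  rcases mul_eq_zero.mp ht with h1 | h1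
  · rw [hc, h1, zero_smul]
  · exact absurd h1 (D.e_tr_ne P)

/-- The space `τ e A e` is a line. -/
lemma line {ω y : Matrix n n ℂ} (hω : ω ∈ NN L E e) (hω' : τ e * ω = ω) (hω0 : ω ≠ 0)
    (hy : y ∈ NN L E e) (hy' : τ e * y = y) :
    ∃ t : ℂ, t ≠ 0 ∧ ω * ωᴴ = t • τ e ∧ y = (t⁻¹ • (ω * (ωᴴ * y))) ∧ ∃ c : ℂ, ωᴴ * y = c • e := by
  have hH : ωᴴ * τ e = ωᴴ := by
    have := congrArg conjTranspose hω'
    rwa [conjTranspose_mul, D.tau_star_e P] at this
  obtain ⟨t, ht⟩ := (D.tau_minP P).min (ω * ωᴴ) (mul_mem hω.1 (D.AA_star hω.1))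
  rw [← mul_assoc, hω', mul_assoc, hH] at ht
  have ht0 : t ≠ 0 := by
    intro h0
    rw [h0, zero_smul] at ht
    exact hω0 (eq_zero_of_mul_star ht)
  refine ⟨t, ht0, ht, ?_, ?_⟩
  · rw [← mul_assoc, ht, smul_mul_assoc, hy', smul_smul, inv_mul_cancel₀ ht0, one_smul]
  · exact D.NN_rel P hω hy

/-- With at least three dimensions there is a vector orthogonal to `e` and `τ e`. -/
theorem exists_u3 (hd : 3 ≤ Module.finrank ℂ (NN L E e)) :
    ∃ u ∈ NN L E e, u ≠ 0 ∧ e * u = 0 ∧ τ e * u = 0 := by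
  by_cases hall : ∀ u ∈ NN L E e, τ e * u = 0
  · -- only one condition
    let f : NN L E e →ₗ[ℂ] ℂ :=
      { toFun := fun u => (e * (u : Matrix n n ℂ)).trace
        map_add' := by intro a b; simp [mul_add]
        map_smul' := by intro c a; simp [mul_smul_comm] }
    have hker : LinearMap.ker f ≠ ⊥ := LinearMap.ker_ne_bot_of_finrank_lt (by simp; omega)
    obtain ⟨u, hu, hu0⟩ := Submodule.exists_mem_ne_zero_of_ne_bot hker
    refine ⟨u, u.2, fun h0 => hu0 (Subtype.ext h0), D.eu_zero P u.2 hu, hall u u.2⟩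
  · push Not at hall
    obtain ⟨u0, hu0, hω0⟩ := hall
    set ω := τ e * u0 with hω
    have hωN : ω ∈ NN L E e := ⟨mul_mem (D.AA_tau P.mem) hu0.1, by rw [hω, mul_assoc, hu0.2]⟩
    have hωτ : τ e * ω = ω := by rw [hω, ← mul_assoc, D.tau_idem P]
    clear_value ω
    let f : NN L E e →ₗ[ℂ] ℂ × ℂ :=
      { toFun := fun u => ((e * (u : Matrix n n ℂ)).trace, (ωᴴ * (u : Matrix n n ℂ)).trace)
        map_add' := by intro a b; simp [mul_add]
        map_smul' := by intro c a; simp [mul_smul_comm] }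
    have hker : LinearMap.ker f ≠ ⊥ := LinearMap.ker_ne_bot_of_finrank_lt (by
      rw [Module.finrank_prod]; simp; omega)
    obtain ⟨u, hu, hu0'⟩ := Submodule.exists_mem_ne_zero_of_ne_bot hker
    have hu1 : (e * (u : Matrix n n ℂ)).trace = 0 := congrArg Prod.fst hu
    have hu2 : (ωᴴ * (u : Matrix n n ℂ)).trace = 0 := congrArg Prod.snd hu
    refine ⟨u, u.2, fun h0 => hu0' (Subtype.ext h0), D.eu_zero P u.2 hu1, ?_⟩
    have hyN : τ e * (u : Matrix n n ℂ) ∈ NN L E e :=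
      ⟨mul_mem (D.AA_tau P.mem) u.2.1, by rw [mul_assoc, u.2.2]⟩
    have hyτ : τ e * (τ e * (u : Matrix n n ℂ)) = τ e * u := by rw [← mul_assoc, D.tau_idem P]
    obtain ⟨t, ht0, ht, hy, c, hc⟩ := D.line P hωN hωτ hω0 hyN hyτ
    have hH : ωᴴ * τ e = ωᴴ := by
      have := congrArg conjTranspose hωτ
      rwa [conjTranspose_mul, D.tau_star_e P] at this
    have hc' : ωᴴ * (u : Matrix n n ℂ) = c • e := by rw [← hc, ← mul_assoc, hH]
    rw [hc', Matrix.trace_smul, smul_eq_mul] at hu2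
    have hc0 : c = 0 := by
      rcases mul_eq_zero.mp hu2 with h1 | h1
      · exact h1
      · exact absurd h1 (D.e_tr_ne P)
    rw [hy, hc, hc0]; simp

/-- With at least two dimensions there is a vector orthogonal to `e`. -/
theorem exists_u2 (hd : 2 ≤ Module.finrank ℂ (NN L E e)) :
    ∃ u ∈ NN L E e, u ≠ 0 ∧ e * u = 0 := by
  let f : NN L E e →ₗ[ℂ] ℂ :=
    { toFun := fun u => (e * (u : Matrix n n ℂ)).trace
      map_add' := by intro a b; simp [mul_add]
      map_smul' := by intro c a; simp [mul_smul_comm] }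
  have hker : LinearMap.ker f ≠ ⊥ := LinearMap.ker_ne_bot_of_finrank_lt (by simp; omega)
  obtain ⟨u, hu, hu0⟩ := Submodule.exists_mem_ne_zero_of_ne_bot hker
  exact ⟨u, u.2, fun h0 => hu0 (Subtype.ext h0), D.eu_zero P u.2 hu⟩

lemma one_le_finrank : 1 ≤ Module.finrank ℂ (NN L E e) := by
  have : Nontrivial (NN L E e) := by
    rw [Submodule.nontrivial_iff_ne_bot]
    intro h0
    have := D.e_mem_NN P
    rw [h0, Submodule.mem_bot] at this
    exact P.ne this
  exact Module.finrank_pos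

lemma NN_one (hd : Module.finrank ℂ (NN L E e) = 1) {a : Matrix n n ℂ} (ha : a ∈ NN L E e) :
    ∃ c : ℂ, a = c • e := by
  obtain ⟨v, hv0, hv⟩ := finrank_eq_one_iff'.mp hd
  obtain ⟨c, hc⟩ := hv ⟨e, D.e_mem_NN P⟩
  obtain ⟨c', hc'⟩ := hv ⟨a, ha⟩
  have h1 : c • (v : Matrix n n ℂ) = e := congrArg Subtype.val hc
  have h2 : c' • (v : Matrix n n ℂ) = a := congrArg Subtype.val hc'
  have hc0 : c ≠ 0 := by
    intro h0; rw [h0, zero_smul] at h1; exact P.ne h1.symm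
  refine ⟨c' * c⁻¹, ?_⟩
  rw [← h1, ← h2, smul_smul, mul_assoc, inv_mul_cancel₀ hc0, mul_one]

/-- Case I, dimension one: impossible. -/
theorem caseI_one (hc : AV L E e ⊔ XV τ L E e = ⊤)
    (hd : Module.finrank ℂ (NN L E e) = 1) : KK L E = ⊥ := by
  have hE : E 0 = e := by
    obtain ⟨u, hu, huu, hQ, _⟩ := D.E0_sum P hc
    have h1 : ∀ i, u i * (u i)ᴴ = e := by
      intro i
      obtain ⟨c, hcc⟩ := D.NN_one P hd (hu i)
      have h2 := huu i i
      rw [if_pos rfl, hcc, conjTranspose_smul, P.star, smul_mul_smul_comm, P.idem] at h2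
      rw [hcc, conjTranspose_smul, P.star, smul_mul_smul_comm, P.idem, mul_comm]
      exact h2
    rw [← hQ, Finset.sum_congr rfl (fun i _ => h1 i)]
    simp [hd]
  rw [eq_bot_iff]
  intro k hk
  obtain ⟨c, hcc⟩ := D.NN_one P hd (a := k) ⟨D.KK_le k hk, by rw [← hE]; exact D.KK_right hk⟩
  have h1 := D.KK_tau hk
  rw [hcc, map_smul, ← hE, D.tauE0] at h1
  rw [Submodule.mem_bot, hcc, ← hE]
  have h2 : (2 : ℂ) • (c • E 0) = 0 := by rw [two_smul]; nth_rewrite 1 [h1]; abel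
  rcases smul_eq_zero.mp h2 with h3 | h3
  · exact absurd h3 two_ne_zero
  · exact h3

/-- The key element of `K`. -/
lemma kap {u z1 z2 : Matrix n n ℂ} (hu : u ∈ NN L E e) (heu : e * u = 0)
    (hz1 : z1 ∈ XX τ L E) (hz1e : z1 * e = z1) (hz2 : z2 ∈ XX τ L E) (hz2e : z2 * e = z2) :
    τ (z2ᴴ * z1) * τ u - u * (z2ᴴ * z1) ∈ KK L E := by
  have huA : uᴴ ∈ AA L E := D.AA_star hu.1
  set y := z2 * uᴴ with hy
  have hyX : y ∈ XX τ L E := D.XX_mul hz2 huA
  have hyH : yᴴ = u * z2ᴴ := by rw [hy, conjTranspose_mul, conjTranspose_conjTranspose]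
  have hb := D.br _ hz1.1 _ (D.st _ hyX.1)
  have e1 : (y - τ y)ᴴ = yᴴ - τ (yᴴ) := by rw [conjTranspose_sub, D.inv.star]
  have hyH0 : yᴴ * E 0 = 0 := by
    have := congrArg conjTranspose hyX.2.1
    rwa [conjTranspose_mul, D.spec.star, conjTranspose_zero] at this
  have hE0yH : E 0 * yᴴ = yᴴ := by
    have := congrArg conjTranspose hyX.2.2
    rwa [conjTranspose_mul, D.spec.star] at this
  have hτyH : E 0 * τ (yᴴ) = 0 := by
    have := congrArg τ hyH0
    rwa [D.inv.mul, D.tauE0, map_zero] at this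
  have hτyH2 : τ (yᴴ) * E 0 = τ (yᴴ) := by
    have := congrArg τ hE0yH
    rwa [D.inv.mul, D.tauE0] at this
  have f1 : z1 * τ (yᴴ) = 0 := by
    rw [← hz1.2.2, mul_assoc, hτyH, mul_zero]
  have f2 : τ z1 * yᴴ = 0 := by
    rw [← hE0yH, ← mul_assoc, D.tau_XX_E hz1, zero_mul]
  have f3 : yᴴ * τ z1 = 0 := by
    rw [← D.E_tau_XX hz1, ← mul_assoc, hyH0, zero_mul]
  have f4 : τ (yᴴ) * z1 = 0 := by
    rw [← hτyH2, mul_assoc, hz1.2.1, mul_zero]
  have f5 : z1 * yᴴ = 0 := by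
    rw [hyH, ← mul_assoc, ← hz1e, mul_assoc z1, heu, mul_zero, zero_mul]
  have f6 : τ (yᴴ) * τ z1 = 0 := by rw [← D.inv.mul, f5, map_zero]
  have hκ : (z1 - τ z1) * (yᴴ - τ (yᴴ)) - (yᴴ - τ (yᴴ)) * (z1 - τ z1)
      = τ z1 * τ (yᴴ) - yᴴ * z1 := by
    have : (z1 - τ z1) * (yᴴ - τ (yᴴ)) - (yᴴ - τ (yᴴ)) * (z1 - τ z1)
        = z1 * yᴴ - z1 * τ (yᴴ) - τ z1 * yᴴ + τ z1 * τ (yᴴ) - yᴴ * z1 + yᴴ * τ z1
          + τ (yᴴ) * z1 - τ (yᴴ) * τ z1 := by noncomm_ring
    rw [this, f1, f2, f3, f4, f5, f6]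
    noncomm_ring
  rw [e1, hκ] at hb
  have e2 : τ z1 * τ (yᴴ) - yᴴ * z1 = τ (z2ᴴ * z1) * τ u - u * (z2ᴴ * z1) := by
    rw [hyH, D.inv.mul u, D.inv.mul (z2ᴴ) z1]
    simp only [mul_assoc]
  rw [← e2]
  apply D.mem_KK_of98 hb
  · rw [mul_sub, ← mul_assoc, D.E_tau_XX hz1, ← mul_assoc, hE0yH]
  · rw [sub_mul, mul_assoc, hτyH2, mul_assoc, hz1.2.2]

/-- Case II, at least two dimensions: impossible. -/
theorem caseII_two (hII : ∀ a ∈ AA L E, e * a * τ e = 0)
    (hd : 2 ≤ Module.finrank ℂ (NN L E e)) : False := by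
  have hII' : ∀ a ∈ AA L E, τ e * a * e = 0 := by
    intro a ha
    have := congrArg conjTranspose (hII _ (D.AA_star ha))
    rwa [conjTranspose_mul, conjTranspose_mul, conjTranspose_conjTranspose, P.star,
      D.tau_star_e P, conjTranspose_zero, ← mul_assoc] at this
  obtain ⟨u, hu, hu0, heu⟩ := D.exists_u2 P hd
  obtain ⟨t, ht⟩ := D.NN_rel P hu hu
  have ht0 : t ≠ 0 := by
    intro h0
    rw [h0, zero_smul] at ht
    exact hu0 (eq_zero_of_mul ht)
  have huA : uᴴ ∈ AA L E := D.AA_star hu.1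
  have heuH : e * uᴴ = uᴴ := D.e_left_star P hu.2
  have huHe : uᴴ * e = 0 := by
    have := congrArg conjTranspose heu
    rwa [conjTranspose_mul, P.star, conjTranspose_zero] at this
  have hT : ∀ z ∈ XX τ L E, ∀ z' ∈ XX τ L E, τ (z * e) * (z' * e) = 0 := by
    intro z0 hz0 z0' hz0'
    have hz : z0 * e ∈ XX τ L E := D.XX_mul hz0 P.mem
    have hz1 : z0' * e ∈ XX τ L E := D.XX_mul hz0' P.mem
    have hze : z0 * e * e = z0 * e := by rw [mul_assoc, P.idem]
    have hz1e : z0' * e * e = z0' * e := by rw [mul_assoc, P.idem]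
    generalize z0 * e = z at hz hze
    generalize z0' * e = z1 at hz1 hz1e
    have hτz : τ e * τ z = τ z := by rw [← D.inv.mul, hze]
    have hτz1 : τ e * τ z1 = τ z1 := by rw [← D.inv.mul, hz1e]
    have hyX : z * uᴴ ∈ XX τ L E := D.XX_mul hz huA
    have hb := D.br _ hz1.1 _ hyX.1
    have hτy : τ (z * uᴴ) = τ uᴴ * τ z := D.inv.mul _ _
    have g1 : z1 * (z * uᴴ) = 0 := by
      rw [← hz1.2.2, mul_assoc, ← mul_assoc (E 0), hz.2.1]; simp
    have g2 : z1 * τ (z * uᴴ) = 0 := by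
      rw [hτy, ← hz1e, ← hτz]
      have : z1 * e * (τ uᴴ * (τ e * τ z)) = z1 * (e * τ uᴴ * τ e) * τ z := by
        simp only [mul_assoc]
      rw [this, hII _ (D.AA_tau huA)]; simp
    have g3 : τ z1 * τ (z * uᴴ) = 0 := by
      rw [← D.E_tau_XX hyX, ← mul_assoc, D.tau_XX_E hz1, zero_mul]
    have g4 : (z * uᴴ) * z1 = 0 := by
      rw [← hyX.2.2, mul_assoc, hz1.2.1, mul_zero]
    have g5 : (z * uᴴ) * τ z1 = 0 := by
      rw [← hτz1, ← heuH]
      have : z * (e * uᴴ) * (τ e * τ z1) = z * (e * uᴴ * τ e) * τ z1 := by simp only [mul_assoc]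
      rw [this, hII _ huA]; simp
    have g6 : τ (z * uᴴ) * τ z1 = 0 := by
      rw [← D.E_tau_XX hz1, ← mul_assoc, D.tau_XX_E hyX, zero_mul]
    have hκ : (z1 - τ z1) * (z * uᴴ - τ (z * uᴴ)) - (z * uᴴ - τ (z * uᴴ)) * (z1 - τ z1)
        = τ (z * uᴴ) * z1 - τ z1 * (z * uᴴ) := by
      have : (z1 - τ z1) * (z * uᴴ - τ (z * uᴴ)) - (z * uᴴ - τ (z * uᴴ)) * (z1 - τ z1)
          = z1 * (z * uᴴ) - z1 * τ (z * uᴴ) - τ z1 * (z * uᴴ) + τ z1 * τ (z * uᴴ)
            - (z * uᴴ) * z1 + (z * uᴴ) * τ z1 + τ (z * uᴴ) * z1 - τ (z * uᴴ) * τ z1 := by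
        noncomm_ring
      rw [this, g1, g2, g3, g4, g5, g6]
      noncomm_ring
    rw [hκ] at hb
    have hK : τ (z * uᴴ) * z1 - τ z1 * (z * uᴴ) ∈ KK L E := by
      apply D.mem_KK_of98 hb
      · rw [mul_sub, ← mul_assoc, D.E_tau_XX hyX, ← mul_assoc, D.E_tau_XX hz1]
      · rw [sub_mul, mul_assoc, hz1.2.2, mul_assoc (τ z1), hyX.2.2]
    have h1 := hII' (τ u * (τ (z * uᴴ) * z1 - τ z1 * (z * uᴴ)))
      (mul_mem (D.AA_tau hu.1) (D.KK_le _ hK))
    have h2 : τ e * τ u = τ u := by rw [← D.inv.mul, hu.2]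
    have h3 : τ e * (τ u * (τ (z * uᴴ) * z1 - τ z1 * (z * uᴴ))) * e = t • (τ z * z1) := by
      have h4 : z * uᴴ * e = 0 := by rw [mul_assoc, huHe, mul_zero]
      have h5 : τ u * τ uᴴ = t • τ e := by rw [← D.inv.mul, ht, map_smul]
      calc τ e * (τ u * (τ (z * uᴴ) * z1 - τ z1 * (z * uᴴ))) * e
          = (τ e * τ u) * (τ (z * uᴴ) * (z1 * e) - τ z1 * (z * uᴴ * e)) := by
            noncomm_ring
        _ = τ u * (τ (z * uᴴ) * z1) := by rw [h2, hz1e, h4, mul_zero, sub_zero]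
        _ = (τ u * τ uᴴ) * τ z * z1 := by rw [hτy]; simp only [mul_assoc]
        _ = t • (τ z * z1) := by rw [h5, smul_mul_assoc, smul_mul_assoc, hτz]
    rw [h3] at h1
    rcases smul_eq_zero.mp h1 with h6 | h6
    · exact absurd h6 ht0
    · exact h6
  have hcov := D.cover_one P.mem P.idem P.ne hT
  apply D.tau_ne P
  apply mat_ext
  intro v
  have hw : τ e *ᵥ v ∈ AV L E e ⊔ XV τ L E e := by rw [hcov]; exact Submodule.mem_top
  obtain ⟨w1, hw1, w2, hw2, hsum⟩ := Submodule.mem_sup.mp hw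
  have h1 : E 0 *ᵥ (τ e *ᵥ v) = τ e *ᵥ v := by
    rw [Matrix.mulVec_mulVec, D.AA_left (D.AA_tau P.mem)]
  rw [← hsum, Matrix.mulVec_add, D.E0_AV hw1, D.E0_XV hw2, add_zero] at h1
  have h2 : τ e *ᵥ w1 = 0 := by
    clear h1 hsum hw
    induction hw1 using Submodule.span_induction with
    | mem w hw =>
      obtain ⟨a, ha, v, rfl⟩ := hw
      rw [Matrix.mulVec_mulVec, ← mul_assoc, hII' a ha]; simp
    | zero => simp
    | add u v _ _ hu hv => rw [Matrix.mulVec_add, hu, hv, add_zero]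
    | smul c u _ hu => rw [Matrix.mulVec_smul, hu, smul_zero]
  rw [h1, hsum, Matrix.mulVec_mulVec, D.tau_idem P] at h2
  rw [h2]; simp

/-- Case II, dimension one: `KK` is a line. -/
theorem caseII_one (hII : ∀ a ∈ AA L E, e * a * τ e = 0)
    (hd : Module.finrank ℂ (NN L E e) = 1) : Module.finrank ℂ (KK L E) ≤ 1 := by
  have heτ : e * τ e = 0 := by
    have := hII e P.mem
    rwa [P.idem] at this
  have hτe : τ e * e = 0 := by
    have := congrArg conjTranspose heτ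
    rwa [conjTranspose_mul, P.star, D.tau_star_e P, conjTranspose_zero] at this
  have hright : ∀ a ∈ AA L E, ∃ c : ℂ, a * e = c • e := by
    intro a ha
    exact D.NN_one P hd ⟨mul_mem ha P.mem, by rw [mul_assoc, P.idem]⟩
  have hleft : ∀ a ∈ AA L E, ∃ c : ℂ, e * a = c • e := by
    intro a ha
    obtain ⟨c, hc⟩ := hright _ (D.AA_star ha)
    refine ⟨star c, ?_⟩
    have := congrArg conjTranspose hc
    rwa [conjTranspose_mul, conjTranspose_conjTranspose, P.star, conjTranspose_smul,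
      P.star] at this
  have hτright : ∀ a ∈ AA L E, ∃ c : ℂ, a * τ e = c • τ e := by
    intro a ha
    obtain ⟨c, hc⟩ := hleft _ (D.AA_tau ha)
    refine ⟨c, ?_⟩
    have := congrArg τ hc
    rwa [D.inv.mul, D.inv.inv, map_smul] at this
  have hK : KK L E ≤ Submodule.span ℂ {e - τ e} := by
    intro k hk
    rw [Submodule.mem_span_singleton]
    have hkA := D.KK_le k hk
    obtain ⟨c, hc⟩ := hright k hkA
    obtain ⟨c', hc'⟩ := hleft k hkA
    have hcc : c = c' := by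
      have h1 : e * k * e = c • e := by rw [mul_assoc, hc, mul_smul_comm, P.idem]
      have h2 : e * k * e = c' • e := by rw [hc', smul_mul_assoc, P.idem]
      have h3 : (c - c') • e = 0 := by rw [sub_smul, ← h1, ← h2, sub_self]
      rcases smul_eq_zero.mp h3 with h4 | h4
      · exact sub_eq_zero.mp h4
      · exact absurd h4 P.ne
    have hkτ : k * τ e = -c • τ e := by
      have h1 := congrArg τ hc'
      rw [D.inv.mul, D.KK_tau hk, map_smul] at h1
      rw [neg_smul, hcc, ← h1]; simp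
    refine ⟨c, ?_⟩
    symm
    apply mat_ext
    intro v
    have hcov := D.cover P.mem P.idem P.ne
    have hv : v ∈ (AV L E e ⊔ XV τ L E e) ⊔ (AV L E (τ e) ⊔ XV τ L E (τ e)) := by
      rw [hcov]; exact Submodule.mem_top
    obtain ⟨w, hw, w', hw', rfl⟩ := Submodule.mem_sup.mp hv
    obtain ⟨w1, hw1, w2, hw2, rfl⟩ := Submodule.mem_sup.mp hw
    obtain ⟨w3, hw3, w4, hw4, rfl⟩ := Submodule.mem_sup.mp hw'
    have i1 : k *ᵥ w1 = (c • (e - τ e)) *ᵥ w1 := by
      clear hv hw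
      induction hw1 using Submodule.span_induction with
      | mem w hw =>
        obtain ⟨a, ha, v, rfl⟩ := hw
        obtain ⟨α, hα⟩ := hright a ha
        rw [Matrix.mulVec_mulVec, Matrix.mulVec_mulVec, hα, mul_smul_comm, hc, mul_smul_comm,
          smul_mul_assoc, sub_mul, P.idem, hτe, sub_zero]
      | zero => simp
      | add u v _ _ hu hv => rw [Matrix.mulVec_add, hu, hv, Matrix.mulVec_add]
      | smul r u _ hu => rw [Matrix.mulVec_smul, hu, Matrix.mulVec_smul]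
    have i3 : k *ᵥ w3 = (c • (e - τ e)) *ᵥ w3 := by
      clear hv hw'
      induction hw3 using Submodule.span_induction with
      | mem w hw =>
        obtain ⟨a, ha, v, rfl⟩ := hw
        obtain ⟨α, hα⟩ := hτright a ha
        rw [Matrix.mulVec_mulVec, Matrix.mulVec_mulVec, hα, mul_smul_comm, hkτ, mul_smul_comm,
          smul_mul_assoc, sub_mul, D.tau_idem P, heτ, zero_sub, smul_neg, neg_smul]
      | zero => simp
      | add u v _ _ hu hv => rw [Matrix.mulVec_add, hu, hv, Matrix.mulVec_add]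
      | smul r u _ hu => rw [Matrix.mulVec_smul, hu, Matrix.mulVec_smul]
    have hX : ∀ f : Matrix n n ℂ, ∀ w ∈ XV τ L E f, ∀ a ∈ AA L E, a *ᵥ w = 0 := by
      intro f w hw a ha
      rw [← D.AA_right ha, ← Matrix.mulVec_mulVec, D.E0_XV hw]; simp
    have heA : c • (e - τ e) ∈ AA L E :=
      SMulMemClass.smul_mem c (sub_mem P.mem (D.AA_tau P.mem))
    simp only [Matrix.mulVec_add]
    rw [i1, i3, hX _ _ hw2 _ hkA, hX _ _ hw4 _ hkA, hX _ _ hw2 _ heA, hX _ _ hw4 _ heA]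
  calc Module.finrank ℂ (KK L E) ≤ Module.finrank ℂ (Submodule.span ℂ {e - τ e}) :=
        Submodule.finrank_mono hK
    _ ≤ 1 := (finrank_span_le_card _).trans (by simp)

end Dat

end MH
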