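import Mathlib

/-!
Self-adjoint irreducible Lie algebras of skew matrices over the complex numbers with a
distinguished self-adjoint element `h`: the set-up for the theorem on a dominating middle
eigenvalue. `τ` is the adjoint for a symmetric or alternating form.
-/

open Matrix

namespace MH

variable {n : Type*} [Fintype n] [DecidableEq n]

/-- An anti-automorphism of order two of the matrix algebra that commutes with the adjoint. -/
structure Inv (τ : Matrix n n ℂ →ₗ[ℂ] Matrix n n ℂ) : Prop where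
  mul : ∀ x y, τ (x * y) = τ y * τ x
  inv : ∀ x, τ (τ x) = x
  star : ∀ x, τ xᴴ = (τ x)ᴴ
  tr : ∀ x, (τ x).trace = x.trace

/-- `E` is the spectral decomposition of the Hermitian matrix `h`. -/
structure Spec (h : Matrix n n ℂ) (E : ℝ → Matrix n n ℂ) (Λ : Finset ℝ) : Prop where
  star : ∀ μ, (E μ)ᴴ = E μ
  mul : ∀ μ ν, E μ * E ν = if μ = ν then E μ else 0
  supp : ∀ μ, μ ∉ Λ → E μ = 0
  sum : ∑ μ ∈ Λ, E μ = 1
  eq : h = ∑ μ ∈ Λ, (μ : ℂ) • E μ

/-- `L` is an irreducible complex Lie algebra of matrices, closed under the adjoint `ᴴ`, that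
consists of `τ`-skew matrices, and `h` is a self-adjoint element of `L`. -/
structure Dat (τ : Matrix n n ℂ →ₗ[ℂ] Matrix n n ℂ) (L : Submodule ℂ (Matrix n n ℂ))
    (h : Matrix n n ℂ) (E : ℝ → Matrix n n ℂ) (Λ : Finset ℝ) : Prop where
  inv : Inv τ
  spec : Spec h E Λ
  sk : ∀ x ∈ L, τ x = -x
  br : ∀ x ∈ L, ∀ y ∈ L, x * y - y * x ∈ L
  st : ∀ x ∈ L, xᴴ ∈ L
  irr : ∀ T : Matrix n n ℂ, (∀ x ∈ L, T * x = x * T) → ∃ c : ℂ, T = c • (1 : Matrix n n ℂ)
  mem : h ∈ L

/-- The projection onto the sum of the eigenspaces of `h` with positive eigenvalue. -/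
noncomputable def Pp (E : ℝ → Matrix n n ℂ) (Λ : Finset ℝ) : Matrix n n ℂ :=
  ∑ μ ∈ Λ.filter (fun μ => 0 < μ), E μ

/-- The elements of `L` that live on the kernel of `h`. -/
def KK (L : Submodule ℂ (Matrix n n ℂ)) (E : ℝ → Matrix n n ℂ) :
    Submodule ℂ (Matrix n n ℂ) where
  carrier := {x | x ∈ L ∧ E 0 * x * E 0 = x}
  add_mem' := by
    rintro a b ⟨ha, ha'⟩ ⟨hb, hb'⟩
    exact ⟨L.add_mem ha hb, by rw [mul_add, add_mul, ha', hb']⟩
  zero_mem' := ⟨L.zero_mem, by simp⟩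
  smul_mem' := by
    rintro c a ⟨ha, ha'⟩
    exact ⟨L.smul_mem c ha, by rw [mul_smul_comm, smul_mul_assoc, ha']⟩

/-- The part of degree `μ` of `L` for the bracket with `h`. -/
def Ld (L : Submodule ℂ (Matrix n n ℂ)) (h : Matrix n n ℂ) (μ : ℝ) :
    Submodule ℂ (Matrix n n ℂ) where
  carrier := {x | x ∈ L ∧ h * x - x * h = (μ : ℂ) • x}
  add_mem' := by
    rintro a b ⟨ha, ha'⟩ ⟨hb, hb'⟩
    refine ⟨L.add_mem ha hb, ?_⟩
    rw [mul_add, add_mul, smul_add, ← ha', ← hb']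
    abel
  zero_mem' := ⟨L.zero_mem, by simp⟩
  smul_mem' := by
    rintro c a ⟨ha, ha'⟩
    refine ⟨L.smul_mem c ha, ?_⟩
    rw [mul_smul_comm, smul_mul_assoc, smul_comm, ← ha', smul_sub]

end MH
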