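import Pool.Agent.Helper98.MH.MinP

/-!
If the minimal projection has rank one, the Lie algebra consists of all skew elements.
-/

open Matrix

namespace MH

variable {n : Type*} [Fintype n] [DecidableEq n]
variable {h : Matrix n n ℂ} {E : ℝ → Matrix n n ℂ} {Λ : Finset ℝ}
variable {τ : Matrix n n ℂ →ₗ[ℂ] Matrix n n ℂ} {L : Submodule ℂ (Matrix n n ℂ)}

lemma rank_one_scalar {e : Matrix n n ℂ} (hr : e.rank = 1) (y : Matrix n n ℂ) :
    ∃ c : ℂ, e * y * e = c • e := by
  have h1 : Module.finrank ℂ (LinearMap.range (Matrix.toLin' e)) = 1 := by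
    rw [← hr, Matrix.rank_eq_finrank_range_toLin e (Pi.basisFun ℂ n) (Pi.basisFun ℂ n),
      Matrix.toLin_eq_toLin']
  obtain ⟨v, hv0, hv⟩ := finrank_eq_one_iff'.mp h1
  have hv' : ∀ w : n → ℂ, ∃ c : ℂ, e *ᵥ w = c • (v : n → ℂ) := by
    intro w
    obtain ⟨c, hc⟩ := hv ⟨Matrix.toLin' e w, LinearMap.mem_range_self _ w⟩
    refine ⟨c, ?_⟩
    have := congrArg Subtype.val hc
    rw [← Matrix.toLin'_apply]
    exact this.symm
  obtain ⟨c, hc⟩ := hv' (y *ᵥ (v : n → ℂ))
  refine ⟨c, ?_⟩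
  apply Dat.mat_ext
  intro u
  obtain ⟨a, ha⟩ := hv' u
  rw [← Matrix.mulVec_mulVec, ha, Matrix.mulVec_smul, ← Matrix.mulVec_mulVec, hc,
    Matrix.smul_mulVec, ha, smul_comm]

namespace Dat

variable (D : Dat τ L h E Λ) {e : Matrix n n ℂ} (P : MinP L E e)
include D P

/-- All matrices from the kernel of `h` to its complement are in `XX`. -/
theorem XX_full (hc : AV L E e ⊔ XV τ L E e = ⊤)
    (hs : ∀ z1 ∈ XX τ L E, z1 * e = z1 → ∀ z2 ∈ XX τ L E, z2 * e = z2 →
      ∃ c : ℂ, z2ᴴ * z1 = c • e) (hr : e.rank = 1) {z : Matrix n n ℂ}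
    (h0 : E 0 * z = 0) (h1 : z * E 0 = z) : z ∈ XX τ L E := by
  obtain ⟨u, hu, huu, hQ, _⟩ := D.E0_sum P hc
  have e1 : z = ∑ i, (z * u i) * (u i)ᴴ := by
    conv_lhs => rw [← h1, ← hQ, Finset.mul_sum]
    simp only [mul_assoc]
  rw [e1]
  refine (XX τ L E).sum_mem fun i _ => D.XX_mul ?_ (D.AA_star (hu i).1)
  have hme : (z * u i) * e = z * u i := by rw [mul_assoc, (hu i).2]
  have hm0 : E 0 * (z * u i) = 0 := by rw [← mul_assoc, h0, zero_mul]
  generalize z * u i = m at hme hm0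
  have e2 : m = ∑ ρ ∈ Λ, E ρ * m := by rw [← Finset.sum_mul, D.spec.sum, one_mul]
  rw [e2]
  refine (XX τ L E).sum_mem fun ρ _ => ?_
  by_cases hρ : ρ = 0
  · rw [hρ, hm0]; exact zero_mem _
  · obtain ⟨v, hv, _, hQv, _⟩ := D.E_sum P hc hs hρ
    rw [← hQv, Finset.sum_mul]
    refine (XX τ L E).sum_mem fun j _ => ?_
    obtain ⟨c, hcc⟩ := rank_one_scalar hr ((v j)ᴴ * m)
    have h3 : e * (v j)ᴴ = (v j)ᴴ := by
      have := congrArg conjTranspose (hv j).2.1
      rwa [conjTranspose_mul, P.star] at this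
    have h4 : (v j)ᴴ * m = c • e := by rw [← hcc, ← mul_assoc, h3, mul_assoc, hme]
    rw [mul_assoc, h4, mul_smul_comm, (hv j).2.1]
    exact (XX τ L E).smul_mem _ (hv j).1

/-- The Lie algebra is full. -/
theorem full (hc : AV L E e ⊔ XV τ L E e = ⊤)
    (hs : ∀ z1 ∈ XX τ L E, z1 * e = z1 → ∀ z2 ∈ XX τ L E, z2 * e = z2 →
      ∃ c : ℂ, z2ᴴ * z1 = c • e) (hr : e.rank = 1)
    (hne : (1 - E 0 : Matrix n n ℂ).trace ≠ 0) (hne0 : (E 0).trace ≠ 0)
    {x : Matrix n n ℂ} (hx : τ x = -x) : x ∈ L := by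
  set Q : Matrix n n ℂ := 1 - E 0 with hQ
  have hQQ : Q * Q = Q := by
    have : (1 - E 0 : Matrix n n ℂ) * (1 - E 0) = 1 - E 0 - E 0 + E 0 * E 0 := by noncomm_ring
    rw [hQ, this, D.E00]; abel
  have hEQ : E 0 * Q = 0 := by rw [hQ, mul_sub, mul_one, D.E00, sub_self]
  have hQE : Q * E 0 = 0 := by rw [hQ, sub_mul, one_mul, D.E00, sub_self]
  have hτQ : τ Q = Q := by rw [hQ, map_sub, D.inv.one, D.tauE0]
  have hsum : E 0 + Q = 1 := by rw [hQ]; abel
  -- off-diagonal pieces
  have k1 : ∀ y : Matrix n n ℂ, Q * y * E 0 - τ (Q * y * E 0) ∈ L := by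
    intro y
    have : Q * y * E 0 ∈ XX τ L E := D.XX_full P hc hs hr
      (by rw [← mul_assoc, ← mul_assoc, hEQ]; simp) (by rw [mul_assoc, D.E00])
    exact this.1
  have k2 : ∀ y : Matrix n n ℂ, E 0 * y * Q - τ (E 0 * y * Q) ∈ L := by
    intro y
    have h1 := k1 (τ y)
    have h2 : τ (E 0 * y * Q) = Q * τ y * E 0 := by
      rw [D.inv.mul, D.inv.mul, hτQ, D.tauE0, mul_assoc]
    have h3 : E 0 * y * Q - τ (E 0 * y * Q) = -(Q * τ y * E 0 - τ (Q * τ y * E 0)) := by
      have h4 : τ (Q * τ y * E 0) = E 0 * y * Q := by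
        rw [← h2, D.inv.inv]
      rw [h2, h4]; abel
    rw [h3]; exact L.neg_mem h1
  -- bracket of two off-diagonal pieces
  have br : ∀ a c : Matrix n n ℂ, Q * a * E 0 = a → E 0 * c * Q = c →
      (a - τ a) * (c - τ c) - (c - τ c) * (a - τ a)
        = (a * c - τ (a * c)) - (c * a - τ (c * a)) := by
    intro a c ha hc
    have a0 : E 0 * a = 0 := by rw [← ha, ← mul_assoc, ← mul_assoc, hEQ]; simp
    have aE : a * E 0 = a := by
      conv_lhs => rw [← ha]
      rw [mul_assoc, D.E00, ha]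
    have c0 : c * E 0 = 0 := by rw [← hc, mul_assoc, hQE, mul_zero]
    have cE : E 0 * c = c := by
      conv_lhs => rw [← hc]
      rw [← mul_assoc, ← mul_assoc, D.E00, hc]
    have τa0 : τ a * E 0 = 0 := by
      have := congrArg τ a0
      rwa [D.inv.mul, D.tauE0, map_zero] at this
    have τaE : E 0 * τ a = τ a := by
      have := congrArg τ aE
      rwa [D.inv.mul, D.tauE0] at this
    have τc0 : E 0 * τ c = 0 := by
      have := congrArg τ c0
      rwa [D.inv.mul, D.tauE0, map_zero] at this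
    have τcE : τ c * E 0 = τ c := by
      have := congrArg τ cE
      rwa [D.inv.mul, D.tauE0] at this
    have f1 : a * τ c = 0 := by rw [← aE, mul_assoc, τc0, mul_zero]
    have f2 : τ a * c = 0 := by rw [← cE, ← mul_assoc, τa0, zero_mul]
    have f3 : c * τ a = 0 := by rw [← τaE, ← mul_assoc, c0, zero_mul]
    have f4 : τ c * a = 0 := by rw [← τcE, mul_assoc, a0, mul_zero]
    have : (a - τ a) * (c - τ c) - (c - τ c) * (a - τ a)
        = a * c - a * τ c - τ a * c + τ a * τ c - c * a + c * τ a + τ c * a - τ c * τ a := by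
      noncomm_ring
    rw [this, f1, f2, f3, f4, D.inv.mul, D.inv.mul]
    abel
  -- matrix units
  let U : n → n → Matrix n n ℂ := fun p q => Matrix.single p q (1 : ℂ)
  have hU : ∀ (p i q : n) (A : Matrix n n ℂ), U p i * A * U i q = A i i • U p q := by
    intro p i q A
    ext r s
    simp only [U, Matrix.mul_apply, Matrix.single_apply, Matrix.smul_apply, smul_eq_mul]
    by_cases hr : p = r
    · by_cases hs : q = s
      · subst hr hs
        simp
      · simp [hs]
    · simp [hr]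
  have hU2 : ∀ (p q r s : n) (A : Matrix n n ℂ), U p q * A * U r s = A q r • U p s := by
    intro p q r s A
    ext i j
    simp only [U, Matrix.mul_apply, Matrix.single_apply, Matrix.smul_apply, smul_eq_mul]
    by_cases hr : p = i
    · by_cases hs : s = j
      · subst hr hs
        simp
      · simp [hs]
    · simp [hr]
  have hUsum : ∑ i, U i i = (1 : Matrix n n ℂ) := by
    ext i j
    simp only [U, Matrix.sum_apply, Matrix.single_apply, Matrix.one_apply]
    by_cases hij : i = j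
    · subst hij; simp
    · rw [if_neg hij]
      apply Finset.sum_eq_zero
      intro k _
      rw [if_neg]
      rintro ⟨rfl, rfl⟩; exact hij rfl
  -- diagonal pieces
  have k3 : ∀ p q : n, Q * U p q * Q - τ (Q * U p q * Q) ∈ L := by
    intro p q
    have h1 : ∑ i, (((Q * U p i * E 0) - τ (Q * U p i * E 0)) *
        ((E 0 * U i q * Q) - τ (E 0 * U i q * Q)) - ((E 0 * U i q * Q) - τ (E 0 * U i q * Q)) *
        ((Q * U p i * E 0) - τ (Q * U p i * E 0))) ∈ L :=
      L.sum_mem fun i _ => D.br _ (k1 _) _ (k2 _)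
    have h2 : ∀ i, ((Q * U p i * E 0) - τ (Q * U p i * E 0)) *
        ((E 0 * U i q * Q) - τ (E 0 * U i q * Q)) - ((E 0 * U i q * Q) - τ (E 0 * U i q * Q)) *
        ((Q * U p i * E 0) - τ (Q * U p i * E 0)) =
        (E 0) i i • (Q * U p q * Q - τ (Q * U p q * Q))
          - Q q p • (E 0 * U i i * E 0 - τ (E 0 * U i i * E 0)) := by
      intro i
      rw [br _ _ (by rw [← mul_assoc, ← mul_assoc, hQQ, mul_assoc _ (E 0) (E 0), D.E00])
        (by rw [← mul_assoc, ← mul_assoc, D.E00, mul_assoc _ Q Q, hQQ])]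
      have g1 : Q * U p i * E 0 * (E 0 * U i q * Q) = (E 0) i i • (Q * U p q * Q) := by
        have : Q * U p i * E 0 * (E 0 * U i q * Q) = Q * (U p i * (E 0 * E 0) * U i q) * Q := by
          simp only [mul_assoc]
        rw [this, D.E00, hU, mul_smul_comm, smul_mul_assoc]
      have g2 : E 0 * U i q * Q * (Q * U p i * E 0) = Q q p • (E 0 * U i i * E 0) := by
        have : E 0 * U i q * Q * (Q * U p i * E 0) = E 0 * (U i q * (Q * Q) * U p i) * E 0 := by
          simp only [mul_assoc]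
        rw [this, hQQ, hU2, mul_smul_comm, smul_mul_assoc]
      rw [g1, g2, map_smul, map_smul, smul_sub, smul_sub]
    rw [Finset.sum_congr rfl (fun i _ => h2 i), Finset.sum_sub_distrib, ← Finset.sum_smul,
      ← Finset.smul_sum, Finset.sum_sub_distrib, ← map_sum] at h1
    have h3 : ∑ i, E 0 * U i i * E 0 = E 0 := by
      rw [← Finset.sum_mul, ← Finset.mul_sum, hUsum, mul_one, D.E00]
    have h4 : ∑ i, (E 0) i i = (E 0).trace := rfl
    rw [h3, D.tauE0, sub_self, smul_zero, sub_zero, h4] at h1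
    have := L.smul_mem ((E 0).trace)⁻¹ h1
    rwa [smul_smul, inv_mul_cancel₀ hne0, one_smul] at this
  have k4 : ∀ p q : n, E 0 * U p q * E 0 - τ (E 0 * U p q * E 0) ∈ L := by
    intro p q
    have h1 : ∑ i, (((Q * U i q * E 0) - τ (Q * U i q * E 0)) *
        ((E 0 * U p i * Q) - τ (E 0 * U p i * Q)) - ((E 0 * U p i * Q) - τ (E 0 * U p i * Q)) *
        ((Q * U i q * E 0) - τ (Q * U i q * E 0))) ∈ L :=
      L.sum_mem fun i _ => D.br _ (k1 _) _ (k2 _)
    have h2 : ∀ i, ((Q * U i q * E 0) - τ (Q * U i q * E 0)) *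
        ((E 0 * U p i * Q) - τ (E 0 * U p i * Q)) - ((E 0 * U p i * Q) - τ (E 0 * U p i * Q)) *
        ((Q * U i q * E 0) - τ (Q * U i q * E 0)) =
        (E 0) q p • (Q * U i i * Q - τ (Q * U i i * Q))
          - Q i i • (E 0 * U p q * E 0 - τ (E 0 * U p q * E 0)) := by
      intro i
      rw [br _ _ (by rw [← mul_assoc, ← mul_assoc, hQQ, mul_assoc _ (E 0) (E 0), D.E00])
        (by rw [← mul_assoc, ← mul_assoc, D.E00, mul_assoc _ Q Q, hQQ])]
      have g1 : Q * U i q * E 0 * (E 0 * U p i * Q) = (E 0) q p • (Q * U i i * Q) := by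
        have : Q * U i q * E 0 * (E 0 * U p i * Q) = Q * (U i q * (E 0 * E 0) * U p i) * Q := by
          simp only [mul_assoc]
        rw [this, D.E00, hU2, mul_smul_comm, smul_mul_assoc]
      have g2 : E 0 * U p i * Q * (Q * U i q * E 0) = Q i i • (E 0 * U p q * E 0) := by
        have : E 0 * U p i * Q * (Q * U i q * E 0) = E 0 * (U p i * (Q * Q) * U i q) * E 0 := by
          simp only [mul_assoc]
        rw [this, hQQ, hU, mul_smul_comm, smul_mul_assoc]
      rw [g1, g2, map_smul, map_smul, smul_sub, smul_sub]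
    rw [Finset.sum_congr rfl (fun i _ => h2 i), Finset.sum_sub_distrib, ← Finset.sum_smul,
      ← Finset.smul_sum, Finset.sum_sub_distrib, ← map_sum] at h1
    have h3 : ∑ i, Q * U i i * Q = Q := by
      rw [← Finset.sum_mul, ← Finset.mul_sum, hUsum, mul_one, hQQ]
    have h4 : ∑ i, Q i i = Q.trace := rfl
    rw [h3, hτQ, sub_self, smul_zero, zero_sub, h4] at h1
    have := L.smul_mem (-(Q.trace)⁻¹) h1
    rwa [smul_neg, neg_smul, neg_neg, smul_smul, inv_mul_cancel₀ hne, one_smul] at this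
  -- decomposition in matrix units
  have hdec : ∀ (R S : Matrix n n ℂ) (y : Matrix n n ℂ),
      (∀ p q, R * U p q * S - τ (R * U p q * S) ∈ L) → R * y * S - τ (R * y * S) ∈ L := by
    intro R S y hRS
    have h1 : y = ∑ p, ∑ q, y p q • U p q := by
      conv_lhs => rw [Matrix.matrix_eq_sum_single y]
      apply Finset.sum_congr rfl
      intro p _
      apply Finset.sum_congr rfl
      intro q _
      simp [U]
    have h2 : R * y * S - τ (R * y * S) =
        ∑ p, ∑ q, y p q • (R * U p q * S - τ (R * U p q * S)) := by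
      conv_lhs => rw [h1]
      simp only [Finset.mul_sum, Finset.sum_mul, map_sum, mul_smul_comm, smul_mul_assoc,
        map_smul, smul_sub, Finset.sum_sub_distrib]
    rw [h2]
    exact L.sum_mem fun p _ => L.sum_mem fun q _ => L.smul_mem _ (hRS p q)
  have hall : ∀ y : Matrix n n ℂ, y - τ y ∈ L := by
    intro y
    have h1 : y = Q * y * E 0 + E 0 * y * Q + Q * y * Q + E 0 * y * E 0 := by
      have : y = (E 0 + Q) * y * (E 0 + Q) := by rw [hsum, one_mul, mul_one]
      conv_lhs => rw [this]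
      noncomm_ring
    have h2 : y - τ y = (Q * y * E 0 - τ (Q * y * E 0)) + (E 0 * y * Q - τ (E 0 * y * Q))
        + (Q * y * Q - τ (Q * y * Q)) + (E 0 * y * E 0 - τ (E 0 * y * E 0)) := by
      conv_lhs => rw [h1]
      simp only [map_add]
      abel
    rw [h2]
    exact L.add_mem (L.add_mem (L.add_mem (k1 y) (k2 y)) (hdec Q Q y k3)) (hdec _ _ y k4)
  have h1 := L.smul_mem (2⁻¹ : ℂ) (hall x)
  rw [hx, sub_neg_eq_add, ← two_smul ℂ x, smul_smul, inv_mul_cancel₀ two_ne_zero, one_smul] at h1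
  exact h1

end Dat

end MH
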