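import Pool.Agent.Helper98.MH.Stab

/-!
Minimal projections: the module `N = A e`, the scalar products of the off-diagonal part.
-/

open Matrix

namespace MH

variable {n : Type*} [Fintype n] [DecidableEq n]
variable {h : Matrix n n ℂ} {E : ℝ → Matrix n n ℂ} {Λ : Finset ℝ}
variable {τ : Matrix n n ℂ →ₗ[ℂ] Matrix n n ℂ} {L : Submodule ℂ (Matrix n n ℂ)}

/-- A minimal projection of the algebra `AA L E`. -/
structure MinP (L : Submodule ℂ (Matrix n n ℂ)) (E : ℝ → Matrix n n ℂ) (e : Matrix n n ℂ) :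
    Prop where
  mem : e ∈ AA L E
  idem : e * e = e
  star : eᴴ = e
  ne : e ≠ 0
  min : ∀ y ∈ AA L E, ∃ c : ℂ, e * y * e = c • e

/-- The left ideal `A e`. -/
def NN (L : Submodule ℂ (Matrix n n ℂ)) (E : ℝ → Matrix n n ℂ) (e : Matrix n n ℂ) :
    Submodule ℂ (Matrix n n ℂ) where
  carrier := {a | a ∈ AA L E ∧ a * e = a}
  add_mem' := by
    rintro a b ⟨ha, ha'⟩ ⟨hb, hb'⟩
    exact ⟨add_mem ha hb, by rw [add_mul, ha', hb']⟩
  zero_mem' := ⟨zero_mem _, by simp⟩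
  smul_mem' := by
    rintro c a ⟨ha, ha'⟩
    exact ⟨SMulMemClass.smul_mem c ha, by rw [smul_mul_assoc, ha']⟩

/-- The homogeneous off-diagonal part of degree `ρ`, supported on `e`. -/
def MM (τ : Matrix n n ℂ →ₗ[ℂ] Matrix n n ℂ) (L : Submodule ℂ (Matrix n n ℂ))
    (E : ℝ → Matrix n n ℂ) (e : Matrix n n ℂ) (ρ : ℝ) : Submodule ℂ (Matrix n n ℂ) where
  carrier := {z | z ∈ XX τ L E ∧ z * e = z ∧ E ρ * z = z}
  add_mem' := by
    rintro a b ⟨ha, ha', ha''⟩ ⟨hb, hb', hb''⟩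
    exact ⟨add_mem ha hb, by rw [add_mul, ha', hb'], by rw [mul_add, ha'', hb'']⟩
  zero_mem' := ⟨zero_mem _, by simp, by simp⟩
  smul_mem' := by
    rintro c a ⟨ha, ha', ha''⟩
    exact ⟨(XX τ L E).smul_mem c ha, by rw [smul_mul_assoc, ha'], by rw [mul_smul_comm, ha'']⟩

lemma mem_NN {e a : Matrix n n ℂ} : a ∈ NN L E e ↔ a ∈ AA L E ∧ a * e = a := Iff.rfl

lemma mem_MM {e z : Matrix n n ℂ} {ρ : ℝ} :
    z ∈ MM τ L E e ρ ↔ z ∈ XX τ L E ∧ z * e = z ∧ E ρ * z = z := Iff.rfl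

namespace Dat

variable (D : Dat τ L h E Λ) {e : Matrix n n ℂ} (P : MinP L E e)
include D P

lemma tau_star_e : (τ e)ᴴ = τ e := by rw [← D.inv.star, P.star]

lemma tau_idem : τ e * τ e = τ e := by rw [← D.inv.mul, P.idem]

lemma tau_ne : τ e ≠ 0 := by
  intro h0
  apply P.ne
  have := congrArg τ h0
  rwa [D.inv.inv, map_zero] at this

/-- The image of a minimal projection is a minimal projection. -/
lemma tau_minP : MinP L E (τ e) where
  mem := D.AA_tau P.mem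
  idem := D.tau_idem P
  star := D.tau_star_e P
  ne := D.tau_ne P
  min := by
    intro y hy
    obtain ⟨c, hc⟩ := P.min _ (D.AA_tau hy)
    refine ⟨c, ?_⟩
    have := congrArg τ hc
    rwa [D.inv.mul, D.inv.mul, D.inv.inv, ← mul_assoc, map_smul] at this

lemma NN_rel {m m' : Matrix n n ℂ} (hm : m ∈ NN L E e) (hm' : m' ∈ NN L E e) :
    ∃ c : ℂ, mᴴ * m' = c • e := by
  obtain ⟨c, hc⟩ := P.min (mᴴ * m') (mul_mem (D.AA_star hm.1) hm'.1)
  refine ⟨c, ?_⟩
  rw [← hc]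
  have h1 : e * mᴴ = mᴴ := by
    have := congrArg conjTranspose hm.2
    rwa [conjTranspose_mul, P.star] at this
  rw [← mul_assoc, h1, mul_assoc, hm'.2]

lemma e_mem_NN : e ∈ NN L E e := ⟨P.mem, P.idem⟩

/-- If `e A τ e` is not zero, then `e` alone covers. -/
theorem cover_I (hI : ∃ a ∈ AA L E, e * a * τ e ≠ 0) : AV L E e ⊔ XV τ L E e = ⊤ := by
  obtain ⟨a, ha, hne⟩ := hI
  set p := e * a * τ e with hp
  have hpA : p ∈ AA L E := mul_mem (mul_mem P.mem ha) (D.AA_tau P.mem)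
  have hep : e * p = p := by rw [hp, ← mul_assoc, ← mul_assoc, P.idem]
  have hpe : pᴴ * e = pᴴ := by
    have := congrArg conjTranspose hep
    rwa [conjTranspose_mul, P.star] at this
  have hpτ : p * τ e = p := by rw [hp, mul_assoc, D.tau_idem P]
  have hτp : τ e * pᴴ = pᴴ := by
    have := congrArg conjTranspose hpτ
    rwa [conjTranspose_mul, D.tau_star_e P] at this
  clear_value p
  obtain ⟨c, hc⟩ := (D.tau_minP P).min (pᴴ * p) (mul_mem (D.AA_star hpA) hpA)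
  have hc' : pᴴ * p = c • τ e := by rw [← hc, ← mul_assoc, hτp, mul_assoc, hpτ]
  have hc0 : c ≠ 0 := by
    intro h0
    rw [h0, zero_smul] at hc'
    exact hne (eq_zero_of_mul hc')
  have hτe : τ e = c⁻¹ • (pᴴ * p) := by rw [hc', smul_smul, inv_mul_cancel₀ hc0, one_smul]
  have h1 : AV L E (τ e) ≤ AV L E e := by
    rw [AV, Submodule.span_le]
    rintro w ⟨b, hb, v, rfl⟩
    have : b * τ e = c⁻¹ • ((b * pᴴ) * e * p) := by
      rw [hτe, mul_smul_comm]
      congr 1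
      rw [mul_assoc b, hpe, mul_assoc]
    rw [this, Matrix.smul_mulVec, ← Matrix.mulVec_mulVec]
    exact Submodule.smul_mem _ _ (mem_AV (mul_mem hb (D.AA_star hpA)) _)
  have h2 : XV τ L E (τ e) ≤ XV τ L E e := by
    rw [XV, Submodule.span_le]
    rintro w ⟨z, hz, v, rfl⟩
    have : z * τ e = c⁻¹ • ((z * pᴴ) * e * p) := by
      rw [hτe, mul_smul_comm]
      congr 1
      rw [mul_assoc z, hpe, mul_assoc]
    rw [this, Matrix.smul_mulVec, ← Matrix.mulVec_mulVec]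
    exact Submodule.smul_mem _ _ (mem_XV (D.XX_mul hz (D.AA_star hpA)) _)
  have h3 := D.cover P.mem P.idem P.ne
  rw [eq_top_iff, ← h3]
  exact sup_le le_rfl (sup_le (h1.trans le_sup_left) (h2.trans le_sup_right))

omit P in
lemma E0_AV {w : n → ℂ} (hw : w ∈ AV L E e) : E 0 *ᵥ w = w := by
  induction hw using Submodule.span_induction with
  | mem w hw =>
    obtain ⟨a, ha, v, rfl⟩ := hw
    rw [Matrix.mulVec_mulVec, ← mul_assoc, D.AA_left ha]
  | zero => simp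
  | add u v _ _ hu hv => rw [Matrix.mulVec_add, hu, hv]
  | smul c u _ hu => rw [Matrix.mulVec_smul, hu]

omit P in
lemma E0_XV {w : n → ℂ} (hw : w ∈ XV τ L E e) : E 0 *ᵥ w = 0 := by
  induction hw using Submodule.span_induction with
  | mem w hw =>
    obtain ⟨a, ha, v, rfl⟩ := hw
    rw [Matrix.mulVec_mulVec, ← mul_assoc, ha.2.1]; simp
  | zero => simp
  | add u v _ _ hu hv => rw [Matrix.mulVec_add, hu, hv, add_zero]
  | smul c u _ hu => rw [Matrix.mulVec_smul, hu, smul_zero]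

omit [Fintype n] D P in
lemma mat_ext [Fintype n] {A B : Matrix n n ℂ} (hAB : ∀ v, A *ᵥ v = B *ᵥ v) : A = B := by
  apply Matrix.toLin'.injective
  apply LinearMap.ext
  intro v
  rw [Matrix.toLin'_apply, Matrix.toLin'_apply, hAB]

/-- The kernel of `h` is `N ⊗ e V`. -/
theorem E0_sum (hc : AV L E e ⊔ XV τ L E e = ⊤) :
    ∃ u : Fin (Module.finrank ℂ (NN L E e)) → Matrix n n ℂ, (∀ i, u i ∈ NN L E e) ∧
      (∀ i j, (u i)ᴴ * u j = if i = j then e else 0) ∧ (∑ i, u i * (u i)ᴴ = E 0) ∧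
      (E 0).rank = Module.finrank ℂ (NN L E e) * e.rank := by
  obtain ⟨u, hu, huu, hQ, htr⟩ := exists_onb_rel98 P.idem P.star P.ne (NN L E e)
    (fun m hm => hm.2) (fun m hm m' hm' => D.NN_rel P hm hm')
  have hQE : (∑ i, u i * (u i)ᴴ) = E 0 := by
    have h1 : (∑ i, u i * (u i)ᴴ) * E 0 = ∑ i, u i * (u i)ᴴ := by
      rw [Finset.sum_mul]
      apply Finset.sum_congr rfl
      intro i _
      have := congrArg conjTranspose (D.AA_left (hu i).1)
      rw [conjTranspose_mul, D.spec.star] at this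
      rw [mul_assoc, this]
    have h2 : (∑ i, u i * (u i)ᴴ) * E 0 = E 0 := by
      apply mat_ext
      intro v
      have hv : v ∈ AV L E e ⊔ XV τ L E e := by rw [hc]; exact Submodule.mem_top
      obtain ⟨w1, hw1, w2, hw2, rfl⟩ := Submodule.mem_sup.mp hv
      rw [← Matrix.mulVec_mulVec, Matrix.mulVec_add, D.E0_AV hw1, D.E0_XV hw2, add_zero]
      clear hv
      induction hw1 using Submodule.span_induction with
      | mem w hw =>
        obtain ⟨a, ha, v, rfl⟩ := hw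
        rw [Matrix.mulVec_mulVec, hQ (a * e) ⟨mul_mem ha P.mem, by rw [mul_assoc, P.idem]⟩]
      | zero => simp
      | add u v _ _ hu hv => rw [Matrix.mulVec_add, hu, hv]
      | smul c u _ hu => rw [Matrix.mulVec_smul, hu]
    rw [← h1, h2]
  refine ⟨u, hu, huu, hQE, ?_⟩
  rw [hQE, ← rank_eq_trace D.E00, ← rank_eq_trace P.idem] at htr
  exact_mod_cast htr

/-- Scalar products in the off-diagonal part. -/
theorem scalars (hu : ∃ u ∈ NN L E e, u ≠ 0 ∧ e * u = 0 ∧ τ e * u = 0)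
    {z1 z2 : Matrix n n ℂ} (hz1 : z1 ∈ XX τ L E) (hz1e : z1 * e = z1)
    (hz2 : z2 ∈ XX τ L E) (hz2e : z2 * e = z2) : ∃ c : ℂ, z2ᴴ * z1 = c • e := by
  obtain ⟨u, hu, hu0, heu, hτu⟩ := hu
  obtain ⟨t, ht⟩ := D.NN_rel P hu hu
  have ht0 : t ≠ 0 := by
    intro h0
    rw [h0, zero_smul] at ht
    exact hu0 (eq_zero_of_mul ht)
  have huA : uᴴ ∈ AA L E := D.AA_star hu.1
  set y := z2 * uᴴ with hy
  have hyX : y ∈ XX τ L E := D.XX_mul hz2 huA
  set w := z2ᴴ * z1 with hw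
  have hyH : yᴴ = u * z2ᴴ := by rw [hy, conjTranspose_mul, conjTranspose_conjTranspose]
  -- the bracket
  have hb := D.br _ hz1.1 _ (D.st _ hyX.1)
  have e1 : (y - τ y)ᴴ = yᴴ - τ (yᴴ) := by rw [conjTranspose_sub, D.inv.star]
  have hyH0 : yᴴ * E 0 = 0 := by
    have := congrArg conjTranspose hyX.2.1
    rwa [conjTranspose_mul, D.spec.star, conjTranspose_zero] at this
  have hE0yH : E 0 * yᴴ = yᴴ := by
    have := congrArg conjTranspose hyX.2.2
    rwa [conjTranspose_mul, D.spec.star] at this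
  have hτyH : E 0 * τ (yᴴ) = 0 := by
    have := congrArg τ hyH0
    rwa [D.inv.mul, D.tauE0, map_zero] at this
  have hτyH2 : τ (yᴴ) * E 0 = τ (yᴴ) := by
    have := congrArg τ hE0yH
    rwa [D.inv.mul, D.tauE0] at this
  have f1 : z1 * τ (yᴴ) = 0 := by
    rw [← hz1.2.2, mul_assoc, hτyH, mul_zero]
  have f2 : τ z1 * yᴴ = 0 := by
    rw [← hE0yH, ← mul_assoc, D.tau_XX_E hz1, zero_mul]
  have f3 : yᴴ * τ z1 = 0 := by
    rw [← D.E_tau_XX hz1, ← mul_assoc, hyH0, zero_mul]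
  have f4 : τ (yᴴ) * z1 = 0 := by
    rw [← hτyH2, mul_assoc, hz1.2.1, mul_zero]
  have f5 : z1 * yᴴ = 0 := by
    rw [hyH, ← mul_assoc, ← hz1e, mul_assoc z1, heu, mul_zero, zero_mul]
  have f6 : τ (yᴴ) * τ z1 = 0 := by rw [← D.inv.mul, f5, map_zero]
  have hκ : (z1 - τ z1) * (yᴴ - τ (yᴴ)) - (yᴴ - τ (yᴴ)) * (z1 - τ z1)
      = τ z1 * τ (yᴴ) - yᴴ * z1 := by
    have : (z1 - τ z1) * (yᴴ - τ (yᴴ)) - (yᴴ - τ (yᴴ)) * (z1 - τ z1)
        = z1 * yᴴ - z1 * τ (yᴴ) - τ z1 * yᴴ + τ z1 * τ (yᴴ) - yᴴ * z1 + yᴴ * τ z1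
          + τ (yᴴ) * z1 - τ (yᴴ) * τ z1 := by noncomm_ring
    rw [this, f1, f2, f3, f4, f5, f6]
    noncomm_ring
  rw [e1, hκ] at hb
  have hκK : τ z1 * τ (yᴴ) - yᴴ * z1 ∈ KK L E := by
    apply D.mem_KK_of98 hb
    · rw [mul_sub, ← mul_assoc, D.E_tau_XX hz1, ← mul_assoc, hE0yH]
    · rw [sub_mul, mul_assoc, hτyH2, mul_assoc, hz1.2.2]
  have hκA := D.KK_le _ hκK
  obtain ⟨c, hc⟩ := P.min (uᴴ * (τ z1 * τ (yᴴ) - yᴴ * z1)) (mul_mem huA hκA)
  have heuH : e * uᴴ = uᴴ := by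
    have := congrArg conjTranspose hu.2
    rwa [conjTranspose_mul, P.star] at this
  have hew : w * e = w := by rw [hw, mul_assoc, hz1e]
  have hwe : e * w = w := by
    have : e * z2ᴴ = z2ᴴ := by
      have := congrArg conjTranspose hz2e
      rwa [conjTranspose_mul, P.star] at this
    rw [hw, ← mul_assoc, this]
  have g1 : uᴴ * (τ z1 * τ (yᴴ)) = 0 := by
    have h1 : τ z1 = τ e * τ z1 := by
      have := congrArg τ hz1e
      rw [D.inv.mul] at this
      exact this.symm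
    have h2 : uᴴ * τ e = 0 := by
      have := congrArg conjTranspose hτu
      rwa [conjTranspose_mul, D.tau_star_e P, conjTranspose_zero] at this
    rw [h1, ← mul_assoc, ← mul_assoc, h2]; simp
  have g2 : uᴴ * (yᴴ * z1) = t • w := by
    rw [hyH, mul_assoc u, ← hw, ← mul_assoc, ht, smul_mul_assoc, hwe]
  have g3 : e * (uᴴ * (τ z1 * τ (yᴴ) - yᴴ * z1)) * e = -(t • w) := by
    rw [mul_sub, g1, g2, zero_sub, mul_neg, neg_mul, mul_smul_comm, smul_mul_assoc, hwe, hew]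
  rw [g3] at hc
  refine ⟨-(t⁻¹ * c), ?_⟩
  have : t • w = -(c • e) := by rw [← hc, neg_neg]
  calc w = t⁻¹ • (t • w) := by rw [smul_smul, inv_mul_cancel₀ ht0, one_smul]
    _ = -(t⁻¹ * c) • e := by rw [this, smul_neg, smul_smul, neg_smul]

/-- The ranks of the spectral projections are multiples of the rank of `e`. -/
theorem E_sum (hc : AV L E e ⊔ XV τ L E e = ⊤)
    (hs : ∀ z1 ∈ XX τ L E, z1 * e = z1 → ∀ z2 ∈ XX τ L E, z2 * e = z2 →
      ∃ c : ℂ, z2ᴴ * z1 = c • e) {ρ : ℝ} (hρ : ρ ≠ 0) :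
    ∃ u : Fin (Module.finrank ℂ (MM τ L E e ρ)) → Matrix n n ℂ, (∀ i, u i ∈ MM τ L E e ρ) ∧
      (∀ i j, (u i)ᴴ * u j = if i = j then e else 0) ∧ (∑ i, u i * (u i)ᴴ = E ρ) ∧
      (E ρ).rank = Module.finrank ℂ (MM τ L E e ρ) * e.rank := by
  obtain ⟨u, hu, huu, hQ, htr⟩ := exists_onb_rel98 P.idem P.star P.ne (MM τ L E e ρ)
    (fun m hm => hm.2.1) (fun m hm m' hm' => hs m' hm'.1 hm'.2.1 m hm.1 hm.2.1)
  have hEE : E ρ * E ρ = E ρ := by rw [D.spec.mul, if_pos rfl]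
  have hQE : (∑ i, u i * (u i)ᴴ) = E ρ := by
    have h1 : (∑ i, u i * (u i)ᴴ) * E ρ = ∑ i, u i * (u i)ᴴ := by
      rw [Finset.sum_mul]
      apply Finset.sum_congr rfl
      intro i _
      have := congrArg conjTranspose (hu i).2.2
      rw [conjTranspose_mul, D.spec.star] at this
      rw [mul_assoc, this]
    have h2 : (∑ i, u i * (u i)ᴴ) * E ρ = E ρ := by
      apply mat_ext
      intro v
      have hv : v ∈ AV L E e ⊔ XV τ L E e := by rw [hc]; exact Submodule.mem_top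
      obtain ⟨w1, hw1, w2, hw2, rfl⟩ := Submodule.mem_sup.mp hv
      have h3 : E ρ *ᵥ w1 = 0 := by
        rw [← D.E0_AV hw1, Matrix.mulVec_mulVec, D.spec.mul, if_neg hρ]; simp
      rw [← Matrix.mulVec_mulVec, Matrix.mulVec_add, h3, zero_add]
      clear hv
      induction hw2 using Submodule.span_induction with
      | mem w hw =>
        obtain ⟨z, hz, v, rfl⟩ := hw
        have hm : (∑ i, u i * (u i)ᴴ) * (E ρ * (z * e)) = E ρ * (z * e) := by
          apply hQ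
          refine ⟨D.XX_cmp (D.XX_mul hz P.mem) ρ, ?_, ?_⟩
          · rw [mul_assoc, mul_assoc, P.idem]
          · rw [← mul_assoc, hEE]
        simp only [Matrix.mulVec_mulVec]
        rw [hm]
      | zero => simp
      | add u v _ _ hu hv => simp only [Matrix.mulVec_add, hu, hv]
      | smul c u _ hu => simp only [Matrix.mulVec_smul, hu]
    rw [← h1, h2]
  refine ⟨u, hu, huu, hQE, ?_⟩
  rw [hQE, ← rank_eq_trace hEE, ← rank_eq_trace P.idem] at htr
  exact_mod_cast htr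

end Dat

end MH
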