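import Pool.Agent.Helper98.MH.Full
import Pool.Agent.Helper21.MH.Bound
import Pool.Agent.Helper98.MH.Idl

/-!
The case of a one-dimensional positive part; the last step of the proof of `full` in a form that uses only the
off-diagonal blocks.
-/

set_option linter.unusedSectionVars false

open Matrix

namespace MH

variable {n : Type*} [Fintype n] [DecidableEq n]
variable {h : Matrix n n ℂ} {E : ℝ → Matrix n n ℂ} {Λ : Finset ℝ}
variable {τ : Matrix n n ℂ →ₗ[ℂ] Matrix n n ℂ} {L : Submodule ℂ (Matrix n n ℂ)}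

namespace Dat

variable (D : Dat τ L h E Λ)
include D

/-- If all off-diagonal blocks are in `L`, then `L` is everything. -/
theorem full_of_off (hoff : ∀ y : Matrix n n ℂ, (1 - E 0) * y * E 0 - τ ((1 - E 0) * y * E 0) ∈ L)
    (hne : (1 - E 0 : Matrix n n ℂ).trace ≠ 0) (hne0 : (E 0).trace ≠ 0)
    {x : Matrix n n ℂ} (hx : τ x = -x) : x ∈ L := by
  set Q : Matrix n n ℂ := 1 - E 0 with hQ
  have hQQ : Q * Q = Q := by
    have : (1 - E 0 : Matrix n n ℂ) * (1 - E 0) = 1 - E 0 - E 0 + E 0 * E 0 := by noncomm_ring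
    rw [hQ, this, D.E00]; abel
  have hEQ : E 0 * Q = 0 := by rw [hQ, mul_sub, mul_one, D.E00, sub_self]
  have hQE : Q * E 0 = 0 := by rw [hQ, sub_mul, one_mul, D.E00, sub_self]
  have hτQ : τ Q = Q := by rw [hQ, map_sub, D.inv.one, D.tauE0]
  have hsum : E 0 + Q = 1 := by rw [hQ]; abel
  have k1 : ∀ y : Matrix n n ℂ, Q * y * E 0 - τ (Q * y * E 0) ∈ L := hoff
  have k2 : ∀ y : Matrix n n ℂ, E 0 * y * Q - τ (E 0 * y * Q) ∈ L := by
    intro y
    have h1 := k1 (τ y)
    have h2 : τ (E 0 * y * Q) = Q * τ y * E 0 := by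
      rw [D.inv.mul, D.inv.mul, hτQ, D.tauE0, mul_assoc]
    have h3 : E 0 * y * Q - τ (E 0 * y * Q) = -(Q * τ y * E 0 - τ (Q * τ y * E 0)) := by
      have h4 : τ (Q * τ y * E 0) = E 0 * y * Q := by
        rw [← h2, D.inv.inv]
      rw [h2, h4]; abel
    rw [h3]; exact L.neg_mem h1
  -- bracket of two off-diagonal pieces
  have br : ∀ a c : Matrix n n ℂ, Q * a * E 0 = a → E 0 * c * Q = c →
      (a - τ a) * (c - τ c) - (c - τ c) * (a - τ a)
        = (a * c - τ (a * c)) - (c * a - τ (c * a)) := by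
    intro a c ha hc
    have a0 : E 0 * a = 0 := by rw [← ha, ← mul_assoc, ← mul_assoc, hEQ]; simp
    have aE : a * E 0 = a := by
      conv_lhs => rw [← ha]
      rw [mul_assoc, D.E00, ha]
    have c0 : c * E 0 = 0 := by rw [← hc, mul_assoc, hQE, mul_zero]
    have cE : E 0 * c = c := by
      conv_lhs => rw [← hc]
      rw [← mul_assoc, ← mul_assoc, D.E00, hc]
    have τa0 : τ a * E 0 = 0 := by
      have := congrArg τ a0
      rwa [D.inv.mul, D.tauE0, map_zero] at this
    have τaE : E 0 * τ a = τ a := by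
      have := congrArg τ aE
      rwa [D.inv.mul, D.tauE0] at this
    have τc0 : E 0 * τ c = 0 := by
      have := congrArg τ c0
      rwa [D.inv.mul, D.tauE0, map_zero] at this
    have τcE : τ c * E 0 = τ c := by
      have := congrArg τ cE
      rwa [D.inv.mul, D.tauE0] at this
    have f1 : a * τ c = 0 := by rw [← aE, mul_assoc, τc0, mul_zero]
    have f2 : τ a * c = 0 := by rw [← cE, ← mul_assoc, τa0, zero_mul]
    have f3 : c * τ a = 0 := by rw [← τaE, ← mul_assoc, c0, zero_mul]
    have f4 : τ c * a = 0 := by rw [← τcE, mul_assoc, a0, mul_zero]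
    have : (a - τ a) * (c - τ c) - (c - τ c) * (a - τ a)
        = a * c - a * τ c - τ a * c + τ a * τ c - c * a + c * τ a + τ c * a - τ c * τ a := by
      noncomm_ring
    rw [this, f1, f2, f3, f4, D.inv.mul, D.inv.mul]
    abel
  -- matrix units
  let U : n → n → Matrix n n ℂ := fun p q => Matrix.single p q (1 : ℂ)
  have hU : ∀ (p i q : n) (A : Matrix n n ℂ), U p i * A * U i q = A i i • U p q := by
    intro p i q A
    ext r s
    simp only [U, Matrix.mul_apply, Matrix.single_apply, Matrix.smul_apply, smul_eq_mul]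
    by_cases hr : p = r
    · by_cases hs : q = s
      · subst hr hs
        simp
      · simp [hs]
    · simp [hr]
  have hU2 : ∀ (p q r s : n) (A : Matrix n n ℂ), U p q * A * U r s = A q r • U p s := by
    intro p q r s A
    ext i j
    simp only [U, Matrix.mul_apply, Matrix.single_apply, Matrix.smul_apply, smul_eq_mul]
    by_cases hr : p = i
    · by_cases hs : s = j
      · subst hr hs
        simp
      · simp [hs]
    · simp [hr]
  have hUsum : ∑ i, U i i = (1 : Matrix n n ℂ) := by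
    ext i j
    simp only [U, Matrix.sum_apply, Matrix.single_apply, Matrix.one_apply]
    by_cases hij : i = j
    · subst hij; simp
    · rw [if_neg hij]
      apply Finset.sum_eq_zero
      intro k _
      rw [if_neg]
      rintro ⟨rfl, rfl⟩; exact hij rfl
  -- diagonal pieces
  have k3 : ∀ p q : n, Q * U p q * Q - τ (Q * U p q * Q) ∈ L := by
    intro p q
    have h1 : ∑ i, (((Q * U p i * E 0) - τ (Q * U p i * E 0)) *
        ((E 0 * U i q * Q) - τ (E 0 * U i q * Q)) - ((E 0 * U i q * Q) - τ (E 0 * U i q * Q)) *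
        ((Q * U p i * E 0) - τ (Q * U p i * E 0))) ∈ L :=
      L.sum_mem fun i _ => D.br _ (k1 _) _ (k2 _)
    have h2 : ∀ i, ((Q * U p i * E 0) - τ (Q * U p i * E 0)) *
        ((E 0 * U i q * Q) - τ (E 0 * U i q * Q)) - ((E 0 * U i q * Q) - τ (E 0 * U i q * Q)) *
        ((Q * U p i * E 0) - τ (Q * U p i * E 0)) =
        (E 0) i i • (Q * U p q * Q - τ (Q * U p q * Q))
          - Q q p • (E 0 * U i i * E 0 - τ (E 0 * U i i * E 0)) := by
      intro i
      rw [br _ _ (by rw [← mul_assoc, ← mul_assoc, hQQ, mul_assoc _ (E 0) (E 0), D.E00])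
        (by rw [← mul_assoc, ← mul_assoc, D.E00, mul_assoc _ Q Q, hQQ])]
      have g1 : Q * U p i * E 0 * (E 0 * U i q * Q) = (E 0) i i • (Q * U p q * Q) := by
        have : Q * U p i * E 0 * (E 0 * U i q * Q) = Q * (U p i * (E 0 * E 0) * U i q) * Q := by
          simp only [mul_assoc]
        rw [this, D.E00, hU, mul_smul_comm, smul_mul_assoc]
      have g2 : E 0 * U i q * Q * (Q * U p i * E 0) = Q q p • (E 0 * U i i * E 0) := by
        have : E 0 * U i q * Q * (Q * U p i * E 0) = E 0 * (U i q * (Q * Q) * U p i) * E 0 := by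
          simp only [mul_assoc]
        rw [this, hQQ, hU2, mul_smul_comm, smul_mul_assoc]
      rw [g1, g2, map_smul, map_smul, smul_sub, smul_sub]
    rw [Finset.sum_congr rfl (fun i _ => h2 i), Finset.sum_sub_distrib, ← Finset.sum_smul,
      ← Finset.smul_sum, Finset.sum_sub_distrib, ← map_sum] at h1
    have h3 : ∑ i, E 0 * U i i * E 0 = E 0 := by
      rw [← Finset.sum_mul, ← Finset.mul_sum, hUsum, mul_one, D.E00]
    have h4 : ∑ i, (E 0) i i = (E 0).trace := rfl
    rw [h3, D.tauE0, sub_self, smul_zero, sub_zero, h4] at h1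
    have := L.smul_mem ((E 0).trace)⁻¹ h1
    rwa [smul_smul, inv_mul_cancel₀ hne0, one_smul] at this
  have k4 : ∀ p q : n, E 0 * U p q * E 0 - τ (E 0 * U p q * E 0) ∈ L := by
    intro p q
    have h1 : ∑ i, (((Q * U i q * E 0) - τ (Q * U i q * E 0)) *
        ((E 0 * U p i * Q) - τ (E 0 * U p i * Q)) - ((E 0 * U p i * Q) - τ (E 0 * U p i * Q)) *
        ((Q * U i q * E 0) - τ (Q * U i q * E 0))) ∈ L :=
      L.sum_mem fun i _ => D.br _ (k1 _) _ (k2 _)
    have h2 : ∀ i, ((Q * U i q * E 0) - τ (Q * U i q * E 0)) *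
        ((E 0 * U p i * Q) - τ (E 0 * U p i * Q)) - ((E 0 * U p i * Q) - τ (E 0 * U p i * Q)) *
        ((Q * U i q * E 0) - τ (Q * U i q * E 0)) =
        (E 0) q p • (Q * U i i * Q - τ (Q * U i i * Q))
          - Q i i • (E 0 * U p q * E 0 - τ (E 0 * U p q * E 0)) := by
      intro i
      rw [br _ _ (by rw [← mul_assoc, ← mul_assoc, hQQ, mul_assoc _ (E 0) (E 0), D.E00])
        (by rw [← mul_assoc, ← mul_assoc, D.E00, mul_assoc _ Q Q, hQQ])]
      have g1 : Q * U i q * E 0 * (E 0 * U p i * Q) = (E 0) q p • (Q * U i i * Q) := by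
        have : Q * U i q * E 0 * (E 0 * U p i * Q) = Q * (U i q * (E 0 * E 0) * U p i) * Q := by
          simp only [mul_assoc]
        rw [this, D.E00, hU2, mul_smul_comm, smul_mul_assoc]
      have g2 : E 0 * U p i * Q * (Q * U i q * E 0) = Q i i • (E 0 * U p q * E 0) := by
        have : E 0 * U p i * Q * (Q * U i q * E 0) = E 0 * (U p i * (Q * Q) * U i q) * E 0 := by
          simp only [mul_assoc]
        rw [this, hQQ, hU, mul_smul_comm, smul_mul_assoc]
      rw [g1, g2, map_smul, map_smul, smul_sub, smul_sub]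
    rw [Finset.sum_congr rfl (fun i _ => h2 i), Finset.sum_sub_distrib, ← Finset.sum_smul,
      ← Finset.smul_sum, Finset.sum_sub_distrib, ← map_sum] at h1
    have h3 : ∑ i, Q * U i i * Q = Q := by
      rw [← Finset.sum_mul, ← Finset.mul_sum, hUsum, mul_one, hQQ]
    have h4 : ∑ i, Q i i = Q.trace := rfl
    rw [h3, hτQ, sub_self, smul_zero, zero_sub, h4] at h1
    have := L.smul_mem (-(Q.trace)⁻¹) h1
    rwa [smul_neg, neg_smul, neg_neg, smul_smul, inv_mul_cancel₀ hne, one_smul] at this
  -- decomposition in matrix units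
  have hdec : ∀ (R S : Matrix n n ℂ) (y : Matrix n n ℂ),
      (∀ p q, R * U p q * S - τ (R * U p q * S) ∈ L) → R * y * S - τ (R * y * S) ∈ L := by
    intro R S y hRS
    have h1 : y = ∑ p, ∑ q, y p q • U p q := by
      conv_lhs => rw [Matrix.matrix_eq_sum_single y]
      apply Finset.sum_congr rfl
      intro p _
      apply Finset.sum_congr rfl
      intro q _
      simp [U]
    have h2 : R * y * S - τ (R * y * S) =
        ∑ p, ∑ q, y p q • (R * U p q * S - τ (R * U p q * S)) := by
      conv_lhs => rw [h1]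
      simp only [Finset.mul_sum, Finset.sum_mul, map_sum, mul_smul_comm, smul_mul_assoc,
        map_smul, smul_sub, Finset.sum_sub_distrib]
    rw [h2]
    exact L.sum_mem fun p _ => L.sum_mem fun q _ => L.smul_mem _ (hRS p q)
  have hall : ∀ y : Matrix n n ℂ, y - τ y ∈ L := by
    intro y
    have h1 : y = Q * y * E 0 + E 0 * y * Q + Q * y * Q + E 0 * y * E 0 := by
      have : y = (E 0 + Q) * y * (E 0 + Q) := by rw [hsum, one_mul, mul_one]
      conv_lhs => rw [this]
      noncomm_ring
    have h2 : y - τ y = (Q * y * E 0 - τ (Q * y * E 0)) + (E 0 * y * Q - τ (E 0 * y * Q))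
        + (Q * y * Q - τ (Q * y * Q)) + (E 0 * y * E 0 - τ (E 0 * y * E 0)) := by
      conv_lhs => rw [h1]
      simp only [map_add]
      abel
    rw [h2]
    exact L.add_mem (L.add_mem (L.add_mem (k1 y) (k2 y)) (hdec Q Q y k3)) (hdec _ _ y k4)
  have h1 := L.smul_mem (2⁻¹ : ℂ) (hall x)
  rw [hx, sub_neg_eq_add, ← two_smul ℂ x, smul_smul, inv_mul_cancel₀ two_ne_zero, one_smul] at h1
  exact h1

omit D in
/-- a matrix of rank one is an outer product -/
lemma exists_vec98 {e : Matrix n n ℂ} (hr : e.rank = 1) : ∃ u v : n → ℂ, e = vecMulVec u v := by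
  have h1 : Module.finrank ℂ (LinearMap.range (Matrix.toLin' e)) = 1 := by
    rw [← hr, Matrix.rank_eq_finrank_range_toLin e (Pi.basisFun ℂ n) (Pi.basisFun ℂ n),
      Matrix.toLin_eq_toLin']
  obtain ⟨v, hv0, hv⟩ := finrank_eq_one_iff'.mp h1
  have hv' : ∀ w : n → ℂ, ∃ c : ℂ, e *ᵥ w = c • (v : n → ℂ) := by
    intro w
    obtain ⟨c, hc⟩ := hv ⟨Matrix.toLin' e w, LinearMap.mem_range_self _ w⟩
    refine ⟨c, ?_⟩
    have := congrArg Subtype.val hc
    rw [← Matrix.toLin'_apply]
    exact this.symm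
  choose c hc using hv'
  refine ⟨v, fun j => c (Pi.single j 1), ?_⟩
  ext i j
  have h2 := congrFun (hc (Pi.single j 1)) i
  rw [Matrix.mulVec_single_one] at h2
  rw [Matrix.vecMulVec_apply, mul_comm]
  exact h2

omit D in
/-- a skew matrix of rank one is zero -/
lemma skew_rank_one {u v : n → ℂ} (hs : (vecMulVec u v)ᵀ = -vecMulVec u v) : vecMulVec u v = 0 := by
  ext i j
  have hij := congrFun (congrFun hs i) j
  have hii := congrFun (congrFun hs i) i
  simp only [Matrix.transpose_apply, Matrix.neg_apply, Matrix.vecMulVec_apply] at hij hii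
  rw [Matrix.vecMulVec_apply, Matrix.zero_apply]
  have h1 : u i * v i = 0 := by
    have : (2 : ℂ) * (u i * v i) = 0 := by linear_combination hii
    exact (mul_eq_zero.1 this).resolve_left two_ne_zero
  have h2 : (u i * v j) ^ 2 = 0 := by
    have : (u i * v j) ^ 2 = -(u i * v i) * (u j * v j) + (u i * v j) * (u i * v j + u j * v i) := by ring
    rw [this, h1]
    have h3 : u i * v j + u j * v i = 0 := by linear_combination hij
    rw [h3]
    ring
  exact pow_eq_zero_iff (two_ne_zero) |>.1 h2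

/-- If the positive part has dimension one and the kernel of `h` is not zero, then `L` is everything. -/
theorem full_one {G Gi : Matrix n n ℂ} (hG1 : Gi * G = 1) (hGs : Gᵀ = G)
    (hG : ∀ x, τ x = Gi * xᵀ * G) (hs : (Pp E Λ).rank = 1) (hb : 1 ≤ (E 0).rank)
    {x : Matrix n n ℂ} (hx : τ x = -x) : x ∈ L := by
  classical
  have S := D.spec
  set P := Pp E Λ with hP
  have hPP : P * P = P := S.sum_mul_sum _
  have hPs : Pᴴ = P := S.sum_star _
  have hP0 : P ≠ 0 := by
    intro h0
    rw [h0, Matrix.rank_zero] at hs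
    exact zero_ne_one hs
  have hG2 : G * Gi = 1 := mul_eq_one_comm.1 hG1
  have e0 : E 0 = ∑ μ ∈ ({0} : Finset ℝ), E μ := by rw [Finset.sum_singleton]
  have hZZ : E 0 * E 0 = E 0 := by rw [S.mul, if_pos rfl]
  have hPE : P * E 0 = 0 := by
    rw [hP, Pp, Finset.sum_mul]
    refine Finset.sum_eq_zero fun a ha => ?_
    rw [S.mul, if_neg (Finset.mem_filter.1 ha).2.ne']
  have hEP : E 0 * P = 0 := by
    rw [hP, Pp, Finset.mul_sum]
    refine Finset.sum_eq_zero fun a ha => ?_
    rw [S.mul, if_neg (Finset.mem_filter.1 ha).2.ne]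
  set Q := Qn E Λ with hQ
  have hQQ : Q * Q = Q := S.sum_mul_sum _
  have hQs : Qᴴ = Q := S.sum_star _
  have hQE : Q * E 0 = 0 := by
    rw [hQ, Qn, Finset.sum_mul]
    refine Finset.sum_eq_zero fun a ha => ?_
    rw [S.mul, if_neg (Finset.mem_filter.1 ha).2.ne]
  have hEQ : E 0 * Q = 0 := by
    rw [hQ, Qn, Finset.mul_sum]
    refine Finset.sum_eq_zero fun a ha => ?_
    rw [S.mul, if_neg (Finset.mem_filter.1 ha).2.ne']
  have hone : P + E 0 + Q = 1 := S.one_eq
  have hτP : τ P = Q := D.tauP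
  have hτQ : τ Q = P := D.tauQ
  have hτE : τ (E 0) = E 0 := by rw [D.tauE, neg_zero]
  -- the shape of the raising elements
  have up : ∀ y ∈ Lup L E, y = P * y * E 0 - τ (P * y * E 0) := by
    intro y hy
    have z0 : E 0 * y * P = 0 := by
      rw [e0, hP]
      unfold Pp
      refine hy.2.sum_zero fun μ hμ ν hν => ?_
      have := (Finset.mem_filter.1 hν).2
      rw [Finset.mem_singleton.1 hμ]
      exact not_lt.2 this.le
    have z2 : E 0 * y * E 0 = 0 := hy.2 0 0 (lt_irrefl _)
    have z3 : Q * y * P = 0 := by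
      rw [hQ, hP]
      unfold Pp Qn
      refine hy.2.sum_zero fun μ hμ ν hν => ?_
      have h2 := (Finset.mem_filter.1 hν).2
      have h3 := (Finset.mem_filter.1 hμ).2
      exact not_lt.2 (h3.trans h2).le
    have z4 : Q * y * E 0 = 0 := by
      rw [hQ, e0]
      unfold Qn
      refine hy.2.sum_zero fun μ hμ ν hν => ?_
      have h3 := (Finset.mem_filter.1 hμ).2
      rw [Finset.mem_singleton.1 hν]
      exact not_lt.2 h3.le
    have z5 : P * y * P = 0 := by
      obtain ⟨c, hc⟩ := rank_one_scalar hs y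
      have h1 : (P * y * P).trace = 0 := by
        rw [Matrix.trace_mul_comm, ← mul_assoc, hPP, hP, Pp, Finset.sum_mul, Matrix.trace_sum]
        refine Finset.sum_eq_zero fun μ _ => ?_
        have h2 : E μ * y * E μ = 0 := hy.2 μ μ (lt_irrefl _)
        have h3 : (E μ * y).trace = (E μ * y * E μ).trace := by
          rw [Matrix.trace_mul_comm (E μ * y), ← mul_assoc, S.mul, if_pos rfl]
        rw [h3, h2, Matrix.trace_zero]
      rw [hc, Matrix.trace_smul, ← rank_eq_trace hPP, hs] at h1
      have h2 : c = 0 := by simpa using h1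
      rw [hc, h2, zero_smul]
    have sky : τ y = -y := D.sk y hy.1
    have z6 : Q * y * Q = 0 := by
      have h1 := congrArg τ z5
      rw [D.inv.mul, D.inv.mul, hτP, sky, map_zero] at h1
      have h2 : Q * y * Q = -(Q * (-y * Q)) := by noncomm_ring
      rw [h2, h1, neg_zero]
    have z7 : P * y * Q = 0 := by
      obtain ⟨u, v, huv⟩ := exists_vec98 hs
      have h1 : τ (P * y * Q) = -(P * y * Q) := by
        rw [D.inv.mul, D.inv.mul, hτP, hτQ, sky]
        noncomm_ring
      have h2 : (G * (P * y * Q))ᵀ = -(G * (P * y * Q)) := by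
        have h3 : G * τ (P * y * Q) = (P * y * Q)ᵀ * G := by
          rw [hG, ← mul_assoc, ← mul_assoc, hG2, one_mul]
        rw [Matrix.transpose_mul, hGs, ← h3, h1, mul_neg]
      have h4 : G * (P * y * Q) = vecMulVec (G *ᵥ u) (v ᵥ* (y * Q)) := by
        rw [huv, mul_assoc, Matrix.vecMulVec_mul, Matrix.mul_vecMulVec]
      have h5 : G * (P * y * Q) = 0 := by
        rw [h4] at h2 ⊢
        exact skew_rank_one h2
      have h6 : P * y * Q = Gi * (G * (P * y * Q)) := by rw [← mul_assoc, hG1, one_mul]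
      rw [h6, h5, mul_zero]
    have t1 : τ (P * y * E 0) = -(E 0 * y * Q) := by
      rw [D.inv.mul, D.inv.mul, hτP, hτE, sky]
      noncomm_ring
    have h1 : y = (P + E 0 + Q) * y * (P + E 0 + Q) := by rw [hone, one_mul, mul_one]
    have h2 : (P + E 0 + Q) * y * (P + E 0 + Q) = P * y * P + P * y * E 0 + P * y * Q +
        (E 0 * y * P + E 0 * y * E 0 + E 0 * y * Q) + (Q * y * P + Q * y * E 0 + Q * y * Q) := by
      noncomm_ring
    rw [h2, z0, z2, z3, z4, z5, z6, z7] at h1
    rw [t1]
    conv_lhs => rw [h1]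
    abel
  -- all of Hom (V_0, V_+)
  have key : ∀ y : Matrix n n ℂ, P * y * E 0 - τ (P * y * E 0) ∈ L := by
    let Z : Submodule ℂ (Matrix n n ℂ) :=
      { carrier := {z | P * z * E 0 = z ∧ z - τ z ∈ L}
        add_mem' := fun {a b} ha hb => ⟨by rw [mul_add, add_mul, ha.1, hb.1], by
          have : a + b - τ (a + b) = (a - τ a) + (b - τ b) := by rw [map_add]; abel
          rw [this]; exact L.add_mem ha.2 hb.2⟩
        zero_mem' := ⟨by simp, by simp⟩
        smul_mem' := fun c a ha => ⟨by rw [mul_smul_comm, smul_mul_assoc, ha.1], by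
          have : c • a - τ (c • a) = c • (a - τ a) := by rw [map_smul, smul_sub]
          rw [this]; exact L.smul_mem c ha.2⟩ }
    intro y
    obtain ⟨z1, hz1, hz1'⟩ := decomp (I := Z) (P * y * E 0)
    set z0 := P * y * E 0 - z1 with hz0
    have hz0P : P * z0 * E 0 = z0 := by
      rw [hz0, mul_sub, sub_mul, hz1.1]
      congr 1
      rw [← mul_assoc, ← mul_assoc, hPP, mul_assoc _ (E 0) (E 0), hZZ]
    have hPz : P * z0 = z0 := by rw [← hz0P, ← mul_assoc, ← mul_assoc, hPP]
    have hzE : z0 * E 0 = z0 := by rw [← hz0P, mul_assoc, hZZ]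
    have h1 : ∀ z ∈ Z, z * z0ᴴ = 0 := by
      intro z hz
      have h2 := hz1' z hz
      obtain ⟨c, hc⟩ := rank_one_scalar hs (z * z0ᴴ)
      have h3 : P * (z * z0ᴴ) * P = z * z0ᴴ := by
        have h4 : P * z = z := by rw [← hz.1, ← mul_assoc, ← mul_assoc, hPP]
        have h5 : z0ᴴ * P = z0ᴴ := by
          have := congrArg conjTranspose hPz
          rwa [conjTranspose_mul, hPs] at this
        rw [← mul_assoc, h4, mul_assoc, h5]
      rw [h3] at hc
      have h6 : (z * z0ᴴ).trace = 0 := by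
        have h7 : (z * z0ᴴ).trace = star ((zᴴ * z0).trace) := by
          rw [← Matrix.trace_conjTranspose, conjTranspose_mul, conjTranspose_conjTranspose, Matrix.trace_mul_comm]
        rw [h7, h2, star_zero]
      rw [hc, Matrix.trace_smul, ← rank_eq_trace hPP, hs] at h6
      have h8 : c = 0 := by simpa using h6
      rw [hc, h8, zero_smul]
    have h2 : z0ᴴ = 0 := by
      apply Matrix.toLin'.injective
      apply LinearMap.ext
      intro w
      rw [Matrix.toLin'_apply, map_zero, LinearMap.zero_apply]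
      have hE0 : E 0 * z0ᴴ = z0ᴴ := by
        have := congrArg conjTranspose hzE
        rwa [conjTranspose_mul, S.star] at this
      refine D.killed hP0 (v := z0ᴴ *ᵥ w) (by rw [Matrix.mulVec_mulVec, hE0]) fun y' hy' => ?_
      have h3 := up y' hy'
      have hmem : P * y' * E 0 ∈ Z := by
        refine ⟨?_, ?_⟩
        · rw [← mul_assoc, ← mul_assoc, hPP, mul_assoc _ (E 0) (E 0), hZZ]
        · rw [← h3]; exact hy'.1
      have h4 : y' * z0ᴴ = 0 := by
        have h5 : τ (P * y' * E 0) * z0ᴴ = 0 := by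
          have h6 : τ (P * y' * E 0) = E 0 * τ y' * Q := by
            rw [D.inv.mul, D.inv.mul, hτP, hτE, mul_assoc]
          rw [h6, ← hE0, mul_assoc (E 0 * τ y'), ← mul_assoc Q, hQE]
          simp
        rw [h3, sub_mul, h1 _ hmem, h5, sub_zero]
      rw [Matrix.mulVec_mulVec, h4, Matrix.zero_mulVec]
    have h3 : z0 = 0 := by
      have := congrArg conjTranspose h2
      rwa [conjTranspose_conjTranspose, conjTranspose_zero] at this
    have h4 : P * y * E 0 = z1 := by
      rw [hz0] at h3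
      exact sub_eq_zero.1 h3
    rw [h4]
    exact hz1.2
  -- the other half
  have key2 : ∀ y : Matrix n n ℂ, Q * y * E 0 - τ (Q * y * E 0) ∈ L := by
    intro y
    have h1 := D.st _ (key (τ yᴴ))
    have h2 : (τ (P * τ yᴴ * E 0))ᴴ = Q * y * E 0 := by
      rw [D.inv.mul, D.inv.mul, D.inv.inv, hτP, hτE, conjTranspose_mul, conjTranspose_mul,
        conjTranspose_conjTranspose, S.star, hQs]
    have h3 : (P * τ yᴴ * E 0)ᴴ = τ (Q * y * E 0) := by
      rw [← h2, D.inv.star (τ (P * τ yᴴ * E 0)), D.inv.inv]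
    have h4 : Q * y * E 0 - τ (Q * y * E 0) = -(P * τ yᴴ * E 0 - τ (P * τ yᴴ * E 0))ᴴ := by
      rw [conjTranspose_sub, h2, h3]
      abel
    rw [h4]
    exact L.neg_mem h1
  have tr0 : (E 0).trace ≠ 0 := by
    rw [← rank_eq_trace hZZ]
    have : (E 0).rank ≠ 0 := by omega
    exact_mod_cast this
  have tr1 : (1 - E 0 : Matrix n n ℂ).trace ≠ 0 := by
    have h1 : (1 - E 0 : Matrix n n ℂ) = P + Q := by
      rw [← hone]
      abel
    rw [h1, Matrix.trace_add, D.rank_Q, ← hP, ← rank_eq_trace hPP, hs]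
    norm_num
  refine D.full_of_off (fun y => ?_) tr1 tr0 hx
  have h1 : (1 - E 0) * y * E 0 = P * y * E 0 + Q * y * E 0 := by
    have : (1 - E 0 : Matrix n n ℂ) = P + Q := by
      rw [← hone]
      abel
    rw [this, add_mul, add_mul]
  have h2 : (1 - E 0) * y * E 0 - τ ((1 - E 0) * y * E 0) =
      (P * y * E 0 - τ (P * y * E 0)) + (Q * y * E 0 - τ (Q * y * E 0)) := by
    rw [h1, map_add]
    abel
  rw [h2]
  exact L.add_mem (key y) (key2 y)

end Dat

end MH
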